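import Pool.Agent.Lib.MP_784f1f_an.Defs

set_option autoImplicit false
open MeasureTheory Filter Topology Set

namespace Pool.Agent.Lib.MP_784f1f_an

lemma measurableSet_Cell (N : ℕ) : MeasurableSet (Cell N) :=
  MeasurableSet.univ_pi fun _ => measurableSet_Ico

lemma measurableSet_QT (N : ℕ) (T : ℝ) : MeasurableSet (QT N T) :=
  measurableSet_Ioo.prod (measurableSet_Cell N)

lemma Cell_subset_Icc (N : ℕ) : Cell N ⊆ Icc (0 : Fin N → ℝ) 1 := by
  intro x hx
  have h : ∀ i, x i ∈ Ico (0:ℝ) 1 := fun i => hx i (mem_univ i)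
  exact ⟨fun i => (h i).1, fun i => (h i).2.le⟩

lemma QT_subset (N : ℕ) (T : ℝ) : QT N T ⊆ Icc 0 T ×ˢ Icc (0 : Fin N → ℝ) 1 :=
  Set.prod_mono Ioo_subset_Icc_self (Cell_subset_Icc N)

lemma isCompact_big (N : ℕ) (T : ℝ) : IsCompact (Icc 0 T ×ˢ Icc (0 : Fin N → ℝ) 1) :=
  isCompact_Icc.prod isCompact_Icc

/-- continuous functions are integrable on `QT`. -/
lemma integrableOn_QT {N : ℕ} {T : ℝ} {K : ℝ × (Fin N → ℝ) → ℝ} (hK : Continuous K) :
    IntegrableOn K (QT N T) :=
  (hK.continuousOn.integrableOn_compact (isCompact_big N T)).mono_set (QT_subset N T)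

lemma integrableOn_Cell {N : ℕ} {K : (Fin N → ℝ) → ℝ} (hK : Continuous K) :
    IntegrableOn K (Cell N) :=
  (hK.continuousOn.integrableOn_compact isCompact_Icc).mono_set (Cell_subset_Icc N)

lemma bounded_QT {N : ℕ} {T : ℝ} {K : ℝ × (Fin N → ℝ) → ℝ} (hK : Continuous K) :
    ∃ C : ℝ, 0 ≤ C ∧ ∀ z ∈ QT N T, |K z| ≤ C := by
  obtain ⟨C, hC⟩ := (isCompact_big N T).exists_bound_of_continuousOn hK.continuousOn
  exact ⟨max C 0, le_max_right _ _, fun z hz => (hC z (QT_subset N T hz)).trans (le_max_left _ _)⟩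

/-- integral over the cell of a derivative -/
lemma integral_cell_deriv {n : ℕ} (i : Fin (n + 1)) {h h' : (Fin (n + 1) → ℝ) → ℝ}
    (hc : Continuous h')
    (hd : ∀ (x' : Fin n → ℝ) (y : ℝ), HasDerivAt
      (fun y : ℝ => h (i.insertNth (α := fun _ => ℝ) y x'))
      (h' (i.insertNth (α := fun _ => ℝ) y x')) y)
    (hper : ∀ x' : Fin n → ℝ, h (i.insertNth (α := fun _ => ℝ) (1:ℝ) x') =
      h (i.insertNth (α := fun _ => ℝ) (0:ℝ) x')) :
    ∫ x in Cell (n + 1), h' x = 0 := by
  let e := MeasurableEquiv.piFinSuccAbove (fun _ : Fin (n + 1) => ℝ) i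
  have he : MeasurePreserving e volume volume := volume_preserving_piFinSuccAbove (fun _ => ℝ) i
  have hesymm : ∀ p, e.symm p = i.insertNth (α := fun _ => ℝ) p.1 p.2 := fun p => rfl
  have hpre : e ⁻¹' (Ico (0:ℝ) 1 ×ˢ Cell n) = Cell (n + 1) := by
    ext x
    constructor
    · rintro ⟨h1, h2⟩ j _
      rcases Fin.eq_self_or_eq_succAbove i j with hj | ⟨k, hk⟩
      · rw [hj]; exact h1
      · rw [hk]; exact h2 k (mem_univ k)
    · intro hx
      exact ⟨hx i (mem_univ i), fun k _ => hx (i.succAbove k) (mem_univ _)⟩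
  have hcont : Continuous (fun p : ℝ × (Fin n → ℝ) => h' (i.insertNth (α := fun _ => ℝ) p.1 p.2)) := by
    apply hc.comp
    apply continuous_pi
    intro j
    rcases Fin.eq_self_or_eq_succAbove i j with hj | ⟨k, hk⟩
    · subst hj
      simp only [Fin.insertNth_apply_same]
      exact continuous_fst
    · subst hk
      simp only [Fin.insertNth_apply_succAbove]
      exact (continuous_apply k).comp continuous_snd
  have h1 := he.setIntegral_preimage_emb e.measurableEmbedding (fun p => h' (e.symm p))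
    (Ico (0:ℝ) 1 ×ˢ Cell n)
  simp only [MeasurableEquiv.symm_apply_apply] at h1
  rw [hpre] at h1
  rw [h1]
  simp only [hesymm]
  have h2 : (volume : Measure (ℝ × (Fin n → ℝ))).restrict (Ico (0:ℝ) 1 ×ˢ Cell n) =
      (volume.restrict (Ico (0:ℝ) 1)).prod (volume.restrict (Cell n)) := by
    rw [Measure.prod_restrict]; rfl
  rw [h2, integral_prod_symm]
  · apply integral_eq_zero_of_ae
    filter_upwards with x'
    simp only [Pi.zero_apply]
    rw [integral_Ico_eq_integral_Ioo, ← integral_Ioc_eq_integral_Ioo,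
      ← intervalIntegral.integral_of_le zero_le_one,
      intervalIntegral.integral_eq_sub_of_hasDerivAt (fun y _ => hd x' y), hper, sub_self]
    apply Continuous.intervalIntegrable
    exact hcont.comp (by fun_prop : Continuous fun y : ℝ => (y, x'))
  · rw [← h2]
    apply (hcont.continuousOn.integrableOn_compact
      ((isCompact_Icc (a := (0:ℝ)) (b := 1)).prod (isCompact_Icc (a := (0 : Fin n → ℝ)) (b := 1)))).mono_set
    exact Set.prod_mono Ico_subset_Icc_self (Cell_subset_Icc n)

/-- integral over `QT` of a time derivative of a function vanishing at the ends -/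
lemma integral_QT_time {N : ℕ} {T : ℝ} (hT : 0 < T) {h h' : ℝ × (Fin N → ℝ) → ℝ}
    (hc : Continuous h') (hd : ∀ t x, HasDerivAt (fun t => h (t, x)) (h' (t, x)) t)
    (h0 : ∀ x, h (0, x) = h (T, x)) : ∫ z in QT N T, h' z = 0 := by
  have h2 : (volume : Measure (ℝ × (Fin N → ℝ))).restrict (QT N T) =
      (volume.restrict (Ioo (0:ℝ) T)).prod (volume.restrict (Cell N)) := by
    rw [Measure.prod_restrict]; rfl
  rw [h2, integral_prod_symm]
  · apply integral_eq_zero_of_ae
    filter_upwards with x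
    simp only [Pi.zero_apply]
    rw [← integral_Ioc_eq_integral_Ioo, ← intervalIntegral.integral_of_le hT.le,
      intervalIntegral.integral_eq_sub_of_hasDerivAt (fun t _ => hd t x), h0, sub_self]
    apply Continuous.intervalIntegrable
    exact hc.comp (by fun_prop : Continuous fun t : ℝ => (t, x))
  · rw [← h2]
    exact integrableOn_QT hc

/-- integral over `QT` of an `x_i` derivative -/
lemma integral_QT_space {n : ℕ} {T : ℝ} (i : Fin (n + 1)) {h h' : ℝ × (Fin (n + 1) → ℝ) → ℝ}
    (hc : Continuous h')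
    (hd : ∀ (t : ℝ) (x' : Fin n → ℝ) (y : ℝ), HasDerivAt
      (fun y : ℝ => h (t, i.insertNth (α := fun _ => ℝ) y x'))
      (h' (t, i.insertNth (α := fun _ => ℝ) y x')) y)
    (hper : ∀ (t : ℝ) (x' : Fin n → ℝ), h (t, i.insertNth (α := fun _ => ℝ) (1:ℝ) x') =
      h (t, i.insertNth (α := fun _ => ℝ) (0:ℝ) x')) :
    ∫ z in QT (n + 1) T, h' z = 0 := by
  have h2 : (volume : Measure (ℝ × (Fin (n + 1) → ℝ))).restrict (QT (n + 1) T) =
      (volume.restrict (Ioo (0:ℝ) T)).prod (volume.restrict (Cell (n + 1))) := by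
    rw [Measure.prod_restrict]; rfl
  rw [h2, integral_prod]
  · apply integral_eq_zero_of_ae
    filter_upwards with t
    simp only [Pi.zero_apply]
    exact integral_cell_deriv i (h := fun x => h (t, x)) (h' := fun x => h' (t, x))
      (hc.comp (by fun_prop)) (hd t) (hper t)
  · rw [← h2]
    exact integrableOn_QT hc

end Pool.Agent.Lib.MP_784f1f_an
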