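import Pool.Agent.Lib.MP_784f1f_an.Iter

set_option autoImplicit false
open MeasureTheory Filter Topology Set

namespace Pool.Agent.Lib.MP_784f1f_an

lemma exists_unif_limit (u : ℕ → ℝ × ℝ → ℝ) (hc : ∀ k, Continuous (u k))
    (h : ∀ k z, |u (k + 1) z - u k z| ≤ eps k) :
    ∃ f : ℝ × ℝ → ℝ, Continuous f ∧ ∀ k z, |f z - u k z| ≤ (1 / 4) * (1 / 2) ^ k := by
  have h1 : ∀ z, ∀ n, dist (u n z) (u (n + 1) z) ≤ (1 / 8) * (1 / 2 : ℝ) ^ n := by
    intro z n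
    rw [dist_comm, Real.dist_eq]
    exact h n z
  have h2 : ∀ z, ∃ l, Tendsto (fun n => u n z) atTop (𝓝 l) := by
    intro z
    exact cauchySeq_tendsto_of_complete
      (cauchySeq_of_le_geometric (1 / 2) (1 / 8) (by norm_num) (h1 z))
  choose f hf using h2
  have h3 : ∀ k z, |f z - u k z| ≤ (1 / 4) * (1 / 2) ^ k := by
    intro k z
    have h4 := dist_le_of_le_geometric_of_tendsto (1 / 2) (1 / 8) (by norm_num) (h1 z) (hf z) k
    rw [dist_comm, Real.dist_eq] at h4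
    refine h4.trans (le_of_eq ?_)
    ring
  refine ⟨f, ?_, h3⟩
  have h5 : TendstoUniformly u f atTop := by
    rw [Metric.tendstoUniformly_iff]
    intro ε hε
    have h6 : Tendsto (fun k : ℕ => (1 / 4) * (1 / 2 : ℝ) ^ k) atTop (𝓝 ((1 / 4) * 0)) :=
      (tendsto_pow_atTop_nhds_zero_of_lt_one (by norm_num) (by norm_num)).const_mul _
    rw [mul_zero] at h6
    filter_upwards [h6.eventually (gt_mem_nhds hε)] with k hk z
    rw [Real.dist_eq]
    exact lt_of_le_of_lt (h3 k z) hk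
  exact h5.continuous (Frequently.of_forall hc)

section

variable {D : Set (ℝ × ℝ)} (hD : IsOpen D) (hb : Bornology.IsBounded D) (φ0 : Reg)

lemma abs_le_Z1 (p : ℝ × ℝ) : |p.1| ≤ Zf p := by
  unfold Zf
  have := sq_nonneg p.2
  linarith

lemma abs_le_Z2 (p : ℝ × ℝ) : |p.2| ≤ Zf p := by
  unfold Zf
  have h1 := abs_nonneg p.1
  have h2 : |p.2| ≤ 1 + |p.2| ^ 2 := by nlinarith [sq_nonneg (|p.2| - 1), abs_nonneg p.2]
  rw [sq_abs] at h2
  linarith

lemma Zf_le_Wf (p : ℝ × ℝ) : Zf p ≤ Wf p := by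
  unfold Zf Wf
  have h1 := abs_nonneg p.1
  have h2 := mul_nonneg h1 (abs_nonneg p.2)
  linarith

lemma tendsto_L1 (c : ℝ × ℝ → ℝ) (hc : ∀ p, |c p| ≤ Zf p) :
    Tendsto (fun k => ∫⁻ z, ENNReal.ofReal
      |c ((sq hD hb φ0 k).st z) - c (stInf hD hb φ0 z)|) atTop (𝓝 0) := by
  have hW := lintegral_stInf_lt hD hb φ0
  have h1 : Tendsto (fun k => ∫⁻ z in Ubad D (sq hD hb φ0 k),
      ENNReal.ofReal (Wf (stInf hD hb φ0 z))) atTop (𝓝 0) := by
    have h2 := tendsto_setLIntegral_zero (μ := volume.restrict D) hW.ne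
      (s := fun k => Ubad D (sq hD hb φ0 k)) (l := atTop) (by
        refine tendsto_of_tendsto_of_tendsto_of_le_of_le tendsto_const_nhds
          (tendsto_vol hD hb φ0) (fun _ => zero_le) (fun k => ?_)
        exact Measure.restrict_apply_le _ _)
    refine h2.congr fun k => ?_
    rw [Measure.restrict_restrict (isOpen_Ubad hD _).measurableSet,
      Set.inter_eq_left.mpr (fun z hz => hz.1)]
  have h3 := (tendsto_En hD hb φ0).add h1
  rw [add_zero] at h3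
  refine tendsto_of_tendsto_of_tendsto_of_le_of_le tendsto_const_nhds h3
    (fun _ => zero_le) (fun k => ?_)
  have h4 : ∀ z, ENNReal.ofReal |c ((sq hD hb φ0 k).st z) - c (stInf hD hb φ0 z)| ≤
      (Ubad D (sq hD hb φ0 k)).indicator (fun z => ENNReal.ofReal (Zf ((sq hD hb φ0 k).st z)) +
        ENNReal.ofReal (Wf (stInf hD hb φ0 z))) z := by
    intro z
    by_cases hz : z ∈ Ubad D (sq hD hb φ0 k)
    · rw [Set.indicator_of_mem hz, ← ENNReal.ofReal_add (Zf_nonneg _) (Wf_nonneg _)]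
      apply ENNReal.ofReal_le_ofReal
      calc |c ((sq hD hb φ0 k).st z) - c (stInf hD hb φ0 z)|
          ≤ |c ((sq hD hb φ0 k).st z)| + |c (stInf hD hb φ0 z)| := abs_sub _ _
        _ ≤ _ := add_le_add (hc _) ((hc _).trans (Zf_le_Wf _))
    · rw [Set.indicator_of_notMem hz, stInf_eq hD hb φ0 hz, sub_self, abs_zero,
        ENNReal.ofReal_zero]
  refine (lintegral_mono h4).trans ?_
  rw [lintegral_indicator (isOpen_Ubad hD _).measurableSet]
  have hm : Measurable (fun z => ENNReal.ofReal (Zf ((sq hD hb φ0 k).st z))) := by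
    have h1 : Continuous Zf := by unfold Zf; fun_prop
    exact ENNReal.measurable_ofReal.comp (h1.comp (sq hD hb φ0 k).continuous_st).measurable
  rw [lintegral_add_left hm]
  exact le_rfl

end

/-- the base domain -/
def Dom (T : ℝ) : Set (ℝ × ℝ) := oR (T / 4) (3 * T / 4) (1 / 4) (3 / 4)

lemma isOpen_Dom (T : ℝ) : IsOpen (Dom T) := isOpen_Ioo.prod isOpen_Ioo

lemma isBounded_Dom (T : ℝ) : Bornology.IsBounded (Dom T) :=
  (Metric.isBounded_Ioo _ _).prod (Metric.isBounded_Ioo _ _)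

theorem core (T : ℝ) (hT : 0 < T) : ∃ (φ : ℕ → Reg) (f g a b : ℝ × ℝ → ℝ),
    (∀ k, (φ k).SuppIn (Dom T)) ∧ Continuous f ∧ Continuous g ∧ Measurable a ∧ Measurable b ∧
    (∀ k z, |f z - (φ k).f z.1 z.2| ≤ (1 / 2) ^ k) ∧
    (∀ k z, |g z - (φ k).fx z.1 z.2| ≤ (1 / 2) ^ k) ∧
    Tendsto (fun k => ∫⁻ z, ENNReal.ofReal |(φ k).ft z.1 z.2 - a z|) atTop (𝓝 0) ∧
    Tendsto (fun k => ∫⁻ z, ENNReal.ofReal |(φ k).fxx z.1 z.2 - b z|) atTop (𝓝 0) ∧
    (∀ z, z ∉ Dom T → a z = 0 ∧ b z = 0) ∧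
    (∀ z, good (a z, b z) ∨ (a z = 0 ∧ b z = 0)) ∧
    ∫⁻ z in Dom T, ENNReal.ofReal (Wf (a z, b z)) < ⊤ ∧ f (T / 2, 1 / 2) ≠ 0 := by
  obtain ⟨χ, χ', χ'', K, hK, hχ, hχ', cχ', cχ'', hχb, hχ0, hχ1⟩ :=
    exists_plateau (l := T / 4) (r := 3 * T / 4) (κ := 1 / 4) (by linarith) (by norm_num)
      (by norm_num)
  obtain ⟨ζ, ζ', ζ'', L, hL, hζ, hζ', cζ', cζ'', hζb, hζ0, hζ1⟩ :=
    exists_plateau (l := 1 / 4) (r := 3 / 4) (κ := 1 / 4) (by norm_num) (by norm_num)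
      (by norm_num)
  obtain ⟨φ0, hφ0⟩ : ∃ φ0, φ0 = Reg.prod χ χ' ζ ζ' ζ'' hχ hζ hζ' cχ' cζ'' := ⟨_, rfl⟩
  have hsupp0 : φ0.SuppIn (Dom T) := by
    intro z hz
    rw [hφ0]
    simp only [Reg.prod]
    rw [Dom, mem_oR, not_and_or] at hz
    rcases hz with hz | hz
    · obtain ⟨c1, c2, c3⟩ := hχ0 z.1 hz
      rw [c1, c2]; simp
    · obtain ⟨c1, c2, c3⟩ := hζ0 z.2 hz
      rw [c1, c2, c3]; simp
  have hcenter : φ0.f (T / 2) (1 / 2) = 1 := by
    rw [hφ0]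
    simp only [Reg.prod]
    rw [(hχ1 (T / 2) (by linarith) (by linarith)).1, (hζ1 (1 / 2) (by norm_num) (by norm_num)).1,
      mul_one]
  have hD := isOpen_Dom T
  have hb := isBounded_Dom T
  obtain ⟨φ, hφ⟩ : ∃ φ, φ = sq hD hb φ0 := ⟨_, rfl⟩
  have hφ00 : φ 0 = φ0 := by rw [hφ]; rfl
  have hdiff : ∀ k (z : ℝ × ℝ), |(φ (k + 1)).f z.1 z.2 - (φ k).f z.1 z.2| ≤ eps k ∧
      |(φ (k + 1)).fx z.1 z.2 - (φ k).fx z.1 z.2| ≤ eps k := by
    intro k z
    obtain ⟨ψ, h1, h2, h3, _⟩ := sq_succ hD hb φ0 k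
    rw [hφ, h1]
    simp only [Reg.add, add_sub_cancel_left]
    exact h3 z
  obtain ⟨f, hfc, hf⟩ := exists_unif_limit (fun k z => (φ k).f z.1 z.2) (fun k => (φ k).cf)
    (fun k z => (hdiff k z).1)
  obtain ⟨g, hgc, hg⟩ := exists_unif_limit (fun k z => (φ k).fx z.1 z.2) (fun k => (φ k).cfx)
    (fun k z => (hdiff k z).2)
  refine ⟨φ, f, g, fun z => (stInf hD hb φ0 z).1, fun z => (stInf hD hb φ0 z).2, ?_, hfc, hgc,
    (measurable_stInf hD hb φ0).fst, (measurable_stInf hD hb φ0).snd, ?_, ?_, ?_, ?_, ?_, ?_, ?_, ?_⟩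
  · intro k
    rw [hφ]
    induction k with
    | zero => exact hsupp0
    | succ k ih =>
      obtain ⟨ψ, h1, h2, h3, _⟩ := sq_succ hD hb φ0 k
      rw [h1]
      exact ih.add (h2.mono Set.inter_subset_left)
  · intro k z
    refine (hf k z).trans ?_
    have : (0:ℝ) ≤ (1 / 2) ^ k := by positivity
    linarith
  · intro k z
    refine (hg k z).trans ?_
    have : (0:ℝ) ≤ (1 / 2) ^ k := by positivity
    linarith
  · rw [hφ]
    exact tendsto_L1 hD hb φ0 (fun p => p.1) abs_le_Z1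
  · rw [hφ]
    exact tendsto_L1 hD hb φ0 (fun p => p.2) abs_le_Z2
  · intro z hz
    have := stInf_off hD hb φ0 hsupp0 hz
    beta_reduce
    rw [this]
    exact ⟨rfl, rfl⟩
  · intro z
    by_cases hz : z ∈ Dom T
    · by_cases hN : z ∈ Nset hD hb φ0
      · right
        beta_reduce
        rw [stInf_of_mem hD hb φ0 hN]
        exact ⟨rfl, rfl⟩
      · left
        exact stInf_good hD hb φ0 hN hz
    · right
      beta_reduce
      rw [stInf_off hD hb φ0 hsupp0 hz]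
      exact ⟨rfl, rfl⟩
  · exact lintegral_stInf_lt hD hb φ0
  · intro h0
    have h1 := hf 0 (T / 2, 1 / 2)
    simp only [hφ00, hcenter, h0] at h1
    norm_num at h1

end Pool.Agent.Lib.MP_784f1f_an
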