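import Mathlib

set_option autoImplicit false
open MeasureTheory Filter Topology

namespace Pool.Agent.Lib.MP_784f1f_an

/-- The unit cell `[0,1)^N` of the torus `T^N = R^N / Z^N`. -/
def Cell (N : ℕ) : Set (Fin N → ℝ) := Set.univ.pi fun _ => Set.Ico 0 1

/-- `Q_T = (0,T) x T^N`, represented by `(0,T) x [0,1)^N`. -/
def QT (N : ℕ) (T : ℝ) : Set (ℝ × (Fin N → ℝ)) := Set.Ioo 0 T ×ˢ Cell N

/-- Functions on `R x T^N` are functions on `R x R^N` that are `Z^N`-periodic in `x`. -/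
def PeriodicX (N : ℕ) (f : ℝ × (Fin N → ℝ) → ℝ) : Prop :=
  ∀ (t : ℝ) (x : Fin N → ℝ) (m : Fin N → ℤ), f (t, fun i => x i + m i) = f (t, x)

/-- Test functions on `Q_T`: smooth, periodic in `x`, and supported in a compact time interval
contained in `(0,T)`. -/
structure IsTest (N : ℕ) (T : ℝ) (ζ : ℝ × (Fin N → ℝ) → ℝ) : Prop where
  smooth : ∀ n : ℕ, ContDiff ℝ n ζ
  periodic : PeriodicX N ζ
  supp : ∃ α β : ℝ, 0 < α ∧ β < T ∧ ∀ t x, t ∉ Set.Icc α β → ζ (t, x) = 0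

/-- `h` is the distributional derivative on `Q_T` of `u` in the direction `v` of `R x R^N`
(`v = (1, 0)` for `∂_t`, `v = (0, e_i)` for `∂_{x_i}`); both are integrable functions. -/
def IsWeakDeriv (N : ℕ) (T : ℝ) (v : ℝ × (Fin N → ℝ)) (u h : ℝ × (Fin N → ℝ) → ℝ) : Prop :=
  IntegrableOn u (QT N T) ∧ IntegrableOn h (QT N T) ∧
    ∀ ζ : ℝ × (Fin N → ℝ) → ℝ, IsTest N T ζ →
      ∫ z in QT N T, u z * fderiv ℝ ζ z v = -∫ z in QT N T, h z * ζ z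

/-- `Φ` belongs to the class `X_μ`; `Φt` is its distributional time derivative, `G i` its
derivative in `x_i`, and `H i j` its second derivative in `x_i, x_j`. -/
structure InX (N : ℕ) (T : ℝ) (μ Φ Φt : ℝ × (Fin N → ℝ) → ℝ)
    (G : Fin N → ℝ × (Fin N → ℝ) → ℝ) (H : Fin N → Fin N → ℝ × (Fin N → ℝ) → ℝ) : Prop where
  /-- `Φ` is a function on `R x T^N` -/
  periodic : PeriodicX N Φ
  /-- the distributional derivatives -/
  weak_t : IsWeakDeriv N T (1, 0) Φ Φt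
  weak_x : ∀ i, IsWeakDeriv N T (0, Pi.single i 1) Φ (G i)
  weak_xx : ∀ i j, IsWeakDeriv N T (0, Pi.single j 1) (G i) (H i j)
  /-- `Φ ∈ L^∞(0,T; H^1)` -/
  bddH1 : ∃ C : ℝ, ∀ᵐ t ∂(volume.restrict (Set.Ioo 0 T)),
    ∫⁻ x in Cell N, ENNReal.ofReal (Φ (t, x) ^ 2 + ∑ i, G i (t, x) ^ 2) ≤ ENNReal.ofReal C
  /-- `Φ ∈ L^2(0,T; H^2)` -/
  memL2 : MemLp Φ 2 (volume.restrict (QT N T))
  memL2_x : ∀ i, MemLp (G i) 2 (volume.restrict (QT N T))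
  memL2_xx : ∀ i j, MemLp (H i j) 2 (volume.restrict (QT N T))
  /-- `Φ ∈ C([0,T]; L^2)` -/
  slice : ∀ t ∈ Set.Icc 0 T, MemLp (fun x => Φ (t, x)) 2 (volume.restrict (Cell N))
  cont : ∀ t₀ ∈ Set.Icc 0 T, Tendsto
    (fun t => eLpNorm (fun x => Φ (t, x) - Φ (t₀, x)) 2 (volume.restrict (Cell N)))
    (𝓝[Set.Icc 0 T] t₀) (𝓝 0)
  /-- `μ^{-1/2} ∂_t Φ ∈ L^2(Q_T)` and `μ^{1/2} Δ Φ ∈ L^2(Q_T)` -/
  weight_t : MemLp (fun z => (Real.sqrt (μ z))⁻¹ * Φt z) 2 (volume.restrict (QT N T))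
  weight_xx : MemLp (fun z => Real.sqrt (μ z) * ∑ i, H i i z) 2 (volume.restrict (QT N T))

end Pool.Agent.Lib.MP_784f1f_an
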