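import Pool.Agent.Lib.MP_784f1f_an.Lift

set_option autoImplicit false
open MeasureTheory Filter Topology Set

namespace Pool.Agent.Lib.MP_784f1f_an

lemma m_facts {a b : ℝ} (h : good (a, b) ∨ (a = 0 ∧ b = 0)) :
    a = max 1 (a / b) * b ∧ |max 1 (a / b) - 1| ≤ 2 * |a| ∧
    max 1 (a / b) * b ^ 2 ≤ Wf (a, b) ∧ a ^ 2 / max 1 (a / b) ≤ Wf (a, b) := by
  rcases h with (⟨h1, h2⟩ | ⟨h1, h2⟩) | ⟨h1, h2⟩
  · simp only at h1 h2
    have hb : 0 < b := by linarith
    have ha : 0 < a := by linarith
    have hm : max 1 (a / b) = a / b := max_eq_right (by rw [le_div_iff₀ hb]; linarith)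
    rw [hm]
    have hW : a * b ≤ Wf (a, b) := by
      unfold Wf
      simp only
      rw [abs_of_pos ha, abs_of_pos hb]
      have : 0 ≤ 1 + 3 * a + b ^ 2 := by positivity
      linarith
    refine ⟨by field_simp, ?_, ?_, ?_⟩
    · rw [abs_of_pos ha, abs_of_nonneg]
      · rw [sub_le_iff_le_add, div_le_iff₀ hb]
        nlinarith
      · rw [sub_nonneg, le_div_iff₀ hb]; linarith
    · have e : a / b * b ^ 2 = a * b := by field_simp
      rw [e]; exact hW
    · have e : a ^ 2 / (a / b) = a * b := by field_simp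
      rw [e]; exact hW
  · simp only at h1 h2
    have hb : b < 0 := by linarith
    have ha : a < 0 := by linarith
    have hb0 : b ≠ 0 := ne_of_lt hb
    have ha0 : a ≠ 0 := ne_of_lt ha
    have h1le : 1 ≤ a / b := by
      rw [le_div_iff_of_neg hb]; linarith
    have hm : max 1 (a / b) = a / b := max_eq_right h1le
    rw [hm]
    have hW : a * b ≤ Wf (a, b) := by
      unfold Wf
      simp only
      rw [abs_of_neg ha, abs_of_neg hb]
      have : 0 ≤ 1 + 3 * -a + b ^ 2 := by
        have := sq_nonneg b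
        linarith
      linarith
    refine ⟨by field_simp, ?_, ?_, ?_⟩
    · rw [abs_of_neg ha, abs_of_nonneg (by linarith)]
      rw [sub_le_iff_le_add, div_le_iff_of_neg hb]
      nlinarith
    · have e : a / b * b ^ 2 = a * b := by field_simp
      rw [e]; exact hW
    · have e : a ^ 2 / (a / b) = a * b := by field_simp
      rw [e]; exact hW
  · subst h1 h2
    have := Wf_nonneg ((0:ℝ), (0:ℝ))
    simp only [div_zero, mul_zero]
    norm_num
    exact this

lemma integrable_of_le_W {T : ℝ} {a b u : ℝ × ℝ → ℝ}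
    (hW : ∫⁻ z in Dom T, ENNReal.ofReal (Wf (a z, b z)) < ⊤) (hu : Measurable u)
    (hu0 : ∀ z, z ∉ Dom T → u z = 0) (hle : ∀ z, |u z| ≤ Wf (a z, b z)) : Integrable u volume := by
  refine ⟨hu.aestronglyMeasurable, ?_⟩
  unfold HasFiniteIntegral
  refine lt_of_le_of_lt ?_ hW
  rw [← lintegral_indicator (isOpen_Dom T).measurableSet]
  apply lintegral_mono
  intro z
  simp only
  by_cases hz : z ∈ Dom T
  · rw [Set.indicator_of_mem hz, Real.enorm_eq_ofReal_abs]
    exact ENNReal.ofReal_le_ofReal (hle z)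
  · rw [Set.indicator_of_notMem hz, hu0 z hz]
    simp

lemma isFiniteMeasure_Box (T : ℝ) : IsFiniteMeasure ((volume : Measure (ℝ × ℝ)).restrict (Box T)) := by
  constructor
  rw [Measure.restrict_apply_univ]
  exact ((Metric.isBounded_Ioo _ _).prod (Metric.isBounded_Ico _ _)).measure_lt_top

lemma volume_Cell (N : ℕ) : volume (Cell N) = 1 := by
  unfold Cell
  rw [volume_pi_pi]
  simp

lemma memLp_lft {n : ℕ} {T : ℝ} {u : ℝ × ℝ → ℝ} (hu : MemLp u 2 (volume.restrict (Box T))) :
    MemLp (lft (n := n) T u) 2 (volume.restrict (QT (n + 1) T)) := by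
  have h1 := hu.comp_measurePreserving (mp_proj (n := n) T)
  apply h1.ae_eq
  apply (ae_restrict_iff' (measurableSet_QT _ _)).mpr
  filter_upwards with z hz
  exact (lft_eq u hz).symm

lemma Dom_subset_Box {T : ℝ} (hT : 0 < T) : Dom T ⊆ Box T := by
  intro z hz
  obtain ⟨⟨h1, h2⟩, h3, h4⟩ := mem_oR.mp hz
  exact ⟨⟨by linarith, by linarith⟩, ⟨by linarith, by linarith⟩⟩

lemma lint_unif {T : ℝ} {u : ℝ × ℝ → ℝ} {uk : ℕ → ℝ × ℝ → ℝ}
    (h : ∀ k z, |u z - uk k z| ≤ (1 / 2) ^ k) :
    Tendsto (fun k => ∫⁻ z in Box T, ENNReal.ofReal |uk k z - u z|) atTop (𝓝 0) := by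
  have hfin := isFiniteMeasure_Box T
  have h1 : Tendsto (fun k : ℕ => ENNReal.ofReal ((1 / 2 : ℝ) ^ k) * volume (Box T)) atTop
      (𝓝 0) := by
    have h2 : Tendsto (fun k : ℕ => (1 / 2 : ℝ) ^ k) atTop (𝓝 0) :=
      tendsto_pow_atTop_nhds_zero_of_lt_one (by norm_num) (by norm_num)
    have h3 := ENNReal.tendsto_ofReal h2
    rw [ENNReal.ofReal_zero] at h3
    have h4 := ENNReal.Tendsto.mul_const h3 (b := volume (Box T)) (Or.inr (by
      have := hfin.measure_univ_lt_top
      rw [Measure.restrict_apply_univ] at this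
      exact this.ne))
    rwa [zero_mul] at h4
  refine tendsto_of_tendsto_of_tendsto_of_le_of_le tendsto_const_nhds h1
    (fun _ => zero_le) (fun k => ?_)
  rw [← setLIntegral_const]
  apply lintegral_mono
  intro z
  apply ENNReal.ofReal_le_ofReal
  rw [abs_sub_comm]
  exact h k z

lemma lint_sub {T : ℝ} {u : ℝ × ℝ → ℝ} {uk : ℕ → ℝ × ℝ → ℝ}
    (h : Tendsto (fun k => ∫⁻ z, ENNReal.ofReal |uk k z - u z|) atTop (𝓝 0)) :
    Tendsto (fun k => ∫⁻ z in Box T, ENNReal.ofReal |uk k z - u z|) atTop (𝓝 0) :=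
  tendsto_of_tendsto_of_tendsto_of_le_of_le tendsto_const_nhds h
    (fun _ => zero_le) (fun _ => setLIntegral_le_lintegral _ _)

lemma IsWeakDeriv.const_mul {N : ℕ} {T : ℝ} {v : ℝ × (Fin N → ℝ)} {u h : ℝ × (Fin N → ℝ) → ℝ}
    (hw : IsWeakDeriv N T v u h) (c : ℝ) :
    IsWeakDeriv N T v (fun z => c * u z) (fun z => c * h z) := by
  obtain ⟨h1, h2, h3⟩ := hw
  refine ⟨h1.const_mul c, h2.const_mul c, fun ζ hζ => ?_⟩
  simp only [mul_assoc]
  rw [integral_const_mul, integral_const_mul, h3 ζ hζ]
  ring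

lemma sum_single (n : ℕ) (X : ℝ) : ∑ i : Fin (n + 1),
    (Pi.single i 1 : Fin (n + 1) → ℝ) 0 * ((Pi.single i 1 : Fin (n + 1) → ℝ) 0 * X) = X := by
  rw [Finset.sum_eq_single 0]
  · rw [Pi.single_eq_same]; ring
  · intro i _ hi
    rw [Pi.single_eq_of_ne (Ne.symm hi)]; ring
  · intro h; exact absurd (Finset.mem_univ _) h

theorem main (n : ℕ) (T : ℝ) (hT : 0 < T) :
    ∃ (μ Φ Φt : ℝ × (Fin (n + 1) → ℝ) → ℝ) (G : Fin (n + 1) → ℝ × (Fin (n + 1) → ℝ) → ℝ)
      (H : Fin (n + 1) → Fin (n + 1) → ℝ × (Fin (n + 1) → ℝ) → ℝ),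
      PeriodicX (n + 1) μ ∧ Measurable μ ∧ IntegrableOn μ (QT (n + 1) T) ∧ (∀ z, 1 ≤ μ z) ∧
      InX (n + 1) T μ Φ Φt G H ∧
      (∀ᵐ z ∂(volume.restrict (QT (n + 1) T)), Φt z + μ z * ∑ i, H i i z = 0) ∧
      (∀ x, Φ (T, x) = 0) ∧
      ¬ (∀ᵐ z ∂(volume.restrict (QT (n + 1) T)), Φ z = 0) := by
  obtain ⟨φ, f, g, a, b, hsupp, hfc, hgc, ham, hbm, hf, hg, hta, htb, hoff, hgood, hW, hne⟩ :=
    core T hT
  have hfinBox := isFiniteMeasure_Box T
  -- zero off the domain
  have hf0 : ∀ z, z ∉ Dom T → f z = 0 := by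
    intro z hz
    have h1 : ∀ k : ℕ, |f z| ≤ (1 / 2) ^ k := by
      intro k
      have := hf k z
      rwa [(hsupp k z hz).1, sub_zero] at this
    have h2 : Tendsto (fun k : ℕ => (1 / 2 : ℝ) ^ k) atTop (𝓝 0) :=
      tendsto_pow_atTop_nhds_zero_of_lt_one (by norm_num) (by norm_num)
    have h3 : |f z| ≤ 0 := ge_of_tendsto' h2 h1
    exact abs_eq_zero.mp (le_antisymm h3 (abs_nonneg _))
  have hg0 : ∀ z, z ∉ Dom T → g z = 0 := by
    intro z hz
    have h1 : ∀ k : ℕ, |g z| ≤ (1 / 2) ^ k := by
      intro k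
      have := hg k z
      rwa [(hsupp k z hz).2.2.1, sub_zero] at this
    have h2 : Tendsto (fun k : ℕ => (1 / 2 : ℝ) ^ k) atTop (𝓝 0) :=
      tendsto_pow_atTop_nhds_zero_of_lt_one (by norm_num) (by norm_num)
    have h3 : |g z| ≤ 0 := ge_of_tendsto' h2 h1
    exact abs_eq_zero.mp (le_antisymm h3 (abs_nonneg _))
  have hcsf : HasCompactSupport f := HasCompactSupport.intro
    (isBounded_Dom T).isCompact_closure (fun z hz => hf0 z (fun h => hz (subset_closure h)))
  have hcsg : HasCompactSupport g := HasCompactSupport.intro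
    (isBounded_Dom T).isCompact_closure (fun z hz => hg0 z (fun h => hz (subset_closure h)))
  obtain ⟨M1, hM1⟩ := hfc.bounded_above_of_compact_support hcsf
  obtain ⟨M2, hM2⟩ := hgc.bounded_above_of_compact_support hcsg
  have huc : UniformContinuous f := hcsf.uniformContinuous_of_continuous hfc
  -- integrability
  have hWab : ∀ z, |a z| ≤ Wf (a z, b z) ∧ |b z| ≤ Wf (a z, b z) := fun z =>
    ⟨(abs_le_Z1 (a z, b z)).trans (Zf_le_Wf _), (abs_le_Z2 (a z, b z)).trans (Zf_le_Wf _)⟩
  have hai : Integrable a volume := integrable_of_le_W hW ham (fun z hz => (hoff z hz).1)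
    (fun z => (hWab z).1)
  have hbi : Integrable b volume := integrable_of_le_W hW hbm (fun z hz => (hoff z hz).2)
    (fun z => (hWab z).2)
  have hfi : Integrable f volume := hfc.integrable_of_hasCompactSupport hcsf
  have hgi : Integrable g volume := hgc.integrable_of_hasCompactSupport hcsg
  -- the coefficient
  obtain ⟨m, hm⟩ : ∃ m : ℝ × ℝ → ℝ, m = fun z => max 1 (a z / b z) := ⟨_, rfl⟩
  have hmm : Measurable m := by rw [hm]; exact measurable_const.max (ham.div hbm)
  have hm1 : ∀ z, 1 ≤ m z := by intro z; rw [hm]; exact le_max_left _ _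
  have hmeq : ∀ z, a z = m z * b z := by
    intro z; rw [hm]; exact (m_facts (hgood z)).1
  have hmi : IntegrableOn m (Box T) := by
    have h1 : Integrable (fun z => m z - 1) volume := by
      apply integrable_of_le_W (u := fun z => m z - 1) hW (hmm.sub_const 1)
      · intro z hz
        simp only [hm, (hoff z hz).1, (hoff z hz).2]
        norm_num
      · intro z
        have h2 := (m_facts (hgood z)).2.1
        have h3 : 2 * |a z| ≤ Wf (a z, b z) := by
          unfold Wf
          have := abs_nonneg (a z)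
          have := sq_nonneg (b z)
          have := mul_nonneg (abs_nonneg (a z)) (abs_nonneg (b z))
          simp only
          linarith
        rw [hm]
        exact h2.trans h3
    have h4 : IntegrableOn (fun z => (m z - 1) + 1) (Box T) :=
      h1.integrableOn.add (integrable_const (1:ℝ))
    refine h4.congr_fun (fun z _ => ?_) (measurableSet_Box T)
    ring
  -- square integrability
  have hsq : ∀ u : ℝ × ℝ → ℝ, Measurable u → (∀ z, z ∉ Dom T → u z = 0) →
      (∀ z, u z ^ 2 ≤ Wf (a z, b z)) → MemLp u 2 (volume.restrict (Box T)) := by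
    intro u hu hu0 hule
    rw [memLp_two_iff_integrable_sq hu.aestronglyMeasurable]
    apply Integrable.integrableOn
    apply integrable_of_le_W hW (hu.pow_const 2)
    · intro z hz; rw [hu0 z hz]; norm_num
    · intro z
      rw [abs_of_nonneg (sq_nonneg _)]
      exact hule z
  have hb2 : MemLp b 2 (volume.restrict (Box T)) := by
    apply hsq b hbm (fun z hz => (hoff z hz).2)
    intro z
    unfold Wf
    have := abs_nonneg (a z)
    have := mul_nonneg (abs_nonneg (a z)) (abs_nonneg (b z))
    simp only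
    linarith
  have hf2 : MemLp f 2 (volume.restrict (Box T)) :=
    MemLp.of_bound hfc.aestronglyMeasurable M1 (Eventually.of_forall hM1)
  have hg2 : MemLp g 2 (volume.restrict (Box T)) :=
    MemLp.of_bound hgc.aestronglyMeasurable M2 (Eventually.of_forall hM2)
  have hw1 : MemLp (fun z => (Real.sqrt (m z))⁻¹ * ((-1) * a z)) 2 (volume.restrict (Box T)) := by
    apply hsq
    · exact ((Real.continuous_sqrt.measurable.comp hmm).inv).mul (ham.const_mul (-1))
    · intro z hz; rw [(hoff z hz).1, mul_zero, mul_zero]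
    · intro z
      have h1 := (m_facts (hgood z)).2.2.2
      have h2 : ((Real.sqrt (m z))⁻¹ * ((-1) * a z)) ^ 2 = a z ^ 2 / m z := by
        rw [mul_pow, inv_pow, Real.sq_sqrt (by linarith [hm1 z])]
        field_simp
      rw [h2, hm]
      exact h1
  have hw2 : MemLp (fun z => Real.sqrt (m z) * b z) 2 (volume.restrict (Box T)) := by
    apply hsq
    · exact (Real.continuous_sqrt.measurable.comp hmm).mul hbm
    · intro z hz; rw [(hoff z hz).2, mul_zero]
    · intro z
      have h1 := (m_facts (hgood z)).2.2.1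
      have h2 : (Real.sqrt (m z) * b z) ^ 2 = m z * b z ^ 2 := by
        rw [mul_pow, Real.sq_sqrt (by linarith [hm1 z])]
      rw [h2, hm]
      exact h1
  -- values at the ends of the interval
  have hends : ∀ k (s : ℝ), (φ k).f s 0 = 0 ∧ (φ k).f s 1 = 0 ∧ (φ k).fx s 0 = 0 ∧
      (φ k).fx s 1 = 0 := by
    intro k s
    have h0 : ((s, 0) : ℝ × ℝ) ∉ Dom T := by
      intro h
      have := (mem_oR.mp h).2.1
      simp only at this
      linarith
    have h1 : ((s, 1) : ℝ × ℝ) ∉ Dom T := by
      intro h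
      have := (mem_oR.mp h).2.2
      simp only at this
      linarith
    exact ⟨(hsupp k _ h0).1, (hsupp k _ h1).1, (hsupp k _ h0).2.2.1, (hsupp k _ h1).2.2.1⟩
  -- weak derivatives
  have wt : IsWeakDeriv (n + 1) T (1, 0) (lft T f) (fun z => (-1) * lft T a z) :=
    weak_limit (uk := fun k z => (φ k).f z.1 z.2) (hk := fun k z => (φ k).ft z.1 z.2)
      (fun k => (φ k).cf) (fun k => (φ k).cft) hfc.measurable ham hfi.integrableOn
      hai.integrableOn (lint_unif hf) (lint_sub hta) (1, 0) (-1)
      (fun k ζ hζ => ident_t hT (φ k) hζ)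
  have wx : ∀ j, IsWeakDeriv (n + 1) T (0, Pi.single j 1) (lft T f)
      (fun z => (Pi.single j 1 : Fin (n + 1) → ℝ) 0 * lft T g z) := fun j =>
    weak_limit (uk := fun k z => (φ k).f z.1 z.2) (hk := fun k z => (φ k).fx z.1 z.2)
      (fun k => (φ k).cf) (fun k => (φ k).cfx) hfc.measurable hgc.measurable hfi.integrableOn
      hgi.integrableOn (lint_unif hf) (lint_unif hg) _ _
      (fun k ζ hζ => ident_x j (φ k).cf (φ k).cfx (φ k).dx (fun s => (hends k s).1)
        (fun s => (hends k s).2.1) hζ)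
  have wxx : ∀ j, IsWeakDeriv (n + 1) T (0, Pi.single j 1) (lft T g)
      (fun z => (Pi.single j 1 : Fin (n + 1) → ℝ) 0 * lft T b z) := fun j =>
    weak_limit (uk := fun k z => (φ k).fx z.1 z.2) (hk := fun k z => (φ k).fxx z.1 z.2)
      (fun k => (φ k).cfx) (fun k => (φ k).cfxx) hgc.measurable hbm hgi.integrableOn
      hbi.integrableOn (lint_unif hg) (lint_sub htb) _ _
      (fun k ζ hζ => ident_x j (φ k).cfx (φ k).cfxx (φ k).dxx (fun s => (hends k s).2.2.1)
        (fun s => (hends k s).2.2.2) hζ)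
  refine ⟨lft T m, lft T f, fun z => (-1) * lft T a z,
    fun i z => (Pi.single i 1 : Fin (n + 1) → ℝ) 0 * lft T g z,
    fun i j z => (Pi.single i 1 : Fin (n + 1) → ℝ) 0 *
      ((Pi.single j 1 : Fin (n + 1) → ℝ) 0 * lft T b z),
    lft_periodic T m, measurable_lft T hmm, ?_, fun z => hm1 _, ?_, ?_, ?_, ?_⟩
  · -- integrability of `μ`
    have h1 : IntegrableOn (fun z => m (proj T z)) (QT (n + 1) T) :=
      ((mp_proj (n := n) T).integrable_comp hmm.aestronglyMeasurable).mpr hmi
    exact h1.congr_fun (fun z hz => (lft_eq m hz).symm) (measurableSet_QT _ _)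
  · -- the class
    have hcellfin : IsFiniteMeasure ((volume : Measure (Fin (n + 1) → ℝ)).restrict
        (Cell (n + 1))) := by
      constructor
      rw [Measure.restrict_apply_univ, volume_Cell]
      exact ENNReal.one_lt_top
    have hslice_meas : ∀ t, Measurable (fun x : Fin (n + 1) → ℝ => lft T f (t, x)) := fun t =>
      (measurable_lft T hfc.measurable).comp (measurable_const.prodMk measurable_id)
    refine ⟨lft_periodic T f, wt, wx, fun i j => (wxx j).const_mul _, ?_, memLp_lft hf2,
      fun i => (memLp_lft hg2).const_mul _, fun i j => ((memLp_lft hb2).const_mul _).const_mul _,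
      ?_, ?_, memLp_lft hw1, ?_⟩
    · -- bound in `H^1`
      refine ⟨M1 ^ 2 + M2 ^ 2, Eventually.of_forall fun t => ?_⟩
      calc ∫⁻ x in Cell (n + 1), ENNReal.ofReal (lft T f (t, x) ^ 2 +
            ∑ i : Fin (n + 1), ((Pi.single i 1 : Fin (n + 1) → ℝ) 0 * lft T g (t, x)) ^ 2)
          ≤ ∫⁻ x in Cell (n + 1), ENNReal.ofReal (M1 ^ 2 + M2 ^ 2) := by
            apply lintegral_mono
            intro x
            apply ENNReal.ofReal_le_ofReal
            have h1 : ∑ i : Fin (n + 1), ((Pi.single i 1 : Fin (n + 1) → ℝ) 0 *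
                lft T g (t, x)) ^ 2 = lft T g (t, x) ^ 2 := by
              have h2 := sum_single n (lft T g (t, x) ^ 2)
              rw [← h2]
              apply Finset.sum_congr rfl
              intro i _
              ring
            rw [h1]
            have h3 : |lft T f (t, x)| ≤ M1 := hM1 _
            have h4 : |lft T g (t, x)| ≤ M2 := hM2 _
            have h5 : lft T f (t, x) ^ 2 ≤ M1 ^ 2 := by
              rw [← sq_abs]
              exact pow_le_pow_left₀ (abs_nonneg _) h3 2
            have h6 : lft T g (t, x) ^ 2 ≤ M2 ^ 2 := by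
              rw [← sq_abs]
              exact pow_le_pow_left₀ (abs_nonneg _) h4 2
            linarith
        _ = ENNReal.ofReal (M1 ^ 2 + M2 ^ 2) := by
            rw [setLIntegral_const, volume_Cell, mul_one]
    · intro t _
      exact MemLp.of_bound (hslice_meas t).aestronglyMeasurable M1
        (Eventually.of_forall fun x => hM1 _)
    · intro t₀ _
      rw [ENNReal.tendsto_nhds_zero]
      intro ε hε
      obtain ⟨r, hr0, hr⟩ := ENNReal.lt_iff_exists_nnreal_btwn.mp hε
      have hr0' : (0:ℝ) < r := by exact_mod_cast hr0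
      obtain ⟨δ, hδ, hδ'⟩ := Metric.uniformContinuous_iff.mp huc r hr0'
      have hnear : ∀ᶠ t in 𝓝[Set.Icc 0 T] t₀, dist t t₀ < δ :=
        nhdsWithin_le_nhds (Metric.ball_mem_nhds t₀ hδ)
      filter_upwards [hnear] with t ht
      refine le_trans (eLpNorm_le_of_ae_bound (C := r) (Eventually.of_forall fun x => ?_)) ?_
      · rw [← dist_eq_norm]
        apply le_of_lt
        apply hδ'
        rw [Prod.dist_eq, dist_self, max_lt_iff]
        refine ⟨?_, hδ⟩
        rw [Real.dist_eq] at ht ⊢
        have e : T - t - (T - t₀) = -(t - t₀) := by ring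
        simp only
        rw [e, abs_neg]
        exact ht
      · rw [Measure.restrict_apply_univ, volume_Cell, ENNReal.one_rpow, one_mul]
        rw [ENNReal.ofReal_coe_nnreal]
        exact hr.le
    · have e : (fun z : ℝ × (Fin (n + 1) → ℝ) => Real.sqrt (lft T m z) * ∑ i : Fin (n + 1),
          (Pi.single i 1 : Fin (n + 1) → ℝ) 0 *
            ((Pi.single i 1 : Fin (n + 1) → ℝ) 0 * lft T b z)) =
          lft T (fun z => Real.sqrt (m z) * b z) := by
        funext z
        rw [sum_single]
        rfl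
      rw [e]
      exact memLp_lft hw2
  · -- the equation
    refine Eventually.of_forall fun z => ?_
    rw [sum_single]
    have h1 : lft T a z = lft T m z * lft T b z := hmeq _
    beta_reduce
    rw [h1]; ring
  · -- terminal value
    intro x
    unfold lft
    apply hf0
    intro h
    have := (mem_oR.mp h).1.1
    simp only [sub_self] at this
    linarith
  · -- not identically zero
    intro hz
    have h1 : ∀ᵐ z ∂(volume.restrict (QT (n + 1) T)), f (proj T z) = 0 := by
      have h2 := (ae_restrict_iff' (measurableSet_QT (n + 1) T)).mp hz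
      apply (ae_restrict_iff' (measurableSet_QT (n + 1) T)).mpr
      filter_upwards [h2] with z h3 hzQ
      rw [← lft_eq f hzQ]
      exact h3 hzQ
    have h4 : ∀ᵐ w ∂(volume.restrict (Box T)), f w = 0 := by
      rw [← (mp_proj (n := n) T).map_eq]
      rw [ae_map_iff (measurable_proj T).aemeasurable (measurableSet_eq_fun hfc.measurable
        measurable_const)]
      exact h1
    have h5 : f =ᵐ[volume.restrict (Dom T)] (fun _ => 0) :=
      ae_restrict_of_ae_restrict_of_subset (Dom_subset_Box hT) h4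
    have h6 := Measure.eqOn_open_of_ae_eq h5 (isOpen_Dom T) hfc.continuousOn continuousOn_const
    apply hne
    apply h6
    apply mem_oR.mpr
    constructor <;> constructor <;> simp only <;> linarith

end Pool.Agent.Lib.MP_784f1f_an
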