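import Pool.Agent.Lib.MP_784f1f_an.LIsplit

set_option autoImplicit false
open MeasureTheory Filter Topology Set

namespace Pool.Agent.Lib.MP_784f1f_an

lemma LI_H2 {G : ℝ × ℝ → ENNReal} (hGb : LocBdd G) {a b η δ α₁ α₂ g₁ g₂ : ℝ}
    (hδ : 0 < δ) (hδ' : δ < 1) (h : (1 - δ) * α₁ + δ * α₂ = 0) (hg₁ : 0 ≤ g₁) (hg₂ : 0 ≤ g₂)
    (h₁ : LI G g₁ (a + α₁) b η) (h₂ : LI G g₂ (a + α₂) b η) :
    LI G ((1 - δ) * g₁ + δ * g₂) a b η := by
  have lay : Layout (Fin 2) Finset.univ ![1 - δ, δ] ![0, 1 - δ] := by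
    constructor
    · intro i _; fin_cases i <;> simp [hδ, hδ']
    · intro i _; fin_cases i <;> simp [hδ'.le]
    · intro i _; fin_cases i <;> simp [hδ.le]
    · intro i _ j _ hij
      fin_cases i <;> fin_cases j <;> simp at hij ⊢
    · simp [Fin.sum_univ_two]
  have key := LI_H lay (d := ![α₁, α₂]) (g := ![g₁, g₂]) (G := G) (a := a) (b := b) (η := η)
    (by simp [Fin.sum_univ_two, h]) hGb
    (by intro i _; fin_cases i <;> simp [hg₁, hg₂])
    (by intro i _; fin_cases i <;> simp [h₁, h₂])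
  simpa [Fin.sum_univ_two] using key

lemma LI_V2 {G : ℝ × ℝ → ENNReal} (hGb : LocBdd G) {a b η δ β₁ β₂ g₁ g₂ : ℝ}
    (hδ : 0 < δ) (hδ' : δ < 1) (h : (1 - δ) * β₁ + δ * β₂ = 0) (hg₁ : 0 ≤ g₁) (hg₂ : 0 ≤ g₂)
    (h₁ : LI G g₁ a (b + β₁) η) (h₂ : LI G g₂ a (b + β₂) η) :
    LI G ((1 - δ) * g₁ + δ * g₂) a b η := by
  have lay : Layout (Fin 3) Finset.univ ![(1 - δ) / 2, δ, (1 - δ) / 2]
      ![0, (1 - δ) / 2, (1 - δ) / 2 + δ] := by
    constructor
    · intro i _; fin_cases i <;> simp <;> linarith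
    · intro i _; fin_cases i <;> simp <;> linarith
    · intro i _; fin_cases i <;> simp <;> linarith
    · intro i _ j _ hij
      fin_cases i <;> fin_cases j <;> simp at hij ⊢ <;> first | (left; linarith) | (right; linarith)
    · simp [Fin.sum_univ_three]; ring
  have key := LI_V lay (d := ![β₁, β₂, β₁]) (g := ![g₁, g₂, g₁]) (G := G) (a := a) (b := b) (η := η)
    (by simp [Fin.sum_univ_three]; linarith)
    (by simp [Fin.sum_univ_three]; linear_combination (1 / 2) * h) hGb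
    (by intro i _; fin_cases i <;> simp [hg₁, hg₂])
    (by intro i _; fin_cases i <;> simp [h₁, h₂])
  refine key.mono (le_of_eq ?_)
  simp [Fin.sum_univ_three]; ring

/-- The set of states at which the equation holds with a coefficient `≥ 1` (with a margin). -/
def good (p : ℝ × ℝ) : Prop := (1 / 2 ≤ p.2 ∧ p.2 ≤ p.1) ∨ (p.2 ≤ -(1 / 2) ∧ p.1 ≤ p.2)

/-- cost on the good set -/
noncomputable def Wf (p : ℝ × ℝ) : ℝ := 1 + 3 * |p.1| + p.2 ^ 2 + |p.1| * |p.2|
/-- cost off the good set -/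
noncomputable def Zf (p : ℝ × ℝ) : ℝ := 1 + |p.1| + p.2 ^ 2

open Classical in
/-- the functional -/
noncomputable def Ff (p : ℝ × ℝ) : ENNReal :=
  if good p then ENNReal.ofReal (Wf p) else ENNReal.ofReal (1000 * Zf p)

lemma good_neg (p : ℝ × ℝ) : good (-p.1, -p.2) ↔ good p := by
  unfold good
  constructor
  · rintro (⟨h1, h2⟩ | ⟨h1, h2⟩)
    · right; simp only at h1 h2; constructor <;> linarith
    · left; simp only at h1 h2; constructor <;> linarith
  · rintro (⟨h1, h2⟩ | ⟨h1, h2⟩)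
    · right; simp only; constructor <;> linarith
    · left; simp only; constructor <;> linarith

lemma Ff_neg (p : ℝ × ℝ) : Ff (-p.1, -p.2) = Ff p := by
  unfold Ff
  rw [good_neg]
  simp only [Wf, Zf, abs_neg, even_two, Even.neg_pow]

lemma Wf_nonneg (p : ℝ × ℝ) : 0 ≤ Wf p := by unfold Wf; positivity
lemma Zf_nonneg (p : ℝ × ℝ) : 0 ≤ Zf p := by unfold Zf; positivity

lemma Ff_locBdd : LocBdd Ff := by
  intro M
  refine ⟨1000 * (1 + |M| + |M| ^ 2) + (1 + 3 * |M| + |M| ^ 2 + |M| * |M|), by positivity, ?_⟩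
  intro p h1 h2
  have h1' : |p.1| ≤ |M| := h1.trans (le_abs_self M)
  have h2' : |p.2| ≤ |M| := h2.trans (le_abs_self M)
  have h3 : p.2 ^ 2 ≤ |M| ^ 2 := by
    rw [← sq_abs p.2]
    exact pow_le_pow_left₀ (abs_nonneg _) h2' 2
  have h4 : |p.1| * |p.2| ≤ |M| * |M| := mul_le_mul h1' h2' (abs_nonneg _) (abs_nonneg _)
  have h5 : 0 ≤ 1000 * (1 + |M| + |M| ^ 2) := by positivity
  have h6 : 0 ≤ 1 + 3 * |M| + |M| ^ 2 + |M| * |M| := by positivity
  unfold Ff
  split_ifs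
  · apply ENNReal.ofReal_le_ofReal
    unfold Wf
    linarith
  · apply ENNReal.ofReal_le_ofReal
    unfold Zf
    linarith

lemma Ff_le_Z (p : ℝ × ℝ) {A B C : ℝ} (h1 : |p.1| ≤ A) (h2 : |p.2| ≤ B)
    (hC : 1000 * (1 + A + B ^ 2) + (1 + 3 * A + B ^ 2 + A * B) ≤ C) : Ff p ≤ ENNReal.ofReal C := by
  have hA : 0 ≤ A := (abs_nonneg _).trans h1
  have hB : 0 ≤ B := (abs_nonneg _).trans h2
  have h3 : p.2 ^ 2 ≤ B ^ 2 := by
    rw [← sq_abs p.2]
    exact pow_le_pow_left₀ (abs_nonneg _) h2 2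
  have h4 : |p.1| * |p.2| ≤ A * B := mul_le_mul h1 h2 (abs_nonneg _) hA
  have h5 : 0 ≤ 1000 * (1 + A + B ^ 2) := by positivity
  have h6 : 0 ≤ 1 + 3 * A + B ^ 2 + A * B := by positivity
  unfold Ff
  split_ifs
  · apply ENNReal.ofReal_le_ofReal
    unfold Wf
    linarith
  · apply ENNReal.ofReal_le_ofReal
    unfold Zf
    linarith

/-- leaf in the good set -/
lemma LI_good {a b g : ℝ} (hb : 1 ≤ |b|) (hab : good (a, b) ∧ 1 / 2 ≤ |a - b|)
    (hg : 1 + 3 * (|a| + 1 / 4) + (|b| + 1 / 4) ^ 2 + (|a| + 1 / 4) * (|b| + 1 / 4) ≤ g) :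
    LI Ff g a b (1 / 4) := by
  have hg0 : 0 ≤ g := le_trans (by positivity) hg
  apply LI_nothing hg0
  intro p h1 h2
  have e1 : |p.1| ≤ |a| + 1 / 4 := by
    calc |p.1| = |(p.1 - a) + a| := by ring_nf
      _ ≤ |p.1 - a| + |a| := abs_add_le _ _
      _ ≤ |a| + 1 / 4 := by linarith
  have e2 : |p.2| ≤ |b| + 1 / 4 := by
    calc |p.2| = |(p.2 - b) + b| := by ring_nf
      _ ≤ |p.2 - b| + |b| := abs_add_le _ _
      _ ≤ |b| + 1 / 4 := by linarith
  have hgood : good p := by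
    rw [abs_le] at h1 h2
    obtain ⟨hab1, hab2⟩ := hab
    rcases hab1 with ⟨c1, c2⟩ | ⟨c1, c2⟩
    · simp only at c1 c2
      rw [abs_of_nonneg (by linarith)] at hb
      rw [abs_of_nonneg (by linarith)] at hab2
      left
      constructor <;> linarith [h1.1, h1.2, h2.1, h2.2]
    · simp only at c1 c2
      rw [abs_of_nonpos (by linarith)] at hb
      rw [abs_of_nonpos (by linarith)] at hab2
      right
      constructor <;> linarith [h1.1, h1.2, h2.1, h2.2]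
  unfold Ff
  rw [if_pos hgood]
  apply ENNReal.ofReal_le_ofReal
  refine le_trans ?_ hg
  unfold Wf
  have h3 : p.2 ^ 2 ≤ (|b| + 1 / 4) ^ 2 := by
    rw [← sq_abs p.2]
    exact pow_le_pow_left₀ (abs_nonneg _) e2 2
  have h4 : |p.1| * |p.2| ≤ (|a| + 1 / 4) * (|b| + 1 / 4) :=
    mul_le_mul e1 e2 (abs_nonneg _) (by positivity)
  linarith

/-- bad leaf -/
lemma LI_bad {a b g : ℝ} (ha : a ≤ -1) (hb : 1 ≤ b)
    (hg : 1000 * (1 + (|a| + 1 / 4) + (|b| + 1 / 4) ^ 2) ≤ g) :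
    LI Ff g a b (1 / 4) := by
  have hg0 : 0 ≤ g := le_trans (by positivity) hg
  apply LI_nothing hg0
  intro p h1 h2
  have e1 : |p.1| ≤ |a| + 1 / 4 := by
    calc |p.1| = |(p.1 - a) + a| := by ring_nf
      _ ≤ |p.1 - a| + |a| := abs_add_le _ _
      _ ≤ |a| + 1 / 4 := by linarith
  have e2 : |p.2| ≤ |b| + 1 / 4 := by
    calc |p.2| = |(p.2 - b) + b| := by ring_nf
      _ ≤ |p.2 - b| + |b| := abs_add_le _ _
      _ ≤ |b| + 1 / 4 := by linarith
  have hbad : ¬ good p := by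
    rw [abs_le] at h1 h2
    rintro (⟨c1, c2⟩ | ⟨c1, c2⟩)
    · linarith [h1.2, h2.1]
    · linarith [h1.2, h2.1]
  unfold Ff
  rw [if_neg hbad]
  apply ENNReal.ofReal_le_ofReal
  refine le_trans ?_ hg
  unfold Zf
  have h3 : p.2 ^ 2 ≤ (|b| + 1 / 4) ^ 2 := by
    rw [← sq_abs p.2]
    exact pow_le_pow_left₀ (abs_nonneg _) e2 2
  linarith

/-- The basic double splitting. -/
lemma LI_HV {a b : ℝ} (hb : 1 ≤ b) (hab : a < b + 1 / 2) :
    LI Ff (34 * (1 + |a| + b ^ 2)) a b (1 / 4) := by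
  obtain ⟨δ, hδdef⟩ : ∃ δ : ℝ, δ = 1 / 6000000 := ⟨_, rfl⟩
  have hδ : 0 < δ := by rw [hδdef]; norm_num
  have hδ1 : δ < 1 := by rw [hδdef]; norm_num
  obtain ⟨a₂, ha₂⟩ : ∃ a₂ : ℝ, a₂ = (a - (1 - δ) * (2 * b)) / δ := ⟨_, rfl⟩
  have hδa₂ : δ * a₂ = a - (1 - δ) * (2 * b) := by rw [ha₂]; field_simp
  have hb0 : |b| = b := abs_of_nonneg (by linarith)
  have ha₂neg : a₂ ≤ -(3 / 2) := by
    rw [ha₂, div_le_iff₀ hδ, hδdef]
    nlinarith
  have habs : |a₂| = -a₂ := abs_of_nonpos (by linarith)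
  have hδabs : δ * |a₂| ≤ |a| + 2 * b := by
    rw [habs]
    have : -a ≤ |a| := neg_le_abs a
    nlinarith
  -- the second piece
  have hpiece2 : LI Ff ((1 - 1 / 1000) * (8 * |a₂|) +
      1 / 1000 * (1000 * (1 + (|a₂| + 1 / 4) + (|1000 * b + 999| + 1 / 4) ^ 2))) a₂ b (1 / 4) := by
    apply LI_V2 Ff_locBdd (β₁ := -1 - b) (β₂ := 999 * (1 + b)) (by norm_num) (by norm_num)
      (by ring) (by positivity) (by positivity)
    · have e : b + (-1 - b) = -1 := by ring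
      rw [e]
      apply LI_good
      · norm_num
      · refine ⟨Or.inr ⟨by norm_num, by simp only; linarith⟩, ?_⟩
        rw [abs_of_nonpos (by linarith)]
        linarith
      · rw [abs_neg, abs_one]
        have : (3 / 2 : ℝ) ≤ |a₂| := by rw [habs]; linarith
        nlinarith
    · have e : b + 999 * (1 + b) = 1000 * b + 999 := by ring
      rw [e]
      exact LI_bad (by linarith) (by linarith) le_rfl
  have key := LI_H2 Ff_locBdd (a := a) (b := b) (η := 1 / 4) (δ := δ) (α₁ := 2 * b - a)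
    (α₂ := a₂ - a) (g₁ := 13 * b ^ 2) (g₂ := (1 - 1 / 1000) * (8 * |a₂|) +
      1 / 1000 * (1000 * (1 + (|a₂| + 1 / 4) + (|1000 * b + 999| + 1 / 4) ^ 2))) hδ hδ1 (by linear_combination hδa₂) (by positivity)
    (by positivity)
    (by
      have e : a + (2 * b - a) = 2 * b := by ring
      rw [e]
      apply LI_good
      · rw [hb0]; exact hb
      · refine ⟨Or.inl ⟨by simp only; linarith, by simp only; linarith⟩, ?_⟩
        rw [abs_of_nonneg (by linarith)]; linarith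
      · rw [hb0, abs_of_nonneg (by linarith : (0:ℝ) ≤ 2 * b)]
        nlinarith)
    (by
      have e : a + (a₂ - a) = a₂ := by ring
      rw [e]
      exact hpiece2)
  apply key.mono
  have h1 : |1000 * b + 999| = 1000 * b + 999 := abs_of_nonneg (by linarith)
  rw [h1]
  have h2 : (1000 * b + 999 + 1 / 4) ^ 2 ≤ 4000000 * b ^ 2 := by nlinarith
  have h3 : δ * (1000 * b + 999 + 1 / 4) ^ 2 ≤ (2 / 3) * b ^ 2 := by
    rw [hδdef]; linarith
  have h4 : 0 ≤ |a₂| := abs_nonneg _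
  have h5 : 0 ≤ |a| := abs_nonneg _
  have h6 : b ≤ b ^ 2 := by nlinarith
  have h7 : (0:ℝ) ≤ b ^ 2 := by positivity
  have h8 : δ * b ^ 2 ≥ 0 := by positivity
  have h9 : δ * ((1 - 1 / 1000) * (8 * |a₂|) +
      1 / 1000 * (1000 * (1 + (|a₂| + 1 / 4) + (1000 * b + 999 + 1 / 4) ^ 2))) =
      (1 - 1 / 1000) * 8 * (δ * |a₂|) + δ * (5 / 4) + δ * |a₂| +
      δ * (1000 * b + 999 + 1 / 4) ^ 2 := by ring
  rw [h9]
  have h10 : (0:ℝ) ≤ δ * |a₂| := by positivity
  have h11 : δ * (5 / 4) ≤ 1 := by rw [hδdef]; norm_num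
  linarith

/-- Every bad state can be improved. -/
theorem LI_all {a b : ℝ} (h : ¬ good (a, b)) : LI Ff (340 * Zf (a, b)) a b (1 / 4) := by
  have ha0 : 0 ≤ |a| := abs_nonneg _
  have hb20 : 0 ≤ b ^ 2 := by positivity
  have hZ : Zf (a, b) = 1 + |a| + b ^ 2 := rfl
  rw [hZ]
  -- an auxiliary statement covering the case `|b| < 1`
  have aux : ∀ a b : ℝ, 1 ≤ b → b ≤ 3 → LI Ff (340 * (1 + |a|)) a b (1 / 4) := by
    intro a b h1 h2
    have ha0 : 0 ≤ |a| := abs_nonneg _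
    rcases lt_or_ge a (b + 1 / 2) with h3 | h3
    · apply (LI_HV h1 h3).mono
      nlinarith
    · apply LI_good
      · rw [abs_of_nonneg (by linarith)]; exact h1
      · refine ⟨Or.inl ⟨by simp only; linarith, by simp only; linarith⟩, ?_⟩
        rw [abs_of_nonneg (by linarith)]; linarith
      · rw [abs_of_nonneg (by linarith : (0:ℝ) ≤ b)]
        nlinarith [mul_nonneg ha0 (by linarith : (0:ℝ) ≤ 3 - b)]
  rcases le_or_gt 1 b with hb | hb
  · have h1 : a < b := by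
      by_contra hcon
      exact h (Or.inl ⟨by simp only; linarith, not_lt.mp hcon⟩)
    apply (LI_HV hb (by linarith : a < b + 1 / 2)).mono
    linarith
  rcases le_or_gt b (-1) with hb' | hb'
  · have h1 : b < a := by
      by_contra hcon
      exact h (Or.inr ⟨by simp only; linarith, not_lt.mp hcon⟩)
    have h2 := (LI_HV (a := -a) (b := -b) (by linarith) (by linarith)).neg Ff_neg
    rw [neg_neg, neg_neg] at h2
    apply h2.mono
    rw [abs_neg, neg_sq]
    linarith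
  · have h1 := aux a (b + 2) (by linarith) (by linarith)
    have h2 := (aux (-a) (-(b - 2)) (by linarith) (by linarith)).neg Ff_neg
    rw [neg_neg, neg_neg, abs_neg] at h2
    have key := LI_V2 Ff_locBdd (a := a) (b := b) (η := 1 / 4) (δ := 1 / 2) (β₁ := 2) (β₂ := -2)
      (g₁ := 340 * (1 + |a|)) (g₂ := 340 * (1 + |a|)) (by norm_num) (by norm_num) (by norm_num) (by positivity) (by positivity) h1
      (by
        have e : b + -2 = b - 2 := by ring
        rw [e]; exact h2)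
    apply key.mono
    linarith

end Pool.Agent.Lib.MP_784f1f_an
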