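import Pool.Agent.Lib.MP_784f1f_an.Stage

set_option autoImplicit false
open MeasureTheory Filter Topology Set

namespace Pool.Agent.Lib.MP_784f1f_an

lemma isClosed_good : IsClosed {p : ℝ × ℝ | good p} := by
  have e : {p : ℝ × ℝ | good p} =
      ({p : ℝ × ℝ | 1 / 2 ≤ p.2} ∩ {p : ℝ × ℝ | p.2 ≤ p.1}) ∪
      ({p : ℝ × ℝ | p.2 ≤ -(1 / 2)} ∩ {p : ℝ × ℝ | p.1 ≤ p.2}) := by
    ext p; rfl
  rw [e]
  apply IsClosed.union
  · exact (isClosed_le continuous_const continuous_snd).inter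
      (isClosed_le continuous_snd continuous_fst)
  · exact (isClosed_le continuous_snd continuous_const).inter
      (isClosed_le continuous_fst continuous_snd)

/-- the part of `D` where the state is bad -/
def Ubad (D : Set (ℝ × ℝ)) (φ : Reg) : Set (ℝ × ℝ) := D ∩ {z | ¬ good (φ.st z)}

lemma isOpen_Ubad {D : Set (ℝ × ℝ)} (hD : IsOpen D) (φ : Reg) : IsOpen (Ubad D φ) :=
  hD.inter ((isClosed_good.preimage φ.continuous_st).isOpen_compl)

/-- the tolerances -/
noncomputable def eps (k : ℕ) : ℝ := (1 / 8) * (1 / 2) ^ k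

lemma eps_pos (k : ℕ) : 0 < eps k := by unfold eps; positivity

lemma step {D : Set (ℝ × ℝ)} (hD : IsOpen D) (hb : Bornology.IsBounded D) (φ : Reg) (k : ℕ) :
    ∃ ψ : Reg, ψ.SuppIn (Ubad D φ) ∧ ψ.Small (eps k) ∧
      ∫⁻ z in Ubad D φ, Ff ((φ.add ψ).st z) ≤
        ENNReal.ofReal 340 * (∫⁻ z in Ubad D φ, ENNReal.ofReal (Zf (φ.st z))) +
          ENNReal.ofReal (eps k) :=
  stage (isOpen_Ubad hD φ) (hb.subset Set.inter_subset_left) φ (fun _ hz => hz.2) (eps_pos k)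

section seq

variable {D : Set (ℝ × ℝ)} (hD : IsOpen D) (hb : Bornology.IsBounded D) (φ0 : Reg)

/-- the iteration -/
noncomputable def sq : ℕ → Reg
  | 0 => φ0
  | k + 1 => (sq k).add (Classical.choose (step hD hb (sq k) k))

lemma sq_succ (k : ℕ) : ∃ ψ : Reg, sq hD hb φ0 (k + 1) = (sq hD hb φ0 k).add ψ ∧
    ψ.SuppIn (Ubad D (sq hD hb φ0 k)) ∧ ψ.Small (eps k) ∧
    ∫⁻ z in Ubad D (sq hD hb φ0 k), Ff ((sq hD hb φ0 (k + 1)).st z) ≤
        ENNReal.ofReal 340 * (∫⁻ z in Ubad D (sq hD hb φ0 k),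
          ENNReal.ofReal (Zf ((sq hD hb φ0 k).st z))) + ENNReal.ofReal (eps k) := by
  have h := Classical.choose_spec (step hD hb (sq hD hb φ0 k) k)
  exact ⟨_, rfl, h.1, h.2.1, h.2.2⟩

lemma sq_st_succ {k : ℕ} {z : ℝ × ℝ} (hz : z ∉ Ubad D (sq hD hb φ0 k)) :
    (sq hD hb φ0 (k + 1)).st z = (sq hD hb φ0 k).st z := by
  obtain ⟨ψ, h1, h2, _, _⟩ := sq_succ hD hb φ0 k
  obtain ⟨c1, c2, c3, c4⟩ := h2 z hz
  rw [h1]
  simp only [Reg.st, Reg.add]
  rw [c2, c4, add_zero, add_zero]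

lemma Ubad_anti (k : ℕ) : Ubad D (sq hD hb φ0 (k + 1)) ⊆ Ubad D (sq hD hb φ0 k) := by
  intro z hz
  by_contra hcon
  have h1 := sq_st_succ hD hb φ0 hcon
  apply hcon
  refine ⟨hz.1, ?_⟩
  have h2 := hz.2
  simp only [Set.mem_ofPred_eq] at h2 ⊢
  rwa [h1] at h2

lemma Ubad_antitone : Antitone (fun k => Ubad D (sq hD hb φ0 k)) :=
  antitone_nat_of_succ_le (Ubad_anti hD hb φ0)

lemma sq_st_const {K k : ℕ} (hK : K ≤ k) {z : ℝ × ℝ} (hz : z ∉ Ubad D (sq hD hb φ0 K)) :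
    (sq hD hb φ0 k).st z = (sq hD hb φ0 K).st z := by
  induction k, hK using Nat.le_induction with
  | base => rfl
  | succ k hk ih =>
    rw [sq_st_succ hD hb φ0 (fun h => hz (Ubad_antitone hD hb φ0 hk h)), ih]

/-- the energy -/
noncomputable def En (k : ℕ) : ENNReal :=
  ∫⁻ z in Ubad D (sq hD hb φ0 k), ENNReal.ofReal (Zf ((sq hD hb φ0 k).st z))

lemma En_zero_lt : En hD hb φ0 0 < ⊤ := by
  unfold En
  obtain ⟨M, hM⟩ : ∃ M : ℝ, ∀ z ∈ D, Zf ((sq hD hb φ0 0).st z) ≤ M := by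
    have hK : IsCompact (closure D) := hb.isCompact_closure
    have h1 : Continuous Zf := by unfold Zf; fun_prop
    obtain ⟨M, hM⟩ := hK.exists_bound_of_continuousOn
      ((h1.comp (sq hD hb φ0 0).continuous_st).continuousOn)
    refine ⟨M, fun z hz => ?_⟩
    exact (le_abs_self _).trans (hM z (subset_closure hz))
  calc ∫⁻ z in Ubad D (sq hD hb φ0 0), ENNReal.ofReal (Zf ((sq hD hb φ0 0).st z))
      ≤ ∫⁻ z in Ubad D (sq hD hb φ0 0), ENNReal.ofReal M := by
        apply setLIntegral_mono' (isOpen_Ubad hD _).measurableSet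
        intro z hz
        exact ENNReal.ofReal_le_ofReal (hM z hz.1)
    _ = ENNReal.ofReal M * volume (Ubad D (sq hD hb φ0 0)) := setLIntegral_const _ _
    _ < ⊤ := ENNReal.mul_lt_top ENNReal.ofReal_lt_top
        ((hb.subset Set.inter_subset_left).measure_lt_top)

lemma stage_bound (k : ℕ) :
    ∫⁻ z in Ubad D (sq hD hb φ0 k), Ff ((sq hD hb φ0 (k + 1)).st z) ≤
      ENNReal.ofReal 340 * En hD hb φ0 k + ENNReal.ofReal (eps k) := by
  obtain ⟨ψ, _, _, _, h4⟩ := sq_succ hD hb φ0 k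
  exact h4

lemma En_succ (k : ℕ) : ENNReal.ofReal 1000 * En hD hb φ0 (k + 1) ≤
    ENNReal.ofReal 340 * En hD hb φ0 k + ENNReal.ofReal (eps k) := by
  refine le_trans ?_ (stage_bound hD hb φ0 k)
  refine le_trans ?_ (lintegral_mono_set (Ubad_anti hD hb φ0 k))
  unfold En
  rw [← lintegral_const_mul' _ _ ENNReal.ofReal_ne_top]
  apply le_of_eq
  apply setLIntegral_congr_fun (isOpen_Ubad hD _).measurableSet
  intro z hz
  have h1 : ¬ good ((sq hD hb φ0 (k + 1)).st z) := hz.2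
  unfold Ff
  simp only [if_neg h1]
  rw [ENNReal.ofReal_mul (by norm_num)]

lemma En_le : ∃ A : ℝ, 1 ≤ A ∧ ∀ k, En hD hb φ0 k ≤ ENNReal.ofReal (A * (1 / 2) ^ k) := by
  refine ⟨max 1 (En hD hb φ0 0).toReal, le_max_left _ _, ?_⟩
  obtain ⟨A, hA⟩ : ∃ A, A = max 1 (En hD hb φ0 0).toReal := ⟨_, rfl⟩
  rw [← hA]
  have hA1 : 1 ≤ A := by rw [hA]; exact le_max_left _ _
  intro k
  induction k with
  | zero =>
    rw [pow_zero, mul_one, ← ENNReal.ofReal_toReal (En_zero_lt hD hb φ0).ne]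
    apply ENNReal.ofReal_le_ofReal
    rw [hA]; exact le_max_right _ _
  | succ k ih =>
    have h1 := En_succ hD hb φ0 k
    have hpow : (0:ℝ) < (1 / 2) ^ k := by positivity
    have h2 : ENNReal.ofReal 1000 * En hD hb φ0 (k + 1) ≤
        ENNReal.ofReal 1000 * ENNReal.ofReal (A * (1 / 2) ^ (k + 1)) := by
      calc ENNReal.ofReal 1000 * En hD hb φ0 (k + 1)
          ≤ ENNReal.ofReal 340 * En hD hb φ0 k + ENNReal.ofReal (eps k) := h1
        _ ≤ ENNReal.ofReal 340 * ENNReal.ofReal (A * (1 / 2) ^ k) + ENNReal.ofReal (eps k) := by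
            gcongr
        _ = ENNReal.ofReal (340 * (A * (1 / 2) ^ k) + eps k) := by
            rw [← ENNReal.ofReal_mul (by norm_num), ← ENNReal.ofReal_add (by positivity)
              (eps_pos k).le]
        _ ≤ ENNReal.ofReal (1000 * (A * (1 / 2) ^ (k + 1))) := by
            apply ENNReal.ofReal_le_ofReal
            unfold eps
            rw [pow_succ]
            nlinarith
        _ = _ := by rw [ENNReal.ofReal_mul (by norm_num)]
    rwa [ENNReal.mul_le_mul_iff_right (by simp) ENNReal.ofReal_ne_top] at h2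

lemma stage_le : ∃ A : ℝ, 1 ≤ A ∧ (∀ k, En hD hb φ0 k ≤ ENNReal.ofReal (A * (1 / 2) ^ k)) ∧
    ∀ k, ∫⁻ z in Ubad D (sq hD hb φ0 k), Ff ((sq hD hb φ0 (k + 1)).st z) ≤
      ENNReal.ofReal (341 * A * (1 / 2) ^ k) := by
  obtain ⟨A, hA1, hA⟩ := En_le hD hb φ0
  refine ⟨A, hA1, hA, fun k => ?_⟩
  have hpow : (0:ℝ) < (1 / 2) ^ k := by positivity
  calc ∫⁻ z in Ubad D (sq hD hb φ0 k), Ff ((sq hD hb φ0 (k + 1)).st z)
      ≤ ENNReal.ofReal 340 * En hD hb φ0 k + ENNReal.ofReal (eps k) := stage_bound hD hb φ0 k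
    _ ≤ ENNReal.ofReal 340 * ENNReal.ofReal (A * (1 / 2) ^ k) + ENNReal.ofReal (eps k) := by
        have := hA k
        gcongr
    _ = ENNReal.ofReal (340 * (A * (1 / 2) ^ k) + eps k) := by
        rw [← ENNReal.ofReal_mul (by norm_num), ← ENNReal.ofReal_add (by positivity)
          (eps_pos k).le]
    _ ≤ _ := by
        apply ENNReal.ofReal_le_ofReal
        unfold eps
        nlinarith

lemma volume_Ubad_le (k : ℕ) : volume (Ubad D (sq hD hb φ0 k)) ≤ En hD hb φ0 k := by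
  unfold En
  calc volume (Ubad D (sq hD hb φ0 k)) = ∫⁻ z in Ubad D (sq hD hb φ0 k), 1 := by
        rw [setLIntegral_one]
    _ ≤ _ := by
        apply lintegral_mono
        intro z
        simp only
        rw [← ENNReal.ofReal_one]
        apply ENNReal.ofReal_le_ofReal
        unfold Zf
        have := abs_nonneg ((sq hD hb φ0 k).st z).1
        have := sq_nonneg ((sq hD hb φ0 k).st z).2
        linarith

lemma tendsto_En : Tendsto (En hD hb φ0) atTop (𝓝 0) := by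
  obtain ⟨A, hA1, hA⟩ := En_le hD hb φ0
  have h1 : Tendsto (fun k : ℕ => ENNReal.ofReal (A * (1 / 2) ^ k)) atTop (𝓝 0) := by
    have h2 : Tendsto (fun k : ℕ => A * (1 / 2 : ℝ) ^ k) atTop (𝓝 (A * 0)) :=
      (tendsto_pow_atTop_nhds_zero_of_lt_one (by norm_num) (by norm_num)).const_mul A
    rw [mul_zero] at h2
    have h3 := ENNReal.tendsto_ofReal h2
    rwa [ENNReal.ofReal_zero] at h3
  exact tendsto_of_tendsto_of_tendsto_of_le_of_le tendsto_const_nhds h1 (fun _ => zero_le) hA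

lemma tendsto_vol : Tendsto (fun k => volume (Ubad D (sq hD hb φ0 k))) atTop (𝓝 0) :=
  tendsto_of_tendsto_of_tendsto_of_le_of_le tendsto_const_nhds (tendsto_En hD hb φ0)
    (fun _ => zero_le) (volume_Ubad_le hD hb φ0)

/-- the exceptional null set -/
def Nset : Set (ℝ × ℝ) := ⋂ k, Ubad D (sq hD hb φ0 k)

lemma volume_Nset : volume (Nset hD hb φ0) = 0 := by
  apply le_antisymm _ zero_le
  apply ge_of_tendsto' (tendsto_vol hD hb φ0)
  intro k
  exact measure_mono (Set.iInter_subset _ k)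

lemma measurableSet_Nset : MeasurableSet (Nset hD hb φ0) :=
  MeasurableSet.iInter fun _ => (isOpen_Ubad hD _).measurableSet

open Classical in
/-- the limit state -/
noncomputable def stInf (z : ℝ × ℝ) : ℝ × ℝ :=
  if h : ∃ k, z ∉ Ubad D (sq hD hb φ0 k) then (sq hD hb φ0 (Nat.find h)).st z else 0

lemma stInf_eq {k : ℕ} {z : ℝ × ℝ} (hz : z ∉ Ubad D (sq hD hb φ0 k)) :
    stInf hD hb φ0 z = (sq hD hb φ0 k).st z := by
  classical
  have h : ∃ k, z ∉ Ubad D (sq hD hb φ0 k) := ⟨k, hz⟩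
  unfold stInf
  rw [dif_pos h]
  exact (sq_st_const hD hb φ0 (Nat.find_le hz) (Nat.find_spec h)).symm

lemma stInf_of_mem {z : ℝ × ℝ} (hz : z ∈ Nset hD hb φ0) : stInf hD hb φ0 z = 0 := by
  unfold stInf
  rw [dif_neg]
  rintro ⟨k, hk⟩
  exact hk (Set.mem_iInter.mp hz k)

lemma exists_of_not_mem {z : ℝ × ℝ} (hz : z ∉ Nset hD hb φ0) :
    ∃ k, z ∉ Ubad D (sq hD hb φ0 k) := by
  by_contra hcon
  apply hz
  apply Set.mem_iInter.mpr
  intro k
  by_contra h
  exact hcon ⟨k, h⟩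

lemma measurable_stInf : Measurable (stInf hD hb φ0) := by
  classical
  have h1 : ∀ k, Measurable (Set.indicator (Nset hD hb φ0)ᶜ (fun z => (sq hD hb φ0 k).st z)) :=
    fun k => (sq hD hb φ0 k).continuous_st.measurable.indicator
      (measurableSet_Nset hD hb φ0).compl
  apply measurable_of_tendsto_metrizable h1
  rw [tendsto_pi_nhds]
  intro z
  by_cases hz : z ∈ Nset hD hb φ0
  · rw [stInf_of_mem hD hb φ0 hz]
    have : ∀ k, Set.indicator (Nset hD hb φ0)ᶜ (fun z => (sq hD hb φ0 k).st z) z = 0 := by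
      intro k
      rw [Set.indicator_of_notMem]
      exact fun h => h hz
    simp only [this]
    exact tendsto_const_nhds
  · obtain ⟨K, hK⟩ := exists_of_not_mem hD hb φ0 hz
    rw [stInf_eq hD hb φ0 hK]
    apply tendsto_const_nhds.congr'
    filter_upwards [eventually_ge_atTop K] with k hk
    rw [Set.indicator_of_mem (show z ∈ (Nset hD hb φ0)ᶜ from hz), sq_st_const hD hb φ0 hk hK]

lemma stInf_good {z : ℝ × ℝ} (hz : z ∉ Nset hD hb φ0) (hzD : z ∈ D) :
    good (stInf hD hb φ0 z) := by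
  obtain ⟨K, hK⟩ := exists_of_not_mem hD hb φ0 hz
  rw [stInf_eq hD hb φ0 hK]
  by_contra hcon
  exact hK ⟨hzD, hcon⟩

lemma stInf_off {z : ℝ × ℝ} (hφ0 : φ0.SuppIn D) (hzD : z ∉ D) : stInf hD hb φ0 z = 0 := by
  have h1 : z ∉ Ubad D (sq hD hb φ0 0) := fun h => hzD h.1
  rw [stInf_eq hD hb φ0 h1]
  have h2 := hφ0 z hzD
  change (φ0.ft z.1 z.2, φ0.fxx z.1 z.2) = (0, 0)
  rw [h2.2.1, h2.2.2.2]

/-- **finite total cost** -/
lemma lintegral_stInf_lt :
    ∫⁻ z in D, ENNReal.ofReal (Wf (stInf hD hb φ0 z)) < ⊤ := by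
  obtain ⟨A, hA1, hA2, hA3⟩ := stage_le hD hb φ0
  have hcover : D ⊆ (D \ Ubad D (sq hD hb φ0 0)) ∪ ((⋃ k, (Ubad D (sq hD hb φ0 k) \
      Ubad D (sq hD hb φ0 (k + 1)))) ∪ Nset hD hb φ0) := by
    intro z hz
    by_cases h1 : z ∈ Nset hD hb φ0
    · exact Or.inr (Or.inr h1)
    · by_cases h2 : z ∈ Ubad D (sq hD hb φ0 0)
      · right; left
        classical
        have h3 := exists_of_not_mem hD hb φ0 h1
        have h4 : Nat.find h3 ≠ 0 := by
          intro h0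
          have := Nat.find_spec h3
          rw [h0] at this
          exact this h2
        obtain ⟨m, hm⟩ := Nat.exists_eq_succ_of_ne_zero h4
        apply Set.mem_iUnion.mpr
        refine ⟨m, ?_, ?_⟩
        · by_contra hcon
          have := Nat.find_min' h3 hcon
          omega
        · have := Nat.find_spec h3
          rwa [hm] at this
      · exact Or.inl ⟨hz, h2⟩
  have hb0 : ∫⁻ z in (D \ Ubad D (sq hD hb φ0 0)), ENNReal.ofReal (Wf (stInf hD hb φ0 z)) < ⊤ := by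
    obtain ⟨M, hM⟩ : ∃ M : ℝ, ∀ z ∈ D, Wf ((sq hD hb φ0 0).st z) ≤ M := by
      have hK : IsCompact (closure D) := hb.isCompact_closure
      have h1 : Continuous Wf := by unfold Wf; fun_prop
      obtain ⟨M, hM⟩ := hK.exists_bound_of_continuousOn
        ((h1.comp (sq hD hb φ0 0).continuous_st).continuousOn)
      refine ⟨M, fun z hz => ?_⟩
      exact (le_abs_self _).trans (hM z (subset_closure hz))
    calc ∫⁻ z in (D \ Ubad D (sq hD hb φ0 0)), ENNReal.ofReal (Wf (stInf hD hb φ0 z))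
        ≤ ∫⁻ z in (D \ Ubad D (sq hD hb φ0 0)), ENNReal.ofReal M := by
          apply setLIntegral_mono' (hD.measurableSet.diff (isOpen_Ubad hD _).measurableSet)
          intro z hz
          rw [stInf_eq hD hb φ0 hz.2]
          exact ENNReal.ofReal_le_ofReal (hM z hz.1)
      _ = ENNReal.ofReal M * volume (D \ Ubad D (sq hD hb φ0 0)) := setLIntegral_const _ _
      _ < ⊤ := ENNReal.mul_lt_top ENNReal.ofReal_lt_top
          ((hb.subset Set.sdiff_subset).measure_lt_top)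
  have hb1 : ∀ k, ∫⁻ z in (Ubad D (sq hD hb φ0 k) \ Ubad D (sq hD hb φ0 (k + 1))),
      ENNReal.ofReal (Wf (stInf hD hb φ0 z)) ≤ ENNReal.ofReal (341 * A * (1 / 2) ^ k) := by
    intro k
    refine le_trans ?_ (hA3 k)
    refine le_trans (le_of_eq ?_) (lintegral_mono_set
      (Set.sdiff_subset : Ubad D (sq hD hb φ0 k) \ Ubad D (sq hD hb φ0 (k + 1)) ⊆ _))
    apply setLIntegral_congr_fun ((isOpen_Ubad hD _).measurableSet.diff
      (isOpen_Ubad hD _).measurableSet)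
    intro z hz
    have h1 : good ((sq hD hb φ0 (k + 1)).st z) := by
      by_contra hcon
      exact hz.2 ⟨hz.1.1, hcon⟩
    simp only
    rw [stInf_eq hD hb φ0 hz.2]
    unfold Ff
    rw [if_pos h1]
  have hb2 : ∫⁻ z in (⋃ k, (Ubad D (sq hD hb φ0 k) \ Ubad D (sq hD hb φ0 (k + 1)))),
      ENNReal.ofReal (Wf (stInf hD hb φ0 z)) < ⊤ := by
    refine lt_of_le_of_lt (lintegral_iUnion_le _ _) ?_
    refine lt_of_le_of_lt (ENNReal.tsum_le_tsum hb1) ?_
    rw [← ENNReal.ofReal_tsum_of_nonneg]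
    · exact ENNReal.ofReal_lt_top
    · intro k; positivity
    · exact (summable_geometric_of_lt_one (by norm_num) (by norm_num)).mul_left _
  have hb3 : ∫⁻ z in Nset hD hb φ0, ENNReal.ofReal (Wf (stInf hD hb φ0 z)) = 0 :=
    setLIntegral_measure_zero _ _ (volume_Nset hD hb φ0)
  calc ∫⁻ z in D, ENNReal.ofReal (Wf (stInf hD hb φ0 z))
      ≤ _ := lintegral_mono_set hcover
    _ ≤ _ := lintegral_union_le _ _ _
    _ ≤ _ := add_le_add le_rfl (lintegral_union_le _ _ _)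
    _ < ⊤ := by
        rw [hb3, add_zero]
        exact ENNReal.add_lt_top.mpr ⟨hb0, hb2⟩

end seq

end Pool.Agent.Lib.MP_784f1f_an
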