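import Pool.Agent.Lib.MP_784f1f_an.VSplit

set_option autoImplicit false
open MeasureTheory Filter Topology Set

namespace Pool.Agent.Lib.MP_784f1f_an

/-- locally bounded functional -/
def LocBdd (G : ℝ × ℝ → ENNReal) : Prop :=
  ∀ M : ℝ, ∃ C : ℝ, 0 ≤ C ∧ ∀ p : ℝ × ℝ, |p.1| ≤ M → |p.2| ≤ M → G p ≤ ENNReal.ofReal C

lemma exists_strip {x0 k : ℝ} :
    ∀ n : ℕ, 0 < n → ∀ x, x0 ≤ x → x ≤ x0 + n * k →
      ∃ j ∈ Finset.range n, x0 + j * k ≤ x ∧ x ≤ x0 + (j + 1) * k := by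
  intro n
  induction n with
  | zero => intro h; exact absurd h (lt_irrefl _)
  | succ n ih =>
    intro _ x h1 h2
    rcases le_total (x0 + n * k) x with h | h
    · refine ⟨n, Finset.mem_range.mpr (Nat.lt_succ_self n), h, ?_⟩
      push_cast at h2
      exact h2
    · rcases Nat.eq_zero_or_pos n with hn | hn
      · refine ⟨0, Finset.mem_range.mpr (Nat.succ_pos n), ?_, ?_⟩
        · push_cast; linarith
        · subst hn
          push_cast at h2 ⊢
          linarith [h2]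
      · obtain ⟨j, hj, hj2⟩ := ih hn x h1 h
        refine ⟨j, Finset.mem_range.mpr ?_, hj2⟩
        exact (Finset.mem_range.mp hj).trans (Nat.lt_succ_self n)

lemma Layout.piece_sub {ι : Type} {S : Finset ι} {w pos : ι → ℝ} (lay : Layout ι S w pos)
    {κ X k x : ℝ} (hκ : 0 < κ) (hk : 0 < k) {i : ι} (hi : i ∈ S)
    (h1 : X + pos i * k + κ * (w i * k) ≤ x) (h2 : x ≤ X + pos i * k + w i * k - κ * (w i * k)) :
    X < x ∧ x < X + k := by
  have hwk : 0 < w i * k := mul_pos (lay.wpos i hi) hk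
  have h3 : 0 < κ * (w i * k) := mul_pos hκ hwk
  have h4 : 0 ≤ pos i * k := mul_nonneg (lay.lo i hi) hk.le
  have h5 : (pos i + w i) * k ≤ 1 * k := mul_le_mul_of_nonneg_right (lay.hi i hi) hk.le
  rw [add_mul, one_mul] at h5
  constructor <;> linarith

lemma Layout.piece_disj {ι : Type} {S : Finset ι} {w pos : ι → ℝ} (lay : Layout ι S w pos)
    {κ X k x : ℝ} (hκ : 0 < κ) (hk : 0 < k) {i j : ι} (hi : i ∈ S) (hj : j ∈ S) (hij : i ≠ j)
    (h1 : X + pos i * k + κ * (w i * k) ≤ x) (h2 : x ≤ X + pos i * k + w i * k - κ * (w i * k))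
    (h3 : X + pos j * k + κ * (w j * k) ≤ x) (h4 : x ≤ X + pos j * k + w j * k - κ * (w j * k)) :
    False := by
  have h5 : 0 < κ * (w i * k) := mul_pos hκ (mul_pos (lay.wpos i hi) hk)
  have h6 : 0 < κ * (w j * k) := mul_pos hκ (mul_pos (lay.wpos j hj) hk)
  rcases lay.disj i hi j hj hij with h | h
  · have h7 := mul_le_mul_of_nonneg_right h hk.le
    rw [add_mul] at h7
    linarith
  · have h7 := mul_le_mul_of_nonneg_right h hk.le
    rw [add_mul] at h7
    linarith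

lemma strip_in {n i : ℕ} {x0 k L x : ℝ} (hi : i ∈ Finset.range n) (hk : 0 < k)
    (hnk : n * k = L) (h1 : x0 + i * k ≤ x) (h2 : x ≤ x0 + i * k + k) :
    x0 ≤ x ∧ x ≤ x0 + L := by
  have hi' : (i : ℝ) + 1 ≤ n := by exact_mod_cast Finset.mem_range.mp hi
  have hi0 : (0 : ℝ) ≤ i * k := mul_nonneg (Nat.cast_nonneg i) hk.le
  have h3 := mul_le_mul_of_nonneg_right hi' hk.le
  rw [add_mul, one_mul] at h3
  constructor <;> linarith

lemma strip_in' {n i : ℕ} {x0 k L x : ℝ} (hi : i ∈ Finset.range n) (hk : 0 < k)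
    (hnk : n * k = L) (h1 : x0 + i * k < x) (h2 : x < x0 + i * k + k) :
    x0 < x ∧ x < x0 + L := by
  have hi' : (i : ℝ) + 1 ≤ n := by exact_mod_cast Finset.mem_range.mp hi
  have hi0 : (0 : ℝ) ≤ i * k := mul_nonneg (Nat.cast_nonneg i) hk.le
  have h3 := mul_le_mul_of_nonneg_right hi' hk.le
  rw [add_mul, one_mul] at h3
  constructor <;> linarith

lemma strip_disj {i j : ℕ} {x0 k x : ℝ} (hij : i ≠ j) (hk : 0 < k)
    (h1 : x0 + i * k ≤ x) (h2 : x ≤ x0 + i * k + k) (h3 : x0 + j * k < x)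
    (h4 : x < x0 + j * k + k) : False := by
  rcases lt_or_gt_of_ne hij with h | h
  · have h' : (i : ℝ) + 1 ≤ j := by exact_mod_cast h
    have h5 := mul_le_mul_of_nonneg_right h' hk.le
    rw [add_mul, one_mul] at h5
    linarith
  · have h' : (j : ℝ) + 1 ≤ i := by exact_mod_cast h
    have h5 := mul_le_mul_of_nonneg_right h' hk.le
    rw [add_mul, one_mul] at h5
    linarith

lemma shrink_in {s0 s1 κ x : ℝ} (hs : s0 < s1) (hκ : 0 < κ)
    (h1 : s0 + κ * (s1 - s0) ≤ x) (h2 : x ≤ s1 - κ * (s1 - s0)) : s0 < x ∧ x < s1 := by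
  have : 0 < κ * (s1 - s0) := mul_pos hκ (by linarith)
  constructor <;> linarith

/-- sums of costs over the pieces -/
lemma cost_sum {ι : Type} {S : Finset ι} {w pos g : ι → ℝ} (lay : Layout ι S w pos)
    {ε C κ A : ℝ} (hε : 0 < ε) (hC : 0 ≤ C) (hκ : 0 < κ) (hκ' : κ ≤ 1 / 8)
    (hκC : 4 * κ * C ≤ ε / 4) (hA : 0 ≤ A) (hg : ∀ i ∈ S, 0 ≤ g i) (area : ι → ℝ)
    (harea : ∀ i ∈ S, area i = (1 - 2 * κ) ^ 2 * (w i * A)) :
    (∑ i ∈ S, ENNReal.ofReal ((g i + ε / 2) * area i)) +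
      ENNReal.ofReal C * ENNReal.ofReal (4 * κ * A) ≤
      ENNReal.ofReal (((∑ i ∈ S, w i * g i) + ε) * A) := by
  have h0 : ∀ i ∈ S, 0 ≤ (g i + ε / 2) * area i := by
    intro i hi
    rw [harea i hi]
    have := lay.wpos i hi
    have := hg i hi
    positivity
  rw [← ENNReal.ofReal_sum_of_nonneg h0, ← ENNReal.ofReal_mul hC, ← ENNReal.ofReal_add
    (Finset.sum_nonneg h0) (by positivity)]
  apply ENNReal.ofReal_le_ofReal
  have h1 : ∑ i ∈ S, (g i + ε / 2) * area i ≤ ∑ i ∈ S, (w i * g i + w i * (ε / 2)) * A := by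
    apply Finset.sum_le_sum
    intro i hi
    rw [harea i hi]
    have hw := lay.wpos i hi
    have hgi := hg i hi
    have h2 : (1 - 2 * κ) ^ 2 ≤ 1 := by nlinarith
    calc (g i + ε / 2) * ((1 - 2 * κ) ^ 2 * (w i * A))
        = (1 - 2 * κ) ^ 2 * ((g i + ε / 2) * (w i * A)) := by ring
      _ ≤ 1 * ((g i + ε / 2) * (w i * A)) := by
          apply mul_le_mul_of_nonneg_right h2
          positivity
      _ = _ := by ring
  have h3 : ∑ i ∈ S, (w i * g i + w i * (ε / 2)) * A =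
      ((∑ i ∈ S, w i * g i) + ε / 2) * A := by
    rw [← Finset.sum_mul, Finset.sum_add_distrib, ← Finset.sum_mul, lay.sum, one_mul]
  have h4 : C * (4 * κ * A) ≤ ε / 4 * A := by
    have : C * (4 * κ * A) = 4 * κ * C * A := by ring
    rw [this]
    exact mul_le_mul_of_nonneg_right hκC hA
  nlinarith [mul_nonneg hε.le hA]

/-- **Splitting in the second variable.** -/
theorem LI_V {ι : Type} {S : Finset ι} {w pos : ι → ℝ} (lay : Layout ι S w pos) {d g : ι → ℝ}
    (h1 : ∑ i ∈ S, w i * d i = 0) (h2 : ∑ i ∈ S, w i * d i * (pos i + w i / 2) = 0)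
    {G : ℝ × ℝ → ENNReal} (hGb : LocBdd G) {a b η : ℝ} (hg : ∀ i ∈ S, 0 ≤ g i)
    (hLI : ∀ i ∈ S, LI G (g i) a (b + d i) η) : LI G (∑ i ∈ S, w i * g i) a b η := by
  intro s0 s1 x0 x1 hs hx ε hε
  obtain ⟨D, hD⟩ : ∃ D, D = ∑ i ∈ S, |d i| := ⟨_, rfl⟩
  have hD0 : 0 ≤ D := by rw [hD]; exact Finset.sum_nonneg fun i _ => abs_nonneg _
  obtain ⟨C, hC0, hC⟩ := hGb (|a| + |b| + η + (D + 1))
  obtain ⟨κ, hκdef⟩ : ∃ κ, κ = min (1 / 8) (ε / (16 * (C + 1))) := ⟨_, rfl⟩
  have hκ : 0 < κ := by rw [hκdef]; apply lt_min <;> positivity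
  have hκ8 : κ ≤ 1 / 8 := by rw [hκdef]; exact min_le_left _ _
  have hκC : 4 * κ * C ≤ ε / 4 := by
    have h3 : κ ≤ ε / (16 * (C + 1)) := by rw [hκdef]; exact min_le_right _ _
    rw [le_div_iff₀ (by positivity)] at h3
    nlinarith
  obtain ⟨χ, χ', χ'', K, hK, hχ, hχ', cχ', cχ'', hχb, hχ0, hχ1⟩ :=
    exists_plateau hs hκ (by linarith : κ < 1 / 2)
  -- number of strips
  obtain ⟨k0, hk0def⟩ : ∃ k0, k0 = min 1 (min (ε / (2 * (D + 1))) (1 / ((K + 1) * (D + 1)))) :=
    ⟨_, rfl⟩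
  have hk0 : 0 < k0 := by
    rw [hk0def]
    apply lt_min one_pos
    apply lt_min <;> positivity
  obtain ⟨n, hn⟩ := exists_nat_gt ((x1 - x0) / k0)
  have hn0 : (0 : ℝ) < n := lt_of_le_of_lt (div_nonneg (by linarith) hk0.le) hn
  have hn0' : 0 < n := by exact_mod_cast hn0
  obtain ⟨k, hkdef⟩ : ∃ k, k = (x1 - x0) / n := ⟨_, rfl⟩
  have hk : 0 < k := by rw [hkdef]; apply div_pos (by linarith) hn0
  have hkk0 : k ≤ k0 := by
    rw [hkdef, div_le_iff₀ hn0]
    rw [div_lt_iff₀ hk0] at hn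
    linarith
  have hnk : n * k = x1 - x0 := by rw [hkdef]; field_simp
  have hk1 : k ≤ 1 := hkk0.trans (by rw [hk0def]; exact min_le_left _ _)
  have hk2 : D * k ≤ ε / 2 := by
    have h3 : k ≤ ε / (2 * (D + 1)) :=
      hkk0.trans (by rw [hk0def]; exact (min_le_right _ _).trans (min_le_left _ _))
    rw [le_div_iff₀ (by positivity)] at h3
    nlinarith
  have hk3 : K * (D * k) ≤ 1 := by
    have h3 : k ≤ 1 / ((K + 1) * (D + 1)) :=
      hkk0.trans (by rw [hk0def]; exact (min_le_right _ _).trans (min_le_right _ _))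
    rw [le_div_iff₀ (by positivity)] at h3
    have h4 : K * (D * k) ≤ k * ((K + 1) * (D + 1)) := by
      nlinarith [mul_nonneg hK hD0,
        mul_nonneg hK hk.le, mul_nonneg hD0 hk.le, mul_nonneg (mul_nonneg hK hD0) hk.le]
    linarith
  have hk2' : D * k ^ 2 ≤ D * k := by
    have : k ^ 2 ≤ k := by nlinarith
    exact mul_le_mul_of_nonneg_left this hD0
  -- each strip
  have hstrip : ∀ X : ℝ, ∃ ψ : Reg, ψ.SuppIn (oR s0 s1 X (X + k)) ∧ ψ.Small ε ∧
      ∀ φ : Reg, Near φ a b η (cR s0 s1 X (X + k)) →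
        ∫⁻ z in cR s0 s1 X (X + k), G ((φ.add ψ).st z) ≤
          ENNReal.ofReal (((∑ i ∈ S, w i * g i) + ε) * ((s1 - s0) * k)) := by
    intro X
    obtain ⟨v, v', v'', hv, hv', cv'', hv0, hvb, hv1⟩ :=
      profile2 (X := X) lay hκ hk h1 h2
    rw [← hD] at hvb
    have hwk : ∀ i ∈ S, 0 < w i * k := fun i hi => mul_pos (lay.wpos i hi) hk
    have hτ : 0 < s1 - s0 := by linarith
    obtain ⟨ψ, e1, e2, e3⟩ := refine_step S (G := G) (a := a) (b := b) (η := η) (ε := ε)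
      (m := D + 1) (C := C) (ρ := 4 * κ * ((s1 - s0) * k)) (s0 := s0) (s1 := s1) (x0 := X)
      (x1 := X + k) hε (fun _ => s0 + κ * (s1 - s0)) (fun _ => s1 - κ * (s1 - s0))
      (fun i => X + pos i * k + κ * (w i * k))
      (fun i => X + pos i * k + w i * k - κ * (w i * k)) (fun _ => 0) d g
      (by intro i _; nlinarith)
      (by intro i hi; nlinarith [hwk i hi])
      (by
        intro i hi z hz
        obtain ⟨⟨z1, z2⟩, z3, z4⟩ := mem_cR.mp hz
        obtain ⟨c1, c2⟩ := shrink_in hs hκ z1 z2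
        obtain ⟨c3, c4⟩ := lay.piece_sub hκ hk hi z3 z4
        exact mem_cR.mpr ⟨⟨c1.le, c2.le⟩, c3.le, c4.le⟩)
      (by
        intro i hi z hz
        obtain ⟨⟨z1, z2⟩, z3, z4⟩ := mem_oR.mp hz
        obtain ⟨c1, c2⟩ := shrink_in hs hκ z1.le z2.le
        obtain ⟨c3, c4⟩ := lay.piece_sub hκ hk hi z3.le z4.le
        exact mem_oR.mpr ⟨⟨c1, c2⟩, c3, c4⟩)
      (by
        intro i hi j hj hij
        rw [Set.disjoint_left]
        intro z hz hz'
        obtain ⟨_, z3, z4⟩ := mem_cR.mp hz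
        obtain ⟨_, z5, z6⟩ := mem_cR.mp hz'
        exact lay.piece_disj hκ hk hi hj hij z3 z4 z5 z6)
      (Reg.prod χ χ' v v' v'' hχ hv hv' cχ' cv'')
      (by
        intro z hz
        simp only [Reg.prod]
        rw [mem_oR, not_and_or] at hz
        rcases hz with hz | hz
        · obtain ⟨c1, c2, c3⟩ := hχ0 z.1 hz
          rw [c1, c2]; simp
        · obtain ⟨c1, c2, c3⟩ := hv0 z.2 hz
          rw [c1, c2, c3]; simp)
      (by
        intro z
        obtain ⟨c1, c2, c3⟩ := hχb z.1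
        obtain ⟨c4, c5, c6⟩ := hvb z.2
        simp only [Reg.prod, abs_mul]
        constructor
        · calc |χ z.1| * |v z.2| ≤ 1 * (D * k ^ 2) :=
                mul_le_mul c1 c4 (abs_nonneg _) zero_le_one
            _ ≤ ε / 2 := by linarith
        · calc |χ z.1| * |v' z.2| ≤ 1 * (D * k) :=
                mul_le_mul c1 c5 (abs_nonneg _) zero_le_one
            _ ≤ ε / 2 := by linarith)
      (by
        intro z
        obtain ⟨c1, c2, c3⟩ := hχb z.1
        obtain ⟨c4, c5, c6⟩ := hvb z.2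
        simp only [Reg.prod, abs_mul]
        constructor
        · calc |χ' z.1| * |v z.2| ≤ K * (D * k ^ 2) :=
                mul_le_mul c2 c4 (abs_nonneg _) hK
            _ ≤ K * (D * k) := mul_le_mul_of_nonneg_left hk2' hK
            _ ≤ D + 1 := by linarith
        · calc |χ z.1| * |v'' z.2| ≤ 1 * D :=
                mul_le_mul c1 c6 (abs_nonneg _) zero_le_one
            _ ≤ D + 1 := by linarith)
      (by
        intro i hi z hz
        obtain ⟨⟨z1, z2⟩, z3, z4⟩ := mem_cR.mp hz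
        obtain ⟨c1, c2, _⟩ := hχ1 z.1 z1 z2
        have c3 := hv1 i hi z.2 z3 z4
        simp only [Reg.prod]
        rw [c1, c2, c3]; simp)
      (by
        intro i hi
        simp only [add_zero]
        exact hLI i hi)
      (by
        intro p hp1 hp2
        apply hC
        · linarith [abs_nonneg b]
        · linarith [abs_nonneg a])
      (by
        apply volume_leftover S (θ := (1 - 2 * κ) ^ 2 * ((s1 - s0) * k)) hs
        · intro i _; nlinarith
        · intro i hi; nlinarith [hwk i hi]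
        · intro i hi z hz
          obtain ⟨⟨z1, z2⟩, z3, z4⟩ := mem_cR.mp hz
          obtain ⟨c1, c2⟩ := shrink_in hs hκ z1 z2
          obtain ⟨c3, c4⟩ := lay.piece_sub hκ hk hi z3 z4
          exact mem_cR.mpr ⟨⟨c1.le, c2.le⟩, c3.le, c4.le⟩
        · intro i hi j hj hij
          rw [Set.disjoint_left]
          intro z hz hz'
          obtain ⟨_, z3, z4⟩ := mem_cR.mp hz
          obtain ⟨_, z5, z6⟩ := mem_cR.mp hz'
          exact lay.piece_disj hκ hk hi hj hij z3 z4 z5 z6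
        · have e : ∀ i ∈ S, (s1 - κ * (s1 - s0) - (s0 + κ * (s1 - s0))) *
              (X + pos i * k + w i * k - κ * (w i * k) - (X + pos i * k + κ * (w i * k))) =
              w i * ((1 - 2 * κ) ^ 2 * ((s1 - s0) * k)) := by
            intro i _; ring
          rw [Finset.sum_congr rfl e, ← Finset.sum_mul, lay.sum, one_mul]
        · have : 0 ≤ 4 * κ ^ 2 * ((s1 - s0) * k) := by positivity
          nlinarith)
    refine ⟨ψ, e1, e2, fun φ hφ => (e3 φ hφ).trans ?_⟩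
    apply cost_sum lay hε hC0 hκ hκ8 hκC (by positivity) hg
    intro i _
    ring
  -- glue
  obtain ⟨ψ, e1, e2, e3⟩ := glue_step (Finset.range n) (G := G) (a := a) (b := b) (η := η) (ε := ε)
    (s0 := s0) (s1 := s1) (x0 := x0) (x1 := x1) hε.le (fun _ => s0) (fun _ => s1)
    (fun j => x0 + j * k) (fun j => x0 + j * k + k)
    (fun _ => ((∑ i ∈ S, w i * g i) + ε) * ((s1 - s0) * k))
    (by
      intro z hz
      obtain ⟨z1, z3, z4⟩ := mem_cR.mp hz
      obtain ⟨j, hj, hj1, hj2⟩ := exists_strip n hn0' z.2 z3 (by rw [hnk]; linarith)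
      simp only [Set.mem_iUnion]
      refine ⟨j, hj, mem_cR.mpr ⟨z1, hj1, ?_⟩⟩
      linarith)
    (by
      intro i hi z hz
      obtain ⟨z1, z3, z4⟩ := mem_cR.mp hz
      obtain ⟨c1, c2⟩ := strip_in hi hk hnk z3 z4
      exact mem_cR.mpr ⟨z1, c1, by linarith⟩)
    (by
      intro i hi z hz
      obtain ⟨z1, z3, z4⟩ := mem_oR.mp hz
      obtain ⟨c1, c2⟩ := strip_in' hi hk hnk z3 z4
      exact mem_oR.mpr ⟨z1, c1, by linarith⟩)
    (by
      intro i hi j hj hij
      rw [Set.disjoint_left]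
      intro z hz hz'
      obtain ⟨_, z3, z4⟩ := mem_cR.mp hz
      obtain ⟨_, z5, z6⟩ := mem_oR.mp hz'
      exact strip_disj hij hk z3 z4 z5 z6)
    (by
      intro i _
      exact hstrip (x0 + i * k))
  refine ⟨ψ, e1, e2, fun φ hφ => (e3 φ hφ).trans ?_⟩
  rw [Finset.sum_const, Finset.card_range, nsmul_eq_mul]
  have hcast : (n : ENNReal) = ENNReal.ofReal n := by rw [ENNReal.ofReal_natCast]
  rw [hcast, ← ENNReal.ofReal_mul hn0.le]
  apply ENNReal.ofReal_le_ofReal
  apply le_of_eq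
  rw [← hnk]; ring

/-- **Splitting in the first variable.** -/
theorem LI_H {ι : Type} {S : Finset ι} {w pos : ι → ℝ} (lay : Layout ι S w pos) {d g : ι → ℝ}
    (h1 : ∑ i ∈ S, w i * d i = 0)
    {G : ℝ × ℝ → ENNReal} (hGb : LocBdd G) {a b η : ℝ} (hg : ∀ i ∈ S, 0 ≤ g i)
    (hLI : ∀ i ∈ S, LI G (g i) (a + d i) b η) : LI G (∑ i ∈ S, w i * g i) a b η := by
  intro s0 s1 x0 x1 hs hx ε hε
  obtain ⟨D, hD⟩ : ∃ D, D = ∑ i ∈ S, |d i| := ⟨_, rfl⟩
  have hD0 : 0 ≤ D := by rw [hD]; exact Finset.sum_nonneg fun i _ => abs_nonneg _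
  obtain ⟨C, hC0, hC⟩ := hGb (|a| + |b| + η + (D + 1))
  obtain ⟨κ, hκdef⟩ : ∃ κ, κ = min (1 / 8) (ε / (16 * (C + 1))) := ⟨_, rfl⟩
  have hκ : 0 < κ := by rw [hκdef]; apply lt_min <;> positivity
  have hκ8 : κ ≤ 1 / 8 := by rw [hκdef]; exact min_le_left _ _
  have hκC : 4 * κ * C ≤ ε / 4 := by
    have h3 : κ ≤ ε / (16 * (C + 1)) := by rw [hκdef]; exact min_le_right _ _
    rw [le_div_iff₀ (by positivity)] at h3
    nlinarith
  obtain ⟨χ, χ', χ'', K, hK, hχ, hχ', cχ', cχ'', hχb, hχ0, hχ1⟩ :=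
    exists_plateau hx hκ (by linarith : κ < 1 / 2)
  -- number of strips
  obtain ⟨k0, hk0def⟩ : ∃ k0, k0 = min (ε / (2 * (D + 1)))
      (min (ε / (2 * ((K + 1) * (D + 1)))) (1 / ((K + 1) * (D + 1)))) := ⟨_, rfl⟩
  have hk0 : 0 < k0 := by
    rw [hk0def]
    apply lt_min (by positivity)
    apply lt_min <;> positivity
  obtain ⟨n, hn⟩ := exists_nat_gt ((s1 - s0) / k0)
  have hn0 : (0 : ℝ) < n := lt_of_le_of_lt (div_nonneg (by linarith) hk0.le) hn
  have hn0' : 0 < n := by exact_mod_cast hn0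
  obtain ⟨k, hkdef⟩ : ∃ k, k = (s1 - s0) / n := ⟨_, rfl⟩
  have hk : 0 < k := by rw [hkdef]; apply div_pos (by linarith) hn0
  have hkk0 : k ≤ k0 := by
    rw [hkdef, div_le_iff₀ hn0]
    rw [div_lt_iff₀ hk0] at hn
    linarith
  have hnk : n * k = s1 - s0 := by rw [hkdef]; field_simp
  have hk1 : D * k ≤ ε / 2 := by
    have h3 : k ≤ ε / (2 * (D + 1)) :=
      hkk0.trans (by rw [hk0def]; exact min_le_left _ _)
    rw [le_div_iff₀ (by positivity)] at h3
    nlinarith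
  have hKD : 0 ≤ K * D := mul_nonneg hK hD0
  have hk4 : K * (D * k) ≤ k * ((K + 1) * (D + 1)) := by
    nlinarith [mul_nonneg hK hD0,
      mul_nonneg hK hk.le, mul_nonneg hD0 hk.le, mul_nonneg (mul_nonneg hK hD0) hk.le]
  have hk2 : K * (D * k) ≤ ε / 2 := by
    have h3 : k ≤ ε / (2 * ((K + 1) * (D + 1))) :=
      hkk0.trans (by rw [hk0def]; exact (min_le_right _ _).trans (min_le_left _ _))
    rw [le_div_iff₀ (by positivity)] at h3
    linarith
  have hk3 : K * (D * k) ≤ 1 := by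
    have h3 : k ≤ 1 / ((K + 1) * (D + 1)) :=
      hkk0.trans (by rw [hk0def]; exact (min_le_right _ _).trans (min_le_right _ _))
    rw [le_div_iff₀ (by positivity)] at h3
    linarith
  have hL : 0 < x1 - x0 := by linarith
  -- each strip
  have hstrip : ∀ X : ℝ, ∃ ψ : Reg, ψ.SuppIn (oR X (X + k) x0 x1) ∧ ψ.Small ε ∧
      ∀ φ : Reg, Near φ a b η (cR X (X + k) x0 x1) →
        ∫⁻ z in cR X (X + k) x0 x1, G ((φ.add ψ).st z) ≤
          ENNReal.ofReal (((∑ i ∈ S, w i * g i) + ε) * (k * (x1 - x0))) := by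
    intro X
    obtain ⟨u, u', hu, cu', hu0, hub, hu1⟩ := profile1 (X := X) lay hκ hk h1
    rw [← hD] at hub
    have hwk : ∀ i ∈ S, 0 < w i * k := fun i hi => mul_pos (lay.wpos i hi) hk
    obtain ⟨ψ, e1, e2, e3⟩ := refine_step S (G := G) (a := a) (b := b) (η := η) (ε := ε)
      (m := D + 1) (C := C) (ρ := 4 * κ * (k * (x1 - x0))) (s0 := X) (s1 := X + k) (x0 := x0)
      (x1 := x1) hε
      (fun i => X + pos i * k + κ * (w i * k))
      (fun i => X + pos i * k + w i * k - κ * (w i * k))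
      (fun _ => x0 + κ * (x1 - x0)) (fun _ => x1 - κ * (x1 - x0)) d (fun _ => 0) g
      (by intro i hi; nlinarith [hwk i hi])
      (by intro i _; nlinarith)
      (by
        intro i hi z hz
        obtain ⟨⟨z1, z2⟩, z3, z4⟩ := mem_cR.mp hz
        obtain ⟨c1, c2⟩ := shrink_in hx hκ z3 z4
        obtain ⟨c3, c4⟩ := lay.piece_sub hκ hk hi z1 z2
        exact mem_cR.mpr ⟨⟨c3.le, c4.le⟩, c1.le, c2.le⟩)
      (by
        intro i hi z hz
        obtain ⟨⟨z1, z2⟩, z3, z4⟩ := mem_oR.mp hz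
        obtain ⟨c1, c2⟩ := shrink_in hx hκ z3.le z4.le
        obtain ⟨c3, c4⟩ := lay.piece_sub hκ hk hi z1.le z2.le
        exact mem_oR.mpr ⟨⟨c3, c4⟩, c1, c2⟩)
      (by
        intro i hi j hj hij
        rw [Set.disjoint_left]
        intro z hz hz'
        obtain ⟨⟨z3, z4⟩, _⟩ := mem_cR.mp hz
        obtain ⟨⟨z5, z6⟩, _⟩ := mem_cR.mp hz'
        exact lay.piece_disj hκ hk hi hj hij z3 z4 z5 z6)
      (Reg.prod u u' χ χ' χ'' hu hχ hχ' cu' cχ'')
      (by
        intro z hz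
        simp only [Reg.prod]
        rw [mem_oR, not_and_or] at hz
        rcases hz with hz | hz
        · obtain ⟨c1, c2⟩ := hu0 z.1 hz
          rw [c1, c2]; simp
        · obtain ⟨c1, c2, c3⟩ := hχ0 z.2 hz
          rw [c1, c2, c3]; simp)
      (by
        intro z
        obtain ⟨c1, c2, c3⟩ := hχb z.2
        obtain ⟨c4, c5⟩ := hub z.1
        simp only [Reg.prod, abs_mul]
        constructor
        · calc |u z.1| * |χ z.2| ≤ (D * k) * 1 :=
                mul_le_mul c4 c1 (abs_nonneg _) (by positivity)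
            _ ≤ ε / 2 := by linarith
        · calc |u z.1| * |χ' z.2| ≤ (D * k) * K :=
                mul_le_mul c4 c2 (abs_nonneg _) (by positivity)
            _ ≤ ε / 2 := by linarith)
      (by
        intro z
        obtain ⟨c1, c2, c3⟩ := hχb z.2
        obtain ⟨c4, c5⟩ := hub z.1
        simp only [Reg.prod, abs_mul]
        constructor
        · calc |u' z.1| * |χ z.2| ≤ D * 1 :=
                mul_le_mul c5 c1 (abs_nonneg _) hD0
            _ ≤ D + 1 := by linarith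
        · calc |u z.1| * |χ'' z.2| ≤ (D * k) * K :=
                mul_le_mul c4 c3 (abs_nonneg _) (by positivity)
            _ ≤ D + 1 := by linarith)
      (by
        intro i hi z hz
        obtain ⟨⟨z1, z2⟩, z3, z4⟩ := mem_cR.mp hz
        obtain ⟨c1, c2, c2'⟩ := hχ1 z.2 z3 z4
        have c3 := hu1 i hi z.1 z1 z2
        simp only [Reg.prod]
        rw [c1, c2', c3]; simp)
      (by
        intro i hi
        simp only [add_zero]
        exact hLI i hi)
      (by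
        intro p hp1 hp2
        apply hC
        · linarith [abs_nonneg b]
        · linarith [abs_nonneg a])
      (by
        apply volume_leftover S (θ := (1 - 2 * κ) ^ 2 * (k * (x1 - x0))) (by linarith)
        · intro i hi; nlinarith [hwk i hi]
        · intro i _; nlinarith
        · intro i hi z hz
          obtain ⟨⟨z1, z2⟩, z3, z4⟩ := mem_cR.mp hz
          obtain ⟨c1, c2⟩ := shrink_in hx hκ z3 z4
          obtain ⟨c3, c4⟩ := lay.piece_sub hκ hk hi z1 z2
          exact mem_cR.mpr ⟨⟨c3.le, c4.le⟩, c1.le, c2.le⟩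
        · intro i hi j hj hij
          rw [Set.disjoint_left]
          intro z hz hz'
          obtain ⟨⟨z3, z4⟩, _⟩ := mem_cR.mp hz
          obtain ⟨⟨z5, z6⟩, _⟩ := mem_cR.mp hz'
          exact lay.piece_disj hκ hk hi hj hij z3 z4 z5 z6
        · have e : ∀ i ∈ S, (X + pos i * k + w i * k - κ * (w i * k) -
              (X + pos i * k + κ * (w i * k))) * (x1 - κ * (x1 - x0) - (x0 + κ * (x1 - x0))) =
              w i * ((1 - 2 * κ) ^ 2 * (k * (x1 - x0))) := by
            intro i _; ring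
          rw [Finset.sum_congr rfl e, ← Finset.sum_mul, lay.sum, one_mul]
        · have : 0 ≤ 4 * κ ^ 2 * (k * (x1 - x0)) := by positivity
          nlinarith)
    refine ⟨ψ, e1, e2, fun φ hφ => (e3 φ hφ).trans ?_⟩
    apply cost_sum lay hε hC0 hκ hκ8 hκC (by positivity) hg
    intro i _
    ring
  -- glue
  obtain ⟨ψ, e1, e2, e3⟩ := glue_step (Finset.range n) (G := G) (a := a) (b := b) (η := η) (ε := ε)
    (s0 := s0) (s1 := s1) (x0 := x0) (x1 := x1) hε.le
    (fun j => s0 + j * k) (fun j => s0 + j * k + k) (fun _ => x0) (fun _ => x1)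
    (fun _ => ((∑ i ∈ S, w i * g i) + ε) * (k * (x1 - x0)))
    (by
      intro z hz
      obtain ⟨⟨z3, z4⟩, z1⟩ := mem_cR.mp hz
      obtain ⟨j, hj, hj1, hj2⟩ := exists_strip n hn0' z.1 z3 (by rw [hnk]; linarith)
      simp only [Set.mem_iUnion]
      refine ⟨j, hj, mem_cR.mpr ⟨⟨hj1, ?_⟩, z1⟩⟩
      linarith)
    (by
      intro i hi z hz
      obtain ⟨⟨z3, z4⟩, z1⟩ := mem_cR.mp hz
      obtain ⟨c1, c2⟩ := strip_in hi hk hnk z3 z4
      exact mem_cR.mpr ⟨⟨c1, by linarith⟩, z1⟩)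
    (by
      intro i hi z hz
      obtain ⟨⟨z3, z4⟩, z1⟩ := mem_oR.mp hz
      obtain ⟨c1, c2⟩ := strip_in' hi hk hnk z3 z4
      exact mem_oR.mpr ⟨⟨c1, by linarith⟩, z1⟩)
    (by
      intro i hi j hj hij
      rw [Set.disjoint_left]
      intro z hz hz'
      obtain ⟨⟨z3, z4⟩, _⟩ := mem_cR.mp hz
      obtain ⟨⟨z5, z6⟩, _⟩ := mem_oR.mp hz'
      exact strip_disj hij hk z3 z4 z5 z6)
    (by
      intro i _
      exact hstrip (s0 + i * k))
  refine ⟨ψ, e1, e2, fun φ hφ => (e3 φ hφ).trans ?_⟩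
  rw [Finset.sum_const, Finset.card_range, nsmul_eq_mul]
  have hcast : (n : ENNReal) = ENNReal.ofReal n := by rw [ENNReal.ofReal_natCast]
  rw [hcast, ← ENNReal.ofReal_mul hn0.le]
  apply ENNReal.ofReal_le_ofReal
  apply le_of_eq
  rw [← hnk]; ring

end Pool.Agent.Lib.MP_784f1f_an
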