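import Pool.Agent.Lib.MP_784f1f_an.Cells
import Pool.Agent.Lib.MP_784f1f_an.Core

set_option autoImplicit false
open MeasureTheory Filter Topology Set

namespace Pool.Agent.Lib.MP_784f1f_an

/-- projection to the two active variables -/
def proj {n : ℕ} (T : ℝ) (z : ℝ × (Fin (n + 1) → ℝ)) : ℝ × ℝ := (T - z.1, z.2 0)

/-- lift of a function of `(s, y)` to a periodic function of `(t, x)` -/
noncomputable def lft {n : ℕ} (T : ℝ) (F : ℝ × ℝ → ℝ) (z : ℝ × (Fin (n + 1) → ℝ)) : ℝ :=
  F (T - z.1, Int.fract (z.2 0))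

/-- the box -/
def Box (T : ℝ) : Set (ℝ × ℝ) := Ioo 0 T ×ˢ Ico 0 1

lemma measurableSet_Box (T : ℝ) : MeasurableSet (Box T) := measurableSet_Ioo.prod measurableSet_Ico

lemma lft_eq {n : ℕ} {T : ℝ} (F : ℝ × ℝ → ℝ) {z : ℝ × (Fin (n + 1) → ℝ)}
    (hz : z ∈ QT (n + 1) T) : lft T F z = F (proj T z) := by
  have h : z.2 0 ∈ Ico (0:ℝ) 1 := hz.2 0 (mem_univ 0)
  unfold lft proj
  rw [Int.fract_eq_self.mpr h]

lemma lft_periodic {n : ℕ} (T : ℝ) (F : ℝ × ℝ → ℝ) :
    PeriodicX (n + 1) (lft T F) := by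
  intro t x m
  unfold lft
  simp only [Int.fract_add_intCast]

lemma measurable_proj {n : ℕ} (T : ℝ) : Measurable (proj (n := n) T) := by
  unfold proj
  fun_prop

lemma continuous_proj {n : ℕ} (T : ℝ) : Continuous (proj (n := n) T) := by
  unfold proj
  fun_prop

lemma measurable_lft {n : ℕ} (T : ℝ) {F : ℝ × ℝ → ℝ} (hF : Measurable F) :
    Measurable (lft (n := n) T F) := by
  apply hF.comp
  apply Measurable.prodMk
  · fun_prop
  · exact measurable_fract.comp ((measurable_pi_apply 0).comp measurable_snd)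

lemma mp_proj {n : ℕ} (T : ℝ) : MeasurePreserving (proj (n := n) T)
    (volume.restrict (QT (n + 1) T)) (volume.restrict (Box T)) := by
  have h1 : (volume : Measure (ℝ × (Fin (n + 1) → ℝ))).restrict (QT (n + 1) T) =
      (volume.restrict (Ioo (0:ℝ) T)).prod (volume.restrict (Cell (n + 1))) := by
    rw [Measure.prod_restrict]; rfl
  have h2 : (volume : Measure (ℝ × ℝ)).restrict (Box T) =
      (volume.restrict (Ioo (0:ℝ) T)).prod (volume.restrict (Ico (0:ℝ) 1)) := by
    rw [Measure.prod_restrict]; rfl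
  rw [h1, h2]
  have h3 : MeasurePreserving (fun t : ℝ => T - t) (volume.restrict (Ioo (0:ℝ) T))
      (volume.restrict (Ioo (0:ℝ) T)) := by
    have h4 : MeasurePreserving (fun t : ℝ => T - t) volume volume :=
      Measure.measurePreserving_sub_left volume T
    have h5 := h4.restrict_preimage (measurableSet_Ioo (a := (0:ℝ)) (b := T))
    have h6 : (fun t : ℝ => T - t) ⁻¹' Ioo 0 T = Ioo 0 T := by
      ext t
      simp only [Set.mem_preimage, Set.mem_Ioo]
      constructor <;> rintro ⟨a, b⟩ <;> constructor <;> linarith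
    rwa [h6] at h5
  have h7 : MeasurePreserving (fun x : Fin (n + 1) → ℝ => x 0) (volume.restrict (Cell (n + 1)))
      (volume.restrict (Ico (0:ℝ) 1)) := by
    have : IsProbabilityMeasure ((volume : Measure ℝ).restrict (Ico (0:ℝ) 1)) := by
      constructor
      rw [Measure.restrict_apply_univ, Real.volume_Ico]
      norm_num
    have h8 := measurePreserving_eval
      (fun _ : Fin (n + 1) => (volume : Measure ℝ).restrict (Ico (0:ℝ) 1)) 0
    rw [← Measure.restrict_pi_pi, ← volume_pi] at h8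
    exact h8
  exact h3.prod h7

lemma hasDerivAt_insertNth {n : ℕ} (i : Fin (n + 1)) (x' : Fin n → ℝ) (y : ℝ) :
    HasDerivAt (fun y : ℝ => i.insertNth (α := fun _ => ℝ) y x')
      (Pi.single i 1 : Fin (n + 1) → ℝ) y := by
  rw [hasDerivAt_pi]
  intro j
  rcases Fin.eq_self_or_eq_succAbove i j with hj | ⟨k, hk⟩
  · subst hj
    simp only [Fin.insertNth_apply_same, Pi.single_eq_same]
    exact hasDerivAt_id y
  · subst hk
    simp only [Fin.insertNth_apply_succAbove]
    rw [Pi.single_eq_of_ne (Fin.succAbove_ne i k)]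
    exact hasDerivAt_const _ _

lemma IsTest.diff {N : ℕ} {T : ℝ} {ζ : ℝ × (Fin N → ℝ) → ℝ} (hζ : IsTest N T ζ) :
    Differentiable ℝ ζ := (hζ.smooth 1).differentiable (by norm_num)

lemma IsTest.cont_fderiv {N : ℕ} {T : ℝ} {ζ : ℝ × (Fin N → ℝ) → ℝ} (hζ : IsTest N T ζ)
    (v : ℝ × (Fin N → ℝ)) : Continuous (fun z => fderiv ℝ ζ z v) :=
  ((hζ.smooth 1).continuous_fderiv (by norm_num)).clm_apply continuous_const

lemma IsTest.zero_ends {N : ℕ} {T : ℝ} {ζ : ℝ × (Fin N → ℝ) → ℝ} (hζ : IsTest N T ζ)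
    (x : Fin N → ℝ) : ζ (0, x) = 0 ∧ ζ (T, x) = 0 := by
  obtain ⟨α, β, h1, h2, h3⟩ := hζ.supp
  exact ⟨h3 0 x (fun h => absurd h.1 (not_le.mpr h1)), h3 T x (fun h => absurd h.2 (not_le.mpr h2))⟩

lemma ident_t {n : ℕ} {T : ℝ} (hT : 0 < T) (ψ : Reg)
    {ζ : ℝ × (Fin (n + 1) → ℝ) → ℝ} (hζ : IsTest (n + 1) T ζ) :
    ∫ z in QT (n + 1) T, ψ.f (proj T z).1 (proj T z).2 * fderiv ℝ ζ z (1, 0) =
      -∫ z in QT (n + 1) T, ((-1) * ψ.ft (proj T z).1 (proj T z).2) * ζ z := by
  have hcont1 : Continuous (fun z : ℝ × (Fin (n + 1) → ℝ) =>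
      ψ.f (proj T z).1 (proj T z).2 * fderiv ℝ ζ z (1, 0)) :=
    (ψ.cf.comp (continuous_proj T)).mul (hζ.cont_fderiv _)
  have hcont2 : Continuous (fun z : ℝ × (Fin (n + 1) → ℝ) =>
      ((-1) * ψ.ft (proj T z).1 (proj T z).2) * ζ z) :=
    (continuous_const.mul (ψ.cft.comp (continuous_proj T))).mul hζ.diff.continuous
  have key := integral_QT_time hT (h := fun z : ℝ × (Fin (n + 1) → ℝ) =>
      ψ.f (proj T z).1 (proj T z).2 * ζ z)
    (h' := fun z => ψ.f (proj T z).1 (proj T z).2 * fderiv ℝ ζ z (1, 0) +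
      ((-1) * ψ.ft (proj T z).1 (proj T z).2) * ζ z) (hcont1.add hcont2)
    (by
      intro t x
      have h1 : HasDerivAt (fun t : ℝ => ζ (t, x)) (fderiv ℝ ζ (t, x) (1, 0)) t :=
        (hζ.diff (t, x)).hasFDerivAt.comp_hasDerivAt t
          ((hasDerivAt_id t).prodMk (hasDerivAt_const t x))
      have h2 : HasDerivAt (fun t : ℝ => ψ.f (T - t) (x 0)) (-ψ.ft (T - t) (x 0)) t := by
        have h3 : HasDerivAt (fun t : ℝ => T - t) (-1) t := by
          simpa using (hasDerivAt_id t).const_sub T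
        have h4 := (ψ.dt (T - t) (x 0)).comp t h3
        refine h4.congr_deriv ?_
        ring
      refine (h2.fun_mul h1).congr_deriv ?_
      simp only [proj]
      ring)
    (by
      intro x
      simp only [(hζ.zero_ends x).1, (hζ.zero_ends x).2, mul_zero])
  rw [integral_add (integrableOn_QT hcont1) (integrableOn_QT hcont2)] at key
  linarith

lemma ident_x {n : ℕ} {T : ℝ} (j : Fin (n + 1)) {u u' : ℝ → ℝ → ℝ}
    (cu : Continuous (fun z : ℝ × ℝ => u z.1 z.2)) (cu' : Continuous (fun z : ℝ × ℝ => u' z.1 z.2))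
    (hd : ∀ s y, HasDerivAt (fun y => u s y) (u' s y) y)
    (h0 : ∀ s, u s 0 = 0) (h1 : ∀ s, u s 1 = 0)
    {ζ : ℝ × (Fin (n + 1) → ℝ) → ℝ} (hζ : IsTest (n + 1) T ζ) :
    ∫ z in QT (n + 1) T, u (proj T z).1 (proj T z).2 * fderiv ℝ ζ z (0, Pi.single j 1) =
      -∫ z in QT (n + 1) T, ((Pi.single j 1 : Fin (n + 1) → ℝ) 0 * u' (proj T z).1 (proj T z).2) *
        ζ z := by
  have hcont1 : Continuous (fun z : ℝ × (Fin (n + 1) → ℝ) =>
      u (proj T z).1 (proj T z).2 * fderiv ℝ ζ z (0, Pi.single j 1)) :=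
    (cu.comp (continuous_proj T)).mul (hζ.cont_fderiv _)
  have hcont2 : Continuous (fun z : ℝ × (Fin (n + 1) → ℝ) =>
      ((Pi.single j 1 : Fin (n + 1) → ℝ) 0 * u' (proj T z).1 (proj T z).2) * ζ z) :=
    (continuous_const.mul (cu'.comp (continuous_proj T))).mul hζ.diff.continuous
  have key := integral_QT_space (T := T) j (h := fun z : ℝ × (Fin (n + 1) → ℝ) =>
      u (proj T z).1 (proj T z).2 * ζ z)
    (h' := fun z => u (proj T z).1 (proj T z).2 * fderiv ℝ ζ z (0, Pi.single j 1) +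
      ((Pi.single j 1 : Fin (n + 1) → ℝ) 0 * u' (proj T z).1 (proj T z).2) * ζ z)
      (hcont1.add hcont2)
    (by
      intro t x' y
      have e0 := hasDerivAt_insertNth j x' y
      have e1 : HasDerivAt (fun y : ℝ => ζ (t, j.insertNth (α := fun _ => ℝ) y x'))
          (fderiv ℝ ζ (t, j.insertNth (α := fun _ => ℝ) y x') (0, Pi.single j 1)) y :=
        (hζ.diff _).hasFDerivAt.comp_hasDerivAt y ((hasDerivAt_const y t).prodMk e0)
      have e2 : HasDerivAt (fun y : ℝ => u (T - t) ((j.insertNth (α := fun _ => ℝ) y x') 0))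
          (u' (T - t) ((j.insertNth (α := fun _ => ℝ) y x') 0) *
            (Pi.single j 1 : Fin (n + 1) → ℝ) 0) y :=
        (hd (T - t) _).comp y (hasDerivAt_pi.mp e0 0)
      refine (e2.fun_mul e1).congr_deriv ?_
      simp only [proj]
      ring)
    (by
      intro t x'
      simp only [proj]
      by_cases hj : j = 0
      · subst hj
        have a1 : (Fin.insertNth (α := fun _ => ℝ) (0 : Fin (n + 1)) (1:ℝ) x') 0 = 1 :=
          Fin.insertNth_apply_same _ _ _
        have a2 : (Fin.insertNth (α := fun _ => ℝ) (0 : Fin (n + 1)) (0:ℝ) x') 0 = 0 :=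
          Fin.insertNth_apply_same _ _ _
        rw [a1, a2, h0, h1, zero_mul, zero_mul]
      · obtain ⟨k, hk⟩ := Fin.exists_succAbove_eq (Ne.symm hj)
        have a1 : ∀ y : ℝ, (j.insertNth (α := fun _ => ℝ) y x') 0 = x' k := by
          intro y
          rw [← hk]
          exact Fin.insertNth_apply_succAbove _ _ _ _
        rw [a1, a1]
        have a2 := hζ.periodic t (j.insertNth (α := fun _ => ℝ) (0:ℝ) x') (Pi.single j 1)
        have a3 : (fun i => (j.insertNth (α := fun _ => ℝ) (0:ℝ) x') i +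
            (((Pi.single j 1 : Fin (n + 1) → ℤ) i : ℤ) : ℝ)) =
            j.insertNth (α := fun _ => ℝ) (1:ℝ) x' := by
          funext i
          rcases Fin.eq_self_or_eq_succAbove j i with hi | ⟨m, hm⟩
          · subst hi
            simp
          · subst hm
            rw [Pi.single_eq_of_ne (Fin.succAbove_ne j m)]
            simp
        rw [a3] at a2
        rw [a2])
  rw [integral_add (integrableOn_QT hcont1) (integrableOn_QT hcont2)] at key
  linarith

/-- passing to the limit in the weak identities -/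
lemma weak_limit {n : ℕ} {T : ℝ} {u h : ℝ × ℝ → ℝ} {uk hk : ℕ → ℝ × ℝ → ℝ}
    (cuk : ∀ k, Continuous (uk k)) (chk : ∀ k, Continuous (hk k))
    (hu : Measurable u) (hh : Measurable h)
    (iu : IntegrableOn u (Box T)) (ih : IntegrableOn h (Box T))
    (tu : Tendsto (fun k => ∫⁻ z in Box T, ENNReal.ofReal |uk k z - u z|) atTop (𝓝 0))
    (th : Tendsto (fun k => ∫⁻ z in Box T, ENNReal.ofReal |hk k z - h z|) atTop (𝓝 0))
    (v : ℝ × (Fin (n + 1) → ℝ)) (c : ℝ)
    (hid : ∀ k ζ, IsTest (n + 1) T ζ →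
      ∫ z in QT (n + 1) T, uk k (proj T z) * fderiv ℝ ζ z v =
        -∫ z in QT (n + 1) T, (c * hk k (proj T z)) * ζ z) :
    IsWeakDeriv (n + 1) T v (lft T u) (fun z => c * lft T h z) := by
  have hmp := mp_proj (n := n) T
  have iu' : IntegrableOn (fun z => u (proj T z)) (QT (n + 1) T) :=
    (hmp.integrable_comp hu.aestronglyMeasurable).mpr iu
  have ih' : IntegrableOn (fun z => h (proj T z)) (QT (n + 1) T) :=
    (hmp.integrable_comp hh.aestronglyMeasurable).mpr ih
  have eu : ∀ z ∈ QT (n + 1) T, u (proj T z) = lft T u z := fun z hz => (lft_eq u hz).symm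
  have eh : ∀ z ∈ QT (n + 1) T, h (proj T z) = lft T h z := fun z hz => (lft_eq h hz).symm
  refine ⟨iu'.congr_fun eu (measurableSet_QT _ _),
    (ih'.congr_fun eh (measurableSet_QT _ _)).const_mul c, fun ζ hζ => ?_⟩
  -- general convergence statement
  have conv : ∀ (w : ℝ × ℝ → ℝ) (wk : ℕ → ℝ × ℝ → ℝ) (η : ℝ × (Fin (n + 1) → ℝ) → ℝ),
      (∀ k, Continuous (wk k)) → Measurable w → IntegrableOn (fun z => w (proj T z))
      (QT (n + 1) T) → Continuous η →
      Tendsto (fun k => ∫⁻ z in Box T, ENNReal.ofReal |wk k z - w z|) atTop (𝓝 0) →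
      Tendsto (fun k => ∫ z in QT (n + 1) T, wk k (proj T z) * η z) atTop
        (𝓝 (∫ z in QT (n + 1) T, w (proj T z) * η z)) := by
    intro w wk η cwk hw iw cη tw
    obtain ⟨C, hC0, hC⟩ := bounded_QT (N := n + 1) (T := T) cη
    have hcwk : ∀ k, Continuous (fun z : ℝ × (Fin (n + 1) → ℝ) => wk k (proj T z) * η z) :=
      fun k => ((cwk k).comp (continuous_proj T)).mul cη
    apply tendsto_integral_of_L1
    · exact ((hw.comp (measurable_proj T)).mul cη.measurable).aestronglyMeasurable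
    · exact Eventually.of_forall fun k => integrableOn_QT (hcwk k)
    · have h1 : Tendsto (fun k => ENNReal.ofReal C *
          ∫⁻ z in Box T, ENNReal.ofReal |wk k z - w z|) atTop (𝓝 0) := by
        have := ENNReal.Tendsto.const_mul tw (Or.inr (ENNReal.ofReal_ne_top (r := C)))
        rwa [mul_zero] at this
      refine tendsto_of_tendsto_of_tendsto_of_le_of_le tendsto_const_nhds h1
        (fun _ => zero_le) (fun k => ?_)
      have hm : Measurable (fun z => ENNReal.ofReal |wk k z - w z|) :=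
        ENNReal.measurable_ofReal.comp (((cwk k).measurable.sub hw).abs)
      rw [← hmp.lintegral_comp hm, ← lintegral_const_mul' _ _ ENNReal.ofReal_ne_top]
      apply setLIntegral_mono' (measurableSet_QT _ _)
      intro z hz
      rw [← sub_mul, Real.enorm_eq_ofReal_abs, abs_mul, mul_comm,
        ENNReal.ofReal_mul (abs_nonneg _)]
      gcongr
      exact hC z hz
  have t1 := conv u uk (fun z => fderiv ℝ ζ z v) cuk hu iu' (hζ.cont_fderiv v) tu
  have t2 := conv h hk (fun z => c * ζ z) chk hh ih' (continuous_const.mul hζ.diff.continuous) th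
  have t3 : ∀ k, ∫ z in QT (n + 1) T, uk k (proj T z) * fderiv ℝ ζ z v =
      -∫ z in QT (n + 1) T, hk k (proj T z) * (c * ζ z) := by
    intro k
    rw [hid k ζ hζ]
    congr 1
    apply integral_congr_ae
    filter_upwards with z
    ring
  have t4 : ∫ z in QT (n + 1) T, u (proj T z) * fderiv ℝ ζ z v =
      -∫ z in QT (n + 1) T, h (proj T z) * (c * ζ z) := by
    refine tendsto_nhds_unique t1 ?_
    refine (t2.neg).congr fun k => ?_
    rw [t3 k]
  have t5 : ∫ z in QT (n + 1) T, lft T u z * fderiv ℝ ζ z v =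
      ∫ z in QT (n + 1) T, u (proj T z) * fderiv ℝ ζ z v := by
    apply setIntegral_congr_fun (measurableSet_QT _ _)
    intro z hz
    simp only [lft_eq u hz]
  have t6 : ∫ z in QT (n + 1) T, c * lft T h z * ζ z =
      ∫ z in QT (n + 1) T, h (proj T z) * (c * ζ z) := by
    apply setIntegral_congr_fun (measurableSet_QT _ _)
    intro z hz
    simp only [lft_eq h hz]
    ring
  rw [t5, t6, t4]

end Pool.Agent.Lib.MP_784f1f_an
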