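import Mathlib

set_option autoImplicit false
open MeasureTheory Filter Topology Set

namespace Pool.Agent.Lib.MP_784f1f_an

/-- The trapezoid with ramps of length `κ`. -/
noncomputable def tr (κ x : ℝ) : ℝ := max 0 (min 1 (min (x / κ) ((1 - x) / κ)))

lemma tr_continuous (κ : ℝ) : Continuous (tr κ) := by
  unfold tr; fun_prop

lemma tr_nonneg (κ x : ℝ) : 0 ≤ tr κ x := le_max_left _ _

lemma tr_le_one (κ x : ℝ) : tr κ x ≤ 1 := max_le zero_le_one (min_le_left _ _)

lemma tr_symm (κ x : ℝ) : tr κ (1 - x) = tr κ x := by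
  unfold tr
  rw [sub_sub_cancel, min_comm (a := (1 - x) / κ)]

lemma tr_of_nonpos {κ x : ℝ} (hκ : 0 < κ) (hx : x ≤ 0) : tr κ x = 0 := by
  unfold tr
  apply max_eq_left
  refine (min_le_right _ _).trans ((min_le_left _ _).trans ?_)
  exact div_nonpos_of_nonpos_of_nonneg hx hκ.le

lemma tr_of_one_le {κ x : ℝ} (hκ : 0 < κ) (hx : 1 ≤ x) : tr κ x = 0 := by
  rw [← tr_symm]
  exact tr_of_nonpos hκ (by linarith)

lemma tr_eq_one {κ x : ℝ} (hκ : 0 < κ) (h1 : κ ≤ x) (h2 : x ≤ 1 - κ) : tr κ x = 1 := by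
  unfold tr
  have a1 : 1 ≤ x / κ := by rw [le_div_iff₀ hκ]; linarith
  have a2 : 1 ≤ (1 - x) / κ := by rw [le_div_iff₀ hκ]; linarith
  rw [min_eq_left (le_min a1 a2), max_eq_right zero_le_one]

/-- first primitive -/
noncomputable def Q (κ x : ℝ) : ℝ := ∫ y in (0:ℝ)..x, tr κ y

/-- second primitive -/
noncomputable def P (κ x : ℝ) : ℝ := ∫ y in (0:ℝ)..x, Q κ y

lemma hasDerivAt_Q (κ x : ℝ) : HasDerivAt (Q κ) (tr κ x) x :=
  intervalIntegral.integral_hasDerivAt_right ((tr_continuous κ).intervalIntegrable _ _)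
    ((tr_continuous κ).stronglyMeasurableAtFilter _ _) (tr_continuous κ).continuousAt

lemma Q_continuous (κ : ℝ) : Continuous (Q κ) :=
  continuous_iff_continuousAt.mpr fun x => (hasDerivAt_Q κ x).continuousAt

lemma hasDerivAt_P (κ x : ℝ) : HasDerivAt (P κ) (Q κ x) x :=
  intervalIntegral.integral_hasDerivAt_right ((Q_continuous κ).intervalIntegrable _ _)
    ((Q_continuous κ).stronglyMeasurableAtFilter _ _) (Q_continuous κ).continuousAt

lemma Q_of_nonpos {κ x : ℝ} (hκ : 0 < κ) (hx : x ≤ 0) : Q κ x = 0 := by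
  unfold Q
  rw [intervalIntegral.integral_congr (g := fun _ => (0:ℝ))]
  · simp
  · intro y hy
    rw [Set.uIcc_of_ge hx] at hy
    exact tr_of_nonpos hκ hy.2

lemma P_of_nonpos {κ x : ℝ} (hκ : 0 < κ) (hx : x ≤ 0) : P κ x = 0 := by
  unfold P
  rw [intervalIntegral.integral_congr (g := fun _ => (0:ℝ))]
  · simp
  · intro y hy
    rw [Set.uIcc_of_ge hx] at hy
    exact Q_of_nonpos hκ hy.2

lemma Q_of_one_le {κ x : ℝ} (hκ : 0 < κ) (hx : 1 ≤ x) : Q κ x = Q κ 1 := by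
  unfold Q
  rw [← intervalIntegral.integral_add_adjacent_intervals
    ((tr_continuous κ).intervalIntegrable 0 1) ((tr_continuous κ).intervalIntegrable 1 x)]
  have : ∫ y in (1:ℝ)..x, tr κ y = 0 := by
    rw [intervalIntegral.integral_congr (g := fun _ => (0:ℝ))]
    · simp
    · intro y hy
      rw [Set.uIcc_of_le hx] at hy
      exact tr_of_one_le hκ hy.1
  rw [this, add_zero]

lemma Q_mono (κ : ℝ) : Monotone (Q κ) := by
  apply monotone_of_deriv_nonneg
  · exact fun x => (hasDerivAt_Q κ x).differentiableAt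
  · intro x
    rw [(hasDerivAt_Q κ x).deriv]
    exact tr_nonneg κ x

lemma Q_zero (κ : ℝ) : Q κ 0 = 0 := by simp [Q]

lemma Q_one_le (κ : ℝ) : Q κ 1 ≤ 1 := by
  unfold Q
  have h : ∫ y in (0:ℝ)..1, tr κ y ≤ ∫ y in (0:ℝ)..1, (1:ℝ) :=
    intervalIntegral.integral_mono_on zero_le_one ((tr_continuous κ).intervalIntegrable _ _)
      (continuous_const.intervalIntegrable _ _) (fun y _ => tr_le_one κ y)
  simpa using h

lemma Q_nonneg {κ : ℝ} (hκ : 0 < κ) (x : ℝ) : 0 ≤ Q κ x := by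
  rcases le_total x 0 with h | h
  · rw [Q_of_nonpos hκ h]
  · rw [← Q_zero κ]; exact Q_mono κ h

lemma Q_le_one {κ : ℝ} (hκ : 0 < κ) (x : ℝ) : Q κ x ≤ 1 := by
  rcases le_total x 1 with h | h
  · exact (Q_mono κ h).trans (Q_one_le κ)
  · rw [Q_of_one_le hκ h]; exact Q_one_le κ

lemma Q_add (κ x : ℝ) : Q κ x + Q κ (1 - x) = Q κ 1 := by
  have hd : ∀ y, HasDerivAt (fun y => Q κ y + Q κ (1 - y)) 0 y := by
    intro y
    have h1 := hasDerivAt_Q κ y
    have h2 : HasDerivAt (fun y => Q κ (1 - y)) (tr κ (1 - y) * (-1)) y := by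
      have h3 : HasDerivAt (fun y : ℝ => 1 - y) (-1) y := by
        simpa using (hasDerivAt_id y).const_sub 1
      exact (hasDerivAt_Q κ (1 - y)).comp y h3
    refine (h1.fun_add h2).congr_deriv ?_
    rw [tr_symm]; ring
  have hc := is_const_of_deriv_eq_zero (f := fun y => Q κ y + Q κ (1 - y))
    (fun y => (hd y).differentiableAt) (fun y => (hd y).deriv) x 0
  simp only [sub_zero, Q_zero, zero_add] at hc
  exact hc

lemma P_symm (κ x : ℝ) : P κ x = P κ (1 - x) + Q κ 1 * (x - 1 / 2) := by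
  have hd : ∀ y, HasDerivAt (fun y => P κ y - P κ (1 - y) - Q κ 1 * (y - 1 / 2)) 0 y := by
    intro y
    have h1 := hasDerivAt_P κ y
    have h2 : HasDerivAt (fun y => P κ (1 - y)) (Q κ (1 - y) * (-1)) y := by
      have h3 : HasDerivAt (fun y : ℝ => 1 - y) (-1) y := by
        simpa using (hasDerivAt_id y).const_sub 1
      exact (hasDerivAt_P κ (1 - y)).comp y h3
    have h4 : HasDerivAt (fun y : ℝ => Q κ 1 * (y - 1 / 2)) (Q κ 1) y := by
      have h5 := ((hasDerivAt_id y).sub_const (1 / 2 : ℝ)).const_mul (Q κ 1)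
      rw [mul_one] at h5
      exact h5
    refine ((h1.fun_sub h2).fun_sub h4).congr_deriv ?_
    rw [← Q_add κ y]; ring
  have hc := is_const_of_deriv_eq_zero (f := fun y => P κ y - P κ (1 - y) - Q κ 1 * (y - 1 / 2))
    (fun y => (hd y).differentiableAt) (fun y => (hd y).deriv) x (1 / 2)
  have e : P κ (1 / 2) - P κ (1 - 1 / 2) - Q κ 1 * (1 / 2 - 1 / 2) = 0 := by norm_num
  rw [e] at hc
  linarith

lemma P_of_one_le {κ x : ℝ} (hκ : 0 < κ) (hx : 1 ≤ x) : P κ x = Q κ 1 * (x - 1 / 2) := by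
  rw [P_symm, P_of_nonpos hκ (by linarith), zero_add]

lemma P_mono {κ : ℝ} (hκ : 0 < κ) : Monotone (P κ) := by
  apply monotone_of_deriv_nonneg
  · exact fun x => (hasDerivAt_P κ x).differentiableAt
  · intro x
    rw [(hasDerivAt_P κ x).deriv]
    exact Q_nonneg hκ x

lemma P_nonneg {κ : ℝ} (hκ : 0 < κ) (x : ℝ) : 0 ≤ P κ x := by
  rcases le_total x 0 with h | h
  · rw [P_of_nonpos hκ h]
  · have : P κ 0 = 0 := P_of_nonpos hκ le_rfl
    rw [← this]; exact P_mono hκ h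

lemma P_le {κ : ℝ} (hκ : 0 < κ) (x : ℝ) (hx : 0 ≤ x) : P κ x ≤ x := by
  unfold P
  have h : ∫ y in (0:ℝ)..x, Q κ y ≤ ∫ y in (0:ℝ)..x, (1:ℝ) :=
    intervalIntegral.integral_mono_on hx ((Q_continuous κ).intervalIntegrable _ _)
      (continuous_const.intervalIntegrable _ _) (fun y _ => Q_le_one hκ y)
  simpa using h

/-- scaled blocks: `blk κ l L` has second derivative the trapezoid on `[l, l + L]`. -/
noncomputable def blk (κ l L x : ℝ) : ℝ := L ^ 2 * P κ ((x - l) / L)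
noncomputable def blk' (κ l L x : ℝ) : ℝ := L * Q κ ((x - l) / L)
noncomputable def blk'' (κ l L x : ℝ) : ℝ := tr κ ((x - l) / L)

lemma hasDerivAt_affine {l L x : ℝ} : HasDerivAt (fun x => (x - l) / L) (1 / L) x := by
  simpa using ((hasDerivAt_id x).sub_const l).div_const L

lemma hasDerivAt_blk {κ l L : ℝ} (hL : 0 < L) (x : ℝ) :
    HasDerivAt (blk κ l L) (blk' κ l L x) x := by
  have h := ((hasDerivAt_P κ ((x - l) / L)).comp x (hasDerivAt_affine (l := l) (L := L))).const_mul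
    (L ^ 2)
  refine h.congr_deriv ?_
  unfold blk'
  field_simp

lemma hasDerivAt_blk' {κ l L : ℝ} (hL : 0 < L) (x : ℝ) :
    HasDerivAt (blk' κ l L) (blk'' κ l L x) x := by
  have h := ((hasDerivAt_Q κ ((x - l) / L)).comp x (hasDerivAt_affine (l := l) (L := L))).const_mul
    L
  refine h.congr_deriv ?_
  unfold blk''
  field_simp

lemma continuous_blk'' (κ l L : ℝ) : Continuous (blk'' κ l L) := by
  unfold blk''
  exact (tr_continuous κ).comp (by fun_prop)

lemma blk_left {κ l L x : ℝ} (hκ : 0 < κ) (hL : 0 < L) (hx : x ≤ l) :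
    blk κ l L x = 0 ∧ blk' κ l L x = 0 ∧ blk'' κ l L x = 0 := by
  have h : (x - l) / L ≤ 0 := div_nonpos_of_nonpos_of_nonneg (by linarith) hL.le
  unfold blk blk' blk''
  rw [P_of_nonpos hκ h, Q_of_nonpos hκ h, tr_of_nonpos hκ h]
  simp

lemma blk_right {κ l L x : ℝ} (hκ : 0 < κ) (hL : 0 < L) (hx : l + L ≤ x) :
    blk κ l L x = Q κ 1 * (L * (x - l - L / 2)) ∧ blk' κ l L x = Q κ 1 * L ∧
    blk'' κ l L x = 0 := by
  have h : 1 ≤ (x - l) / L := by rw [le_div_iff₀ hL]; linarith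
  unfold blk blk' blk''
  rw [P_of_one_le hκ h, Q_of_one_le hκ h, tr_of_one_le hκ h]
  refine ⟨?_, by ring, rfl⟩
  field_simp

lemma blk''_plateau {κ l L x : ℝ} (hκ : 0 < κ) (hL : 0 < L) (h1 : l + κ * L ≤ x)
    (h2 : x ≤ l + L - κ * L) : blk'' κ l L x = 1 := by
  unfold blk''
  apply tr_eq_one hκ
  · rw [le_div_iff₀ hL]; linarith
  · rw [div_le_iff₀ hL]; linarith

lemma blk'_bound {κ l L : ℝ} (hκ : 0 < κ) (hL : 0 < L) (x : ℝ) :
    0 ≤ blk' κ l L x ∧ blk' κ l L x ≤ L := by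
  unfold blk'
  have h1 := Q_nonneg hκ ((x - l) / L)
  have h2 := Q_le_one hκ ((x - l) / L)
  exact ⟨by positivity, by nlinarith⟩

lemma blk''_bound {κ l L : ℝ} (x : ℝ) : 0 ≤ blk'' κ l L x ∧ blk'' κ l L x ≤ 1 :=
  ⟨tr_nonneg _ _, tr_le_one _ _⟩

/-- bound of the block in a window of length `k` starting before `l`. -/
lemma blk_bound {κ l L k X x : ℝ} (hκ : 0 < κ) (hL : 0 < L) (hLk : L ≤ k) (hX : X ≤ l)
    (hx : x ≤ X + k) : 0 ≤ blk κ l L x ∧ blk κ l L x ≤ k ^ 2 := by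
  rcases le_total x l with h | h
  · rw [(blk_left hκ hL h).1]
    exact ⟨le_rfl, by positivity⟩
  · have h0 : 0 ≤ (x - l) / L := div_nonneg (by linarith) hL.le
    unfold blk
    have h1 := P_nonneg hκ ((x - l) / L)
    have h2 := P_le hκ ((x - l) / L) h0
    refine ⟨by positivity, ?_⟩
    calc L ^ 2 * P κ ((x - l) / L) ≤ L ^ 2 * ((x - l) / L) := by gcongr
      _ = L * (x - l) := by field_simp
      _ ≤ k * k := by
          apply mul_le_mul hLk _ (by linarith) (by linarith)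
          linarith
      _ = k ^ 2 := by ring

end Pool.Agent.Lib.MP_784f1f_an
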