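import Pool.Agent.Lib.MP_784f1f_an.Reg
import Pool.Agent.Lib.MP_784f1f_an.Profile

set_option autoImplicit false
open MeasureTheory Filter Topology Set

namespace Pool.Agent.Lib.MP_784f1f_an

/-- closed rectangle -/
def cR (s0 s1 x0 x1 : ℝ) : Set (ℝ × ℝ) := Icc s0 s1 ×ˢ Icc x0 x1
/-- open rectangle -/
def oR (s0 s1 x0 x1 : ℝ) : Set (ℝ × ℝ) := Ioo s0 s1 ×ˢ Ioo x0 x1

lemma mem_cR {s0 s1 x0 x1 : ℝ} {z : ℝ × ℝ} :
    z ∈ cR s0 s1 x0 x1 ↔ (s0 ≤ z.1 ∧ z.1 ≤ s1) ∧ (x0 ≤ z.2 ∧ z.2 ≤ x1) := Iff.rfl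

lemma mem_oR {s0 s1 x0 x1 : ℝ} {z : ℝ × ℝ} :
    z ∈ oR s0 s1 x0 x1 ↔ (s0 < z.1 ∧ z.1 < s1) ∧ (x0 < z.2 ∧ z.2 < x1) := Iff.rfl

lemma measurableSet_cR (s0 s1 x0 x1 : ℝ) : MeasurableSet (cR s0 s1 x0 x1) :=
  measurableSet_Icc.prod measurableSet_Icc

lemma volume_cR {s0 s1 x0 x1 : ℝ} (hs : s0 ≤ s1) :
    volume (cR s0 s1 x0 x1) = ENNReal.ofReal ((s1 - s0) * (x1 - x0)) := by
  unfold cR
  rw [Measure.volume_eq_prod, Measure.prod_prod, Real.volume_Icc, Real.volume_Icc,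
    ENNReal.ofReal_mul (by linarith)]

lemma oR_subset_cR {s0 s1 x0 x1 : ℝ} : oR s0 s1 x0 x1 ⊆ cR s0 s1 x0 x1 :=
  Set.prod_mono Ioo_subset_Icc_self Ioo_subset_Icc_self

/-- the state is close to `(a, b)` on `R` -/
def Near (φ : Reg) (a b η : ℝ) (R : Set (ℝ × ℝ)) : Prop :=
  ∀ z ∈ R, |φ.ft z.1 z.2 - a| ≤ η ∧ |φ.fxx z.1 z.2 - b| ≤ η

/-- Local improvement: on every rectangle where the state is `η`-close to `(a,b)` one can perturb so
that the average of `G` of the new state is at most `g + ε`. -/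
def LI (G : ℝ × ℝ → ENNReal) (g a b η : ℝ) : Prop :=
  ∀ s0 s1 x0 x1 : ℝ, s0 < s1 → x0 < x1 → ∀ ε : ℝ, 0 < ε →
    ∃ ψ : Reg, ψ.SuppIn (oR s0 s1 x0 x1) ∧ ψ.Small ε ∧
      ∀ φ : Reg, Near φ a b η (cR s0 s1 x0 x1) →
        ∫⁻ z in cR s0 s1 x0 x1, G ((φ.add ψ).st z) ≤
          ENNReal.ofReal ((g + ε) * ((s1 - s0) * (x1 - x0)))

lemma LI.mono {G : ℝ × ℝ → ENNReal} {g g' a b η : ℝ} (h : LI G g a b η) (hg : g ≤ g') :
    LI G g' a b η := by
  intro s0 s1 x0 x1 hs hx ε hε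
  obtain ⟨ψ, h1, h2, h3⟩ := h s0 s1 x0 x1 hs hx ε hε
  refine ⟨ψ, h1, h2, fun φ hφ => (h3 φ hφ).trans ?_⟩
  apply ENNReal.ofReal_le_ofReal
  apply mul_le_mul_of_nonneg_right (by linarith)
  apply mul_nonneg <;> linarith

/-- doing nothing -/
lemma LI_nothing {G : ℝ × ℝ → ENNReal} {g a b η : ℝ} (hg : 0 ≤ g)
    (h : ∀ p : ℝ × ℝ, |p.1 - a| ≤ η → |p.2 - b| ≤ η → G p ≤ ENNReal.ofReal g) :
    LI G g a b η := by
  intro s0 s1 x0 x1 hs hx ε hε
  refine ⟨Reg.zero, fun z _ => ⟨rfl, rfl, rfl, rfl⟩, fun z => ?_, fun φ hφ => ?_⟩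
  · simp only [Reg.zero, abs_zero]
    exact ⟨hε.le, hε.le⟩
  · have h1 : ∀ z ∈ cR s0 s1 x0 x1, G ((φ.add Reg.zero).st z) ≤ ENNReal.ofReal g := by
      intro z hz
      apply h
      · simp only [Reg.st, Reg.add, Reg.zero, add_zero]; exact (hφ z hz).1
      · simp only [Reg.st, Reg.add, Reg.zero, add_zero]; exact (hφ z hz).2
    calc ∫⁻ z in cR s0 s1 x0 x1, G ((φ.add Reg.zero).st z)
        ≤ ∫⁻ z in cR s0 s1 x0 x1, ENNReal.ofReal g :=
          setLIntegral_mono' (measurableSet_cR _ _ _ _) h1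
      _ = ENNReal.ofReal g * ENNReal.ofReal ((s1 - s0) * (x1 - x0)) := by
          rw [setLIntegral_const, volume_cR hs.le]
      _ = ENNReal.ofReal (g * ((s1 - s0) * (x1 - x0))) := by
          rw [ENNReal.ofReal_mul hg]
      _ ≤ ENNReal.ofReal ((g + ε) * ((s1 - s0) * (x1 - x0))) := by
          apply ENNReal.ofReal_le_ofReal
          apply mul_le_mul_of_nonneg_right (by linarith)
          apply mul_nonneg <;> linarith

/-- invariance under negation -/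
lemma LI.neg {G : ℝ × ℝ → ENNReal} (hG : ∀ p : ℝ × ℝ, G (-p.1, -p.2) = G p) {g a b η : ℝ}
    (h : LI G g a b η) : LI G g (-a) (-b) η := by
  intro s0 s1 x0 x1 hs hx ε hε
  obtain ⟨ψ, h1, h2, h3⟩ := h s0 s1 x0 x1 hs hx ε hε
  refine ⟨ψ.neg, h1.neg, h2.neg, fun φ hφ => ?_⟩
  have h4 := h3 φ.neg (by
    intro z hz
    obtain ⟨e1, e2⟩ := hφ z hz
    simp only [Reg.neg]
    constructor
    · rw [← abs_neg]; convert e1 using 2; ring
    · rw [← abs_neg]; convert e2 using 2; ring)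
  refine le_trans (le_of_eq ?_) h4
  congr 1
  ext z
  rw [← hG ((φ.neg.add ψ).st z)]
  congr 1
  simp only [Reg.st, Reg.add, Reg.neg]
  ext
  · simp only; ring
  · simp only; ring

lemma lintegral_finset_le {ι : Type} (S : Finset ι) (t : ι → Set (ℝ × ℝ)) (F : ℝ × ℝ → ENNReal) :
    ∫⁻ z in ⋃ i ∈ S, t i, F z ≤ ∑ i ∈ S, ∫⁻ z in t i, F z := by
  classical
  induction S using Finset.induction_on with
  | empty => simp
  | insert i S hi ih =>
    rw [Finset.set_biUnion_insert, Finset.sum_insert hi]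
    exact (lintegral_union_le _ _ _).trans (add_le_add le_rfl ih)

/-- **Refinement.** -/
lemma refine_step {ι : Type} (S : Finset ι) {G : ℝ × ℝ → ENNReal} {a b η ε m C ρ s0 s1 x0 x1 : ℝ}
    (hε : 0 < ε)
    (t0 t1 y0 y1 α β g : ι → ℝ) (ht : ∀ i ∈ S, t0 i < t1 i) (hy : ∀ i ∈ S, y0 i < y1 i)
    (hsub : ∀ i ∈ S, cR (t0 i) (t1 i) (y0 i) (y1 i) ⊆ cR s0 s1 x0 x1)
    (hsub' : ∀ i ∈ S, oR (t0 i) (t1 i) (y0 i) (y1 i) ⊆ oR s0 s1 x0 x1)
    (hdisj : ∀ i ∈ S, ∀ j ∈ S, i ≠ j →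
      Disjoint (cR (t0 i) (t1 i) (y0 i) (y1 i)) (cR (t0 j) (t1 j) (y0 j) (y1 j)))
    (ψb : Reg) (hb1 : ψb.SuppIn (oR s0 s1 x0 x1)) (hb2 : ψb.Small (ε / 2))
    (hb3 : ∀ z : ℝ × ℝ, |ψb.ft z.1 z.2| ≤ m ∧ |ψb.fxx z.1 z.2| ≤ m)
    (hb4 : ∀ i ∈ S, ∀ z ∈ cR (t0 i) (t1 i) (y0 i) (y1 i),
      ψb.ft z.1 z.2 = α i ∧ ψb.fxx z.1 z.2 = β i)
    (hLI : ∀ i ∈ S, LI G (g i) (a + α i) (b + β i) η)
    (hG : ∀ p : ℝ × ℝ, |p.1| ≤ |a| + η + m → |p.2| ≤ |b| + η + m → G p ≤ ENNReal.ofReal C)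
    (hρ : volume (cR s0 s1 x0 x1 \ ⋃ i ∈ S, cR (t0 i) (t1 i) (y0 i) (y1 i)) ≤ ENNReal.ofReal ρ) :
    ∃ ψ : Reg, ψ.SuppIn (oR s0 s1 x0 x1) ∧ ψ.Small ε ∧
      ∀ φ : Reg, Near φ a b η (cR s0 s1 x0 x1) →
        ∫⁻ z in cR s0 s1 x0 x1, G ((φ.add ψ).st z) ≤
          (∑ i ∈ S, ENNReal.ofReal ((g i + ε / 2) * ((t1 i - t0 i) * (y1 i - y0 i)))) +
            ENNReal.ofReal C * ENNReal.ofReal ρ := by
  classical
  -- choose the perturbations in the subrectangles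
  have hch : ∀ i : ι, ∃ ψ : Reg, i ∈ S → (ψ.SuppIn (oR (t0 i) (t1 i) (y0 i) (y1 i)) ∧
      ψ.Small (ε / 2) ∧ ∀ φ : Reg, Near φ (a + α i) (b + β i) η (cR (t0 i) (t1 i) (y0 i) (y1 i)) →
        ∫⁻ z in cR (t0 i) (t1 i) (y0 i) (y1 i), G ((φ.add ψ).st z) ≤
          ENNReal.ofReal ((g i + ε / 2) * ((t1 i - t0 i) * (y1 i - y0 i)))) := by
    intro i
    by_cases hi : i ∈ S
    · obtain ⟨ψ, h⟩ := hLI i hi _ _ _ _ (ht i hi) (hy i hi) (ε / 2) (by positivity)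
      exact ⟨ψ, fun _ => h⟩
    · exact ⟨Reg.zero, fun h => absurd h hi⟩
  choose ψ hψ using hch
  set Ψ := Reg.sum S ψ with hΨ
  have hsupp : ∀ i ∈ S, (ψ i).SuppIn (oR (t0 i) (t1 i) (y0 i) (y1 i)) := fun i hi => (hψ i hi).1
  have hdis' : ∀ i ∈ S, ∀ j ∈ S, i ≠ j →
      Disjoint (oR (t0 i) (t1 i) (y0 i) (y1 i)) (oR (t0 j) (t1 j) (y0 j) (y1 j)) :=
    fun i hi j hj hij => (hdisj i hi j hj hij).mono oR_subset_cR oR_subset_cR
  refine ⟨ψb.add Ψ, ?_, ?_, ?_⟩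
  · apply Reg.SuppIn.add hb1
    apply Reg.SuppIn.sum
    exact fun i hi => (hsupp i hi).mono (hsub' i hi)
  · have h1 : Ψ.Small (ε / 2) := Reg.small_sum (by positivity) hsupp
      (fun i hi => (hψ i hi).2.1) hdis'
    have h2 := hb2.add h1
    rwa [add_halves] at h2
  · intro φ hφ
    set V := ⋃ i ∈ S, cR (t0 i) (t1 i) (y0 i) (y1 i) with hV
    have hVm : MeasurableSet V :=
      Finset.measurableSet_biUnion S (fun i _ => measurableSet_cR _ _ _ _)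
    have hcover : cR s0 s1 x0 x1 ⊆ V ∪ (cR s0 s1 x0 x1 \ V) := by
      intro z hz
      by_cases h : z ∈ V
      · exact Or.inl h
      · exact Or.inr ⟨hz, h⟩
    have hmain : ∫⁻ z in V, G ((φ.add (ψb.add Ψ)).st z) ≤
        ∑ i ∈ S, ENNReal.ofReal ((g i + ε / 2) * ((t1 i - t0 i) * (y1 i - y0 i))) := by
      rw [hV]
      refine (lintegral_finset_le S _ _).trans ?_
      apply Finset.sum_le_sum
      intro i hi
      have hnear : Near (φ.add ψb) (a + α i) (b + β i) η (cR (t0 i) (t1 i) (y0 i) (y1 i)) := by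
        intro z hz
        obtain ⟨e1, e2⟩ := hφ z (hsub i hi hz)
        obtain ⟨e3, e4⟩ := hb4 i hi z hz
        simp only [Reg.add]
        rw [e3, e4]
        constructor
        · convert e1 using 2; ring
        · convert e2 using 2; ring
      refine le_trans (le_of_eq ?_) ((hψ i hi).2.2 (φ.add ψb) hnear)
      apply setLIntegral_congr_fun (measurableSet_cR _ _ _ _)
      intro z hz
      have h1 := Reg.sum_apply_of hsupp hi (z := z) (fun j hj hji hzj =>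
        (Set.disjoint_left.mp (hdisj j hj i hi hji)) (oR_subset_cR hzj) hz)
      have e : (φ.add (ψb.add Ψ)).st z = ((φ.add ψb).add (ψ i)).st z := by
        simp only [Reg.st, Reg.add]
        rw [hΨ, h1.2.1, h1.2.2.2]
        ext
        · simp only; ring
        · simp only; ring
      simp only [e]
    have hrest : ∫⁻ z in (cR s0 s1 x0 x1 \ V), G ((φ.add (ψb.add Ψ)).st z) ≤
        ENNReal.ofReal C * ENNReal.ofReal ρ := by
      have h1 : ∀ z ∈ cR s0 s1 x0 x1 \ V, G ((φ.add (ψb.add Ψ)).st z) ≤ ENNReal.ofReal C := by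
        intro z hz
        have hzero : Ψ.ft z.1 z.2 = 0 ∧ Ψ.fxx z.1 z.2 = 0 := by
          have h2 : Ψ.SuppIn V := by
            apply Reg.SuppIn.sum
            intro i hi
            apply (hsupp i hi).mono
            refine oR_subset_cR.trans ?_
            rw [hV]
            exact Set.subset_biUnion_of_mem (u := fun i => cR (t0 i) (t1 i) (y0 i) (y1 i)) hi
          have h3 := h2 z hz.2
          exact ⟨h3.2.1, h3.2.2.2⟩
        obtain ⟨e1, e2⟩ := hφ z hz.1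
        obtain ⟨e3, e4⟩ := hb3 z
        apply hG
        · simp only [Reg.st, Reg.add]
          rw [hzero.1, add_zero]
          calc |φ.ft z.1 z.2 + ψb.ft z.1 z.2| = |(φ.ft z.1 z.2 - a) + a + ψb.ft z.1 z.2| := by
                ring_nf
            _ ≤ |φ.ft z.1 z.2 - a| + |a| + |ψb.ft z.1 z.2| := abs_add_three _ _ _
            _ ≤ |a| + η + m := by linarith
        · simp only [Reg.st, Reg.add]
          rw [hzero.2, add_zero]
          calc |φ.fxx z.1 z.2 + ψb.fxx z.1 z.2| = |(φ.fxx z.1 z.2 - b) + b + ψb.fxx z.1 z.2| := by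
                ring_nf
            _ ≤ |φ.fxx z.1 z.2 - b| + |b| + |ψb.fxx z.1 z.2| := abs_add_three _ _ _
            _ ≤ |b| + η + m := by linarith
      calc ∫⁻ z in (cR s0 s1 x0 x1 \ V), G ((φ.add (ψb.add Ψ)).st z)
          ≤ ∫⁻ z in (cR s0 s1 x0 x1 \ V), ENNReal.ofReal C :=
            setLIntegral_mono' ((measurableSet_cR _ _ _ _).diff hVm) h1
        _ = ENNReal.ofReal C * volume (cR s0 s1 x0 x1 \ V) := setLIntegral_const _ _
        _ ≤ ENNReal.ofReal C * ENNReal.ofReal ρ := by gcongr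
    calc ∫⁻ z in cR s0 s1 x0 x1, G ((φ.add (ψb.add Ψ)).st z)
        ≤ ∫⁻ z in V ∪ (cR s0 s1 x0 x1 \ V), G ((φ.add (ψb.add Ψ)).st z) :=
          lintegral_mono_set hcover
      _ ≤ _ := lintegral_union_le _ _ _
      _ ≤ _ := add_le_add hmain hrest

end Pool.Agent.Lib.MP_784f1f_an
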