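import Mathlib

set_option autoImplicit false
open MeasureTheory Filter Topology Set

namespace Pool.Agent.Lib.MP_784f1f_an

/-- A function of `(s, x)` which is continuously differentiable in `s` and twice continuously
differentiable in `x`, together with its derivatives. -/
structure Reg where
  f : ℝ → ℝ → ℝ
  ft : ℝ → ℝ → ℝ
  fx : ℝ → ℝ → ℝ
  fxx : ℝ → ℝ → ℝ
  cf : Continuous (fun z : ℝ × ℝ => f z.1 z.2)
  cft : Continuous (fun z : ℝ × ℝ => ft z.1 z.2)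
  cfx : Continuous (fun z : ℝ × ℝ => fx z.1 z.2)
  cfxx : Continuous (fun z : ℝ × ℝ => fxx z.1 z.2)
  dt : ∀ s x, HasDerivAt (fun s => f s x) (ft s x) s
  dx : ∀ s x, HasDerivAt (fun x => f s x) (fx s x) x
  dxx : ∀ s x, HasDerivAt (fun x => fx s x) (fxx s x) x

namespace Reg

/-- sum of two -/
def add (φ ψ : Reg) : Reg where
  f s x := φ.f s x + ψ.f s x
  ft s x := φ.ft s x + ψ.ft s x
  fx s x := φ.fx s x + ψ.fx s x
  fxx s x := φ.fxx s x + ψ.fxx s x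
  cf := φ.cf.add ψ.cf
  cft := φ.cft.add ψ.cft
  cfx := φ.cfx.add ψ.cfx
  cfxx := φ.cfxx.add ψ.cfxx
  dt s x := (φ.dt s x).fun_add (ψ.dt s x)
  dx s x := (φ.dx s x).fun_add (ψ.dx s x)
  dxx s x := (φ.dxx s x).fun_add (ψ.dxx s x)

/-- the negative -/
def neg (φ : Reg) : Reg where
  f s x := - φ.f s x
  ft s x := - φ.ft s x
  fx s x := - φ.fx s x
  fxx s x := - φ.fxx s x
  cf := φ.cf.neg
  cft := φ.cft.neg
  cfx := φ.cfx.neg
  cfxx := φ.cfxx.neg
  dt s x := (φ.dt s x).fun_neg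
  dx s x := (φ.dx s x).fun_neg
  dxx s x := (φ.dxx s x).fun_neg

/-- zero -/
def zero : Reg where
  f _ _ := 0
  ft _ _ := 0
  fx _ _ := 0
  fxx _ _ := 0
  cf := continuous_const
  cft := continuous_const
  cfx := continuous_const
  cfxx := continuous_const
  dt _ _ := hasDerivAt_const _ _
  dx _ _ := hasDerivAt_const _ _
  dxx _ _ := hasDerivAt_const _ _

/-- finite sums -/
def sum {ι : Type*} (S : Finset ι) (ψ : ι → Reg) : Reg where
  f s x := ∑ i ∈ S, (ψ i).f s x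
  ft s x := ∑ i ∈ S, (ψ i).ft s x
  fx s x := ∑ i ∈ S, (ψ i).fx s x
  fxx s x := ∑ i ∈ S, (ψ i).fxx s x
  cf := continuous_finsetSum _ fun i _ => (ψ i).cf
  cft := continuous_finsetSum _ fun i _ => (ψ i).cft
  cfx := continuous_finsetSum _ fun i _ => (ψ i).cfx
  cfxx := continuous_finsetSum _ fun i _ => (ψ i).cfxx
  dt s x := HasDerivAt.fun_sum fun i _ => (ψ i).dt s x
  dx s x := HasDerivAt.fun_sum fun i _ => (ψ i).dx s x
  dxx s x := HasDerivAt.fun_sum fun i _ => (ψ i).dxx s x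

/-- tensor products -/
def prod (u u' v v' v'' : ℝ → ℝ) (hu : ∀ s, HasDerivAt u (u' s) s) (hv : ∀ x, HasDerivAt v (v' x) x)
    (hv' : ∀ x, HasDerivAt v' (v'' x) x) (cu' : Continuous u') (cv'' : Continuous v'') : Reg where
  f s x := u s * v x
  ft s x := u' s * v x
  fx s x := u s * v' x
  fxx s x := u s * v'' x
  cf := by
    have h1 : Continuous u := continuous_iff_continuousAt.mpr fun s => (hu s).continuousAt
    have h2 : Continuous v := continuous_iff_continuousAt.mpr fun s => (hv s).continuousAt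
    fun_prop
  cft := by
    have h2 : Continuous v := continuous_iff_continuousAt.mpr fun s => (hv s).continuousAt
    fun_prop
  cfx := by
    have h1 : Continuous u := continuous_iff_continuousAt.mpr fun s => (hu s).continuousAt
    have h2 : Continuous v' := continuous_iff_continuousAt.mpr fun s => (hv' s).continuousAt
    fun_prop
  cfxx := by
    have h1 : Continuous u := continuous_iff_continuousAt.mpr fun s => (hu s).continuousAt
    fun_prop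
  dt s x := (hu s).mul_const (v x)
  dx s x := (hv x).const_mul (u s)
  dxx s x := (hv' x).const_mul (u s)

/-- The state `(∂ₛ φ, ∂ₓₓ φ)`. -/
def st (φ : Reg) (z : ℝ × ℝ) : ℝ × ℝ := (φ.ft z.1 z.2, φ.fxx z.1 z.2)

lemma continuous_st (φ : Reg) : Continuous φ.st := φ.cft.prodMk φ.cfxx

/-- all the data vanish outside `U` -/
def SuppIn (ψ : Reg) (U : Set (ℝ × ℝ)) : Prop := ∀ z : ℝ × ℝ, z ∉ U →
  ψ.f z.1 z.2 = 0 ∧ ψ.ft z.1 z.2 = 0 ∧ ψ.fx z.1 z.2 = 0 ∧ ψ.fxx z.1 z.2 = 0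

/-- sup bounds on the function and its `x`-derivative -/
def Small (ψ : Reg) (ε : ℝ) : Prop := ∀ z : ℝ × ℝ, |ψ.f z.1 z.2| ≤ ε ∧ |ψ.fx z.1 z.2| ≤ ε

lemma SuppIn.mono {ψ : Reg} {U V : Set (ℝ × ℝ)} (h : ψ.SuppIn U) (hUV : U ⊆ V) : ψ.SuppIn V :=
  fun z hz => h z (fun hz' => hz (hUV hz'))

lemma SuppIn.add {φ ψ : Reg} {U : Set (ℝ × ℝ)} (h1 : φ.SuppIn U) (h2 : ψ.SuppIn U) :
    (φ.add ψ).SuppIn U := by
  intro z hz
  obtain ⟨a1, a2, a3, a4⟩ := h1 z hz
  obtain ⟨b1, b2, b3, b4⟩ := h2 z hz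
  simp only [Reg.add, a1, a2, a3, a4, b1, b2, b3, b4, add_zero, and_self]

lemma SuppIn.neg {φ : Reg} {U : Set (ℝ × ℝ)} (h1 : φ.SuppIn U) : (φ.neg).SuppIn U := by
  intro z hz
  obtain ⟨a1, a2, a3, a4⟩ := h1 z hz
  simp only [Reg.neg, a1, a2, a3, a4, neg_zero, and_self]

lemma SuppIn.sum {ι : Type*} {S : Finset ι} {ψ : ι → Reg} {U : Set (ℝ × ℝ)}
    (h : ∀ i ∈ S, (ψ i).SuppIn U) : (Reg.sum S ψ).SuppIn U := by
  intro z hz
  simp only [Reg.sum]
  refine ⟨Finset.sum_eq_zero fun i hi => (h i hi z hz).1,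
    Finset.sum_eq_zero fun i hi => (h i hi z hz).2.1,
    Finset.sum_eq_zero fun i hi => (h i hi z hz).2.2.1,
    Finset.sum_eq_zero fun i hi => (h i hi z hz).2.2.2⟩

lemma Small.add {φ ψ : Reg} {a b : ℝ} (h1 : φ.Small a) (h2 : ψ.Small b) :
    (φ.add ψ).Small (a + b) := by
  intro z
  exact ⟨(abs_add_le _ _).trans (add_le_add (h1 z).1 (h2 z).1),
    (abs_add_le _ _).trans (add_le_add (h1 z).2 (h2 z).2)⟩

lemma Small.neg {φ : Reg} {a : ℝ} (h1 : φ.Small a) : (φ.neg).Small a := by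
  intro z
  simp only [Reg.neg, abs_neg]
  exact h1 z

lemma Small.mono {φ : Reg} {a b : ℝ} (h1 : φ.Small a) (hab : a ≤ b) : φ.Small b :=
  fun z => ⟨(h1 z).1.trans hab, (h1 z).2.trans hab⟩

/-- Gluing: where `z` lies outside the supports of all but the `i`-th term. -/
lemma sum_apply_of {ι : Type*} {S : Finset ι} {ψ : ι → Reg} {U : ι → Set (ℝ × ℝ)}
    (h : ∀ i ∈ S, (ψ i).SuppIn (U i)) {i : ι} (hi : i ∈ S) {z : ℝ × ℝ}
    (hz : ∀ j ∈ S, j ≠ i → z ∉ U j) :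
    (Reg.sum S ψ).f z.1 z.2 = (ψ i).f z.1 z.2 ∧ (Reg.sum S ψ).ft z.1 z.2 = (ψ i).ft z.1 z.2 ∧
    (Reg.sum S ψ).fx z.1 z.2 = (ψ i).fx z.1 z.2 ∧
    (Reg.sum S ψ).fxx z.1 z.2 = (ψ i).fxx z.1 z.2 := by
  simp only [Reg.sum]
  refine ⟨Finset.sum_eq_single i (fun j hj hji => (h j hj z (hz j hj hji)).1)
      (fun hn => absurd hi hn),
    Finset.sum_eq_single i (fun j hj hji => (h j hj z (hz j hj hji)).2.1)
      (fun hn => absurd hi hn),
    Finset.sum_eq_single i (fun j hj hji => (h j hj z (hz j hj hji)).2.2.1)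
      (fun hn => absurd hi hn),
    Finset.sum_eq_single i (fun j hj hji => (h j hj z (hz j hj hji)).2.2.2)
      (fun hn => absurd hi hn)⟩

lemma small_sum {ι : Type*} {S : Finset ι} {ψ : ι → Reg} {U : ι → Set (ℝ × ℝ)} {ε : ℝ}
    (hε : 0 ≤ ε) (h : ∀ i ∈ S, (ψ i).SuppIn (U i)) (hs : ∀ i ∈ S, (ψ i).Small ε)
    (hd : ∀ i ∈ S, ∀ j ∈ S, i ≠ j → Disjoint (U i) (U j)) : (Reg.sum S ψ).Small ε := by
  intro z
  by_cases hz : ∃ i ∈ S, z ∈ U i
  · obtain ⟨i, hi, hzi⟩ := hz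
    have h1 := sum_apply_of h hi (z := z) (fun j hj hji hzj =>
      (Set.disjoint_left.mp (hd j hj i hi hji)) hzj hzi)
    rw [h1.1, h1.2.2.1]
    exact hs i hi z
  · have h1 : (Reg.sum S ψ).f z.1 z.2 = 0 ∧ (Reg.sum S ψ).ft z.1 z.2 = 0 ∧
        (Reg.sum S ψ).fx z.1 z.2 = 0 ∧ (Reg.sum S ψ).fxx z.1 z.2 = 0 := by
      have : (Reg.sum S ψ).SuppIn (⋃ i ∈ S, U i) := by
        apply SuppIn.sum
        intro i hi
        apply (h i hi).mono
        intro y hy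
        simp only [Set.mem_iUnion]
        exact ⟨i, hi, hy⟩
      apply this z
      intro hz'
      apply hz
      simp only [Set.mem_iUnion] at hz'
      obtain ⟨i, hi, hzi⟩ := hz'
      exact ⟨i, hi, hzi⟩
    rw [h1.1, h1.2.2.1, abs_zero]
    exact ⟨hε, hε⟩

end Reg

end Pool.Agent.Lib.MP_784f1f_an
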