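import Pool.Agent.Lib.MP_784f1f_an.Local

set_option autoImplicit false
open MeasureTheory Filter Topology Set

namespace Pool.Agent.Lib.MP_784f1f_an

/-- plateau functions -/
lemma exists_plateau {l r κ : ℝ} (hlr : l < r) (hκ : 0 < κ) (hκ' : κ < 1 / 2) :
    ∃ (χ χ' χ'' : ℝ → ℝ) (K : ℝ), 0 ≤ K ∧ (∀ x, HasDerivAt χ (χ' x) x) ∧
      (∀ x, HasDerivAt χ' (χ'' x) x) ∧ Continuous χ' ∧ Continuous χ'' ∧
      (∀ x, |χ x| ≤ 1 ∧ |χ' x| ≤ K ∧ |χ'' x| ≤ K) ∧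
      (∀ x, x ∉ Ioo l r → χ x = 0 ∧ χ' x = 0 ∧ χ'' x = 0) ∧
      (∀ x, l + κ * (r - l) ≤ x → x ≤ r - κ * (r - l) → χ x = 1 ∧ χ' x = 0 ∧ χ'' x = 0) := by
  have hD : 0 < r - l := by linarith
  let f : ContDiffBump ((l + r) / 2 : ℝ) :=
    { rIn := (1 / 2 - κ / 2) * (r - l)
      rOut := (1 / 2 - κ / 4) * (r - l)
      rIn_pos := by apply mul_pos _ hD; linarith
      rIn_lt_rOut := by apply mul_lt_mul_of_pos_right _ hD; linarith }
  have hf : ContDiff ℝ 2 (f : ℝ → ℝ) := f.contDiff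
  have hf1 : Differentiable ℝ (f : ℝ → ℝ) := hf.differentiable (by norm_num)
  have hf2 : ContDiff ℝ 1 (deriv (f : ℝ → ℝ)) := by
    have : ContDiff ℝ (1 + 1) (f : ℝ → ℝ) := by
      have e : (1 + 1 : WithTop ℕ∞) = 2 := by norm_num
      rw [e]; exact hf
    rw [contDiff_succ_iff_deriv] at this
    exact this.2.2
  have hf3 : Differentiable ℝ (deriv (f : ℝ → ℝ)) := hf2.differentiable (by norm_num)
  have hf4 : Continuous (deriv (deriv (f : ℝ → ℝ))) := by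
    exact hf2.continuous_deriv (by norm_num)
  have hsupp : HasCompactSupport (f : ℝ → ℝ) := f.hasCompactSupport
  obtain ⟨K1, hK1⟩ := hf2.continuous.bounded_above_of_compact_support hsupp.deriv
  obtain ⟨K2, hK2⟩ := hf4.bounded_above_of_compact_support hsupp.deriv.deriv
  have hloc0 : ∀ x, x ∉ Ioo l r → (f : ℝ → ℝ) =ᶠ[𝓝 x] fun _ => 0 := by
    intro x hx
    have hx' : x ∉ Metric.closedBall ((l + r) / 2) ((1 / 2 - κ / 4) * (r - l)) := by
      intro hmem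
      apply hx
      rw [Metric.mem_closedBall, Real.dist_eq, abs_le] at hmem
      constructor <;> nlinarith [hmem.1, hmem.2]
    have hopen : IsOpen (Metric.closedBall ((l + r) / 2) ((1 / 2 - κ / 4) * (r - l)))ᶜ :=
      Metric.isClosed_closedBall.isOpen_compl
    filter_upwards [hopen.mem_nhds hx'] with y hy
    apply f.zero_of_le_dist
    have : ¬ dist y ((l + r) / 2) ≤ (1 / 2 - κ / 4) * (r - l) := hy
    exact (not_le.mp this).le
  have hloc1 : ∀ x, l + κ * (r - l) ≤ x → x ≤ r - κ * (r - l) →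
      (f : ℝ → ℝ) =ᶠ[𝓝 x] fun _ => 1 := by
    intro x h1 h2
    have hx' : x ∈ Metric.ball ((l + r) / 2) ((1 / 2 - κ / 2) * (r - l)) := by
      rw [Metric.mem_ball, Real.dist_eq, abs_lt]
      constructor <;> nlinarith
    filter_upwards [Metric.isOpen_ball.mem_nhds hx'] with y hy
    exact f.one_of_mem_closedBall (Metric.ball_subset_closedBall hy)
  refine ⟨f, deriv f, deriv (deriv f), max K1 K2, ?_, fun x => (hf1 x).hasDerivAt,
    fun x => (hf3 x).hasDerivAt, hf2.continuous, hf4, ?_, ?_, ?_⟩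
  · have := (norm_nonneg _).trans (hK1 0)
    exact this.trans (le_max_left _ _)
  · intro x
    refine ⟨?_, (hK1 x).trans (le_max_left _ _), (hK2 x).trans (le_max_right _ _)⟩
    rw [abs_of_nonneg f.nonneg]
    exact f.le_one
  · intro x hx
    have h := hloc0 x hx
    refine ⟨h.eq_of_nhds, ?_, ?_⟩
    · rw [h.deriv_eq]; simp
    · rw [h.deriv.deriv_eq]; simp
  · intro x h1 h2
    have h := hloc1 x h1 h2
    refine ⟨h.eq_of_nhds, ?_, ?_⟩
    · rw [h.deriv_eq]; simp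
    · rw [h.deriv.deriv_eq]; simp

/-- Gluing perturbations living in non-overlapping rectangles. -/
lemma glue_step {ι : Type} (S : Finset ι) {G : ℝ × ℝ → ENNReal} {a b η ε s0 s1 x0 x1 : ℝ}
    (hε : 0 ≤ ε) (t0 t1 y0 y1 c : ι → ℝ)
    (hcover : cR s0 s1 x0 x1 ⊆ ⋃ i ∈ S, cR (t0 i) (t1 i) (y0 i) (y1 i))
    (hsub : ∀ i ∈ S, cR (t0 i) (t1 i) (y0 i) (y1 i) ⊆ cR s0 s1 x0 x1)
    (hsub' : ∀ i ∈ S, oR (t0 i) (t1 i) (y0 i) (y1 i) ⊆ oR s0 s1 x0 x1)
    (hdisj : ∀ i ∈ S, ∀ j ∈ S, i ≠ j →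
      Disjoint (cR (t0 i) (t1 i) (y0 i) (y1 i)) (oR (t0 j) (t1 j) (y0 j) (y1 j)))
    (h : ∀ i ∈ S, ∃ ψ : Reg, ψ.SuppIn (oR (t0 i) (t1 i) (y0 i) (y1 i)) ∧ ψ.Small ε ∧
      ∀ φ : Reg, Near φ a b η (cR (t0 i) (t1 i) (y0 i) (y1 i)) →
        ∫⁻ z in cR (t0 i) (t1 i) (y0 i) (y1 i), G ((φ.add ψ).st z) ≤ ENNReal.ofReal (c i)) :
    ∃ ψ : Reg, ψ.SuppIn (oR s0 s1 x0 x1) ∧ ψ.Small ε ∧
      ∀ φ : Reg, Near φ a b η (cR s0 s1 x0 x1) →
        ∫⁻ z in cR s0 s1 x0 x1, G ((φ.add ψ).st z) ≤ ∑ i ∈ S, ENNReal.ofReal (c i) := by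
  classical
  have hch : ∀ i : ι, ∃ ψ : Reg, i ∈ S → (ψ.SuppIn (oR (t0 i) (t1 i) (y0 i) (y1 i)) ∧
      ψ.Small ε ∧ ∀ φ : Reg, Near φ a b η (cR (t0 i) (t1 i) (y0 i) (y1 i)) →
        ∫⁻ z in cR (t0 i) (t1 i) (y0 i) (y1 i), G ((φ.add ψ).st z) ≤ ENNReal.ofReal (c i)) := by
    intro i
    by_cases hi : i ∈ S
    · obtain ⟨ψ, h⟩ := h i hi
      exact ⟨ψ, fun _ => h⟩
    · exact ⟨Reg.zero, fun h => absurd h hi⟩
  choose ψ hψ using hch
  have hsupp : ∀ i ∈ S, (ψ i).SuppIn (oR (t0 i) (t1 i) (y0 i) (y1 i)) := fun i hi => (hψ i hi).1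
  refine ⟨Reg.sum S ψ, ?_, ?_, ?_⟩
  · apply Reg.SuppIn.sum
    exact fun i hi => (hsupp i hi).mono (hsub' i hi)
  · exact Reg.small_sum hε hsupp (fun i hi => (hψ i hi).2.1)
      (fun i hi j hj hij => (hdisj i hi j hj hij).mono_left oR_subset_cR)
  · intro φ hφ
    refine (lintegral_mono_set hcover).trans ?_
    refine (lintegral_finset_le S _ _).trans ?_
    apply Finset.sum_le_sum
    intro i hi
    refine le_trans (le_of_eq ?_) ((hψ i hi).2.2 φ (fun z hz => hφ z (hsub i hi hz)))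
    apply setLIntegral_congr_fun (measurableSet_cR _ _ _ _)
    intro z hz
    have h1 := Reg.sum_apply_of hsupp hi (z := z) (fun j hj hji hzj =>
      (Set.disjoint_left.mp (hdisj i hi j hj (Ne.symm hji))) hz hzj)
    have e : (φ.add (Reg.sum S ψ)).st z = (φ.add (ψ i)).st z := by
      simp only [Reg.st, Reg.add]
      rw [h1.2.1, h1.2.2.2]
    simp only [e]

end Pool.Agent.Lib.MP_784f1f_an
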