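import Pool.Agent.Lib.MP_784f1f_an.Func

set_option autoImplicit false
open MeasureTheory Filter Topology Set

namespace Pool.Agent.Lib.MP_784f1f_an

/-- Covering most of a bounded open set by finitely many disjoint small closed squares. -/
lemma finite_cubes {U : Set (ℝ × ℝ)} (hfin : volume U ≠ ⊤) (R : ℝ × ℝ → ℝ)
    (hR : ∀ z ∈ U, 0 < R z) (hRU : ∀ z ∈ U, ∀ r < R z, Metric.closedBall z r ⊆ U)
    {ρ : ENNReal} (hρ : ρ ≠ 0) :
    ∃ (S : Finset (ℝ × ℝ)) (r : ℝ × ℝ → ℝ), (∀ z ∈ S, z ∈ U ∧ 0 < r z ∧ r z < R z) ∧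
      (∀ z ∈ S, ∀ z' ∈ S, z ≠ z' → Disjoint (Metric.closedBall z (r z))
        (Metric.closedBall z' (r z'))) ∧
      volume (U \ ⋃ z ∈ S, Metric.closedBall z (r z)) ≤ ρ := by
  classical
  obtain ⟨t, r, ht1, ht2, ht3, ht4, ht5⟩ := Besicovitch.exists_disjoint_closedBall_covering_ae
    (volume : Measure (ℝ × ℝ)) (fun _ => univ) U
    (fun x _ δ hδ => ⟨δ / 2, mem_univ _, by constructor <;> linarith⟩) R hR
  have : Countable t := ht1
  -- the finite unions
  let B : Finset t → Set (ℝ × ℝ) := fun F => ⋃ z ∈ F, Metric.closedBall (z : ℝ × ℝ) (r z)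
  have hBdir : Directed (fun x1 x2 => x1 ⊆ x2) B := by
    intro F F'
    refine ⟨F ∪ F', ?_, ?_⟩
    · exact Set.biUnion_subset_biUnion_left (fun x hx => Finset.mem_union_left _ hx)
    · exact Set.biUnion_subset_biUnion_left (fun x hx => Finset.mem_union_right _ hx)
  have hBU : (⋃ F, B F) = ⋃ z ∈ t, Metric.closedBall z (r z) := by
    ext x
    simp only [B, Set.mem_iUnion, exists_prop]
    constructor
    · rintro ⟨F, z, hz, hx⟩
      exact ⟨z, z.2, hx⟩
    · rintro ⟨z, hz, hx⟩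
      exact ⟨{⟨z, hz⟩}, ⟨z, hz⟩, Finset.mem_singleton_self _, hx⟩
  have hsub : (⋃ z ∈ t, Metric.closedBall z (r z)) ⊆ U := by
    intro x hx
    simp only [Set.mem_iUnion, exists_prop] at hx
    obtain ⟨z, hz, hx⟩ := hx
    exact hRU z (ht2 hz) _ (ht3 z hz).2.2 hx
  have hmU : volume (⋃ F, B F) = volume U := by
    rw [hBU]
    apply le_antisymm (measure_mono hsub)
    calc volume U ≤ volume ((⋃ z ∈ t, Metric.closedBall z (r z)) ∪
          (U \ ⋃ z ∈ t, Metric.closedBall z (r z))) := by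
          apply measure_mono
          intro x hx
          by_cases h : x ∈ ⋃ z ∈ t, Metric.closedBall z (r z)
          · exact Or.inl h
          · exact Or.inr ⟨hx, h⟩
      _ ≤ _ := measure_union_le _ _
      _ = _ := by rw [ht4, add_zero]
  rw [hBdir.measure_iUnion] at hmU
  have hBmeas : ∀ F, MeasurableSet (B F) := fun F =>
    Finset.measurableSet_biUnion F (fun i _ => Metric.isClosed_closedBall.measurableSet)
  have hBsub : ∀ F, B F ⊆ U := fun F => by
    refine Set.Subset.trans ?_ hsub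
    rw [← hBU]
    exact Set.subset_iUnion B F
  obtain ⟨F, hF⟩ : ∃ F, volume U ≤ volume (B F) + ρ := by
    by_cases h0 : volume U = 0
    · exact ⟨∅, by rw [h0]; exact zero_le⟩
    · have h1 : volume U - ρ < ⨆ F, volume (B F) := by
        rw [hmU]
        exact ENNReal.sub_lt_self hfin h0 hρ
      obtain ⟨F, hF⟩ := lt_iSup_iff.mp h1
      exact ⟨F, by
        rw [← tsub_le_iff_right]
        exact hF.le⟩
  refine ⟨F.image Subtype.val, r, ?_, ?_, ?_⟩
  · intro z hz
    obtain ⟨z', _, rfl⟩ := Finset.mem_image.mp hz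
    exact ⟨ht2 z'.2, (ht3 z' z'.2).2.1, (ht3 z' z'.2).2.2⟩
  · intro z hz z' hz' hne
    obtain ⟨y, _, rfl⟩ := Finset.mem_image.mp hz
    obtain ⟨y', _, rfl⟩ := Finset.mem_image.mp hz'
    exact ht5 y.2 y'.2 hne
  · have e : (⋃ z ∈ F.image Subtype.val, Metric.closedBall z (r z)) = B F := by
      rw [Finset.set_biUnion_finset_image]
    rw [e, measure_sdiff (hBsub F) (hBmeas F).nullMeasurableSet
      (ne_top_of_le_ne_top hfin (measure_mono (hBsub F)))]
    rw [tsub_le_iff_left]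
    exact hF

lemma closedBall_eq_cR (z : ℝ × ℝ) (r : ℝ) :
    Metric.closedBall z r = cR (z.1 - r) (z.1 + r) (z.2 - r) (z.2 + r) := by
  have : Metric.closedBall z r = Metric.closedBall z.1 r ×ˢ Metric.closedBall z.2 r := by
    rw [closedBall_prod_same]
  rw [this, Real.closedBall_eq_Icc, Real.closedBall_eq_Icc]
  rfl

/-- **The stage lemma.** -/
theorem stage {U : Set (ℝ × ℝ)} (hU : IsOpen U) (hb : Bornology.IsBounded U) (φ : Reg)
    (hbad : ∀ z ∈ U, ¬ good (φ.st z)) {ε : ℝ} (hε : 0 < ε) :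
    ∃ ψ : Reg, ψ.SuppIn U ∧ ψ.Small ε ∧
      ∫⁻ z in U, Ff ((φ.add ψ).st z) ≤
        ENNReal.ofReal 340 * (∫⁻ z in U, ENNReal.ofReal (Zf (φ.st z))) + ENNReal.ofReal ε := by
  classical
  have hfin : volume U ≠ ⊤ := hb.measure_lt_top.ne
  obtain ⟨v, hv⟩ : ∃ v, v = (volume U).toReal := ⟨_, rfl⟩
  have hv0 : 0 ≤ v := by rw [hv]; exact ENNReal.toReal_nonneg
  have hvol : volume U = ENNReal.ofReal v := by rw [hv, ENNReal.ofReal_toReal hfin]
  -- bound on `U`
  obtain ⟨M, hM⟩ : ∃ M : ℝ, ∀ z ∈ U, |(φ.st z).1| ≤ M ∧ |(φ.st z).2| ≤ M := by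
    have hK : IsCompact (closure U) := hb.isCompact_closure
    obtain ⟨M, hM⟩ := hK.exists_bound_of_continuousOn (φ.continuous_st.continuousOn)
    refine ⟨M, fun z hz => ?_⟩
    have h := hM z (subset_closure hz)
    rw [Prod.norm_def] at h
    exact ⟨(le_max_left _ _).trans h, (le_max_right _ _).trans h⟩
  obtain ⟨C, hC0, hC⟩ := Ff_locBdd M
  have hCU : ∀ z ∈ U, Ff (φ.st z) ≤ ENNReal.ofReal C := fun z hz => hC _ (hM z hz).1 (hM z hz).2
  -- parameters
  obtain ⟨ε₁, hε₁⟩ : ∃ ε₁, ε₁ = min ε (ε / (4 * (v + 1))) := ⟨_, rfl⟩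
  have hε₁0 : 0 < ε₁ := by rw [hε₁]; apply lt_min hε; positivity
  have hε₁v : ε₁ * v ≤ ε / 4 := by
    have h : ε₁ ≤ ε / (4 * (v + 1)) := by rw [hε₁]; exact min_le_right _ _
    rw [le_div_iff₀ (by positivity)] at h
    nlinarith
  obtain ⟨ε₂, hε₂⟩ : ∃ ε₂, ε₂ = ε / (4 * 340 * (v + 1)) := ⟨_, rfl⟩
  have hε₂0 : 0 < ε₂ := by rw [hε₂]; positivity
  have hε₂v : 340 * ε₂ * v ≤ ε / 4 := by
    have h : ε₂ * (4 * 340 * (v + 1)) = ε := by rw [hε₂]; field_simp
    nlinarith
  obtain ⟨ρ, hρ⟩ : ∃ ρ, ρ = ε / (4 * (C + 1)) := ⟨_, rfl⟩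
  have hρ0 : 0 < ρ := by rw [hρ]; positivity
  have hρC : C * ρ ≤ ε / 4 := by
    have h : ρ * (4 * (C + 1)) = ε := by rw [hρ]; field_simp
    nlinarith
  -- radii
  have hZc : Continuous (fun z => Zf (φ.st z)) := by
    have h1 : Continuous Zf := by unfold Zf; fun_prop
    exact h1.comp φ.continuous_st
  have hR : ∀ z : ℝ × ℝ, ∃ R : ℝ, z ∈ U → (0 < R ∧ ∀ z' ∈ Metric.ball z R, z' ∈ U ∧
      |φ.ft z'.1 z'.2 - φ.ft z.1 z.2| ≤ 1 / 4 ∧ |φ.fxx z'.1 z'.2 - φ.fxx z.1 z.2| ≤ 1 / 4 ∧
      Zf (φ.st z) ≤ Zf (φ.st z') + ε₂) := by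
    intro z
    by_cases hz : z ∈ U
    · have h1 : ∀ᶠ z' in 𝓝 z, z' ∈ U := hU.mem_nhds hz
      have h2 : ∀ᶠ z' in 𝓝 z, dist (φ.ft z'.1 z'.2) (φ.ft z.1 z.2) < 1 / 4 :=
        Metric.tendsto_nhds.mp φ.cft.continuousAt _ (by norm_num)
      have h3 : ∀ᶠ z' in 𝓝 z, dist (φ.fxx z'.1 z'.2) (φ.fxx z.1 z.2) < 1 / 4 :=
        Metric.tendsto_nhds.mp φ.cfxx.continuousAt _ (by norm_num)
      have h4 : ∀ᶠ z' in 𝓝 z, dist (Zf (φ.st z')) (Zf (φ.st z)) < ε₂ :=
        Metric.tendsto_nhds.mp hZc.continuousAt _ hε₂0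
      obtain ⟨R, hR0, hR⟩ := Metric.eventually_nhds_iff_ball.mp (h1.and (h2.and (h3.and h4)))
      refine ⟨R, fun _ => ⟨hR0, fun z' hz' => ?_⟩⟩
      obtain ⟨e1, e2, e3, e4⟩ := hR z' hz'
      rw [Real.dist_eq] at e2 e3 e4
      refine ⟨e1, e2.le, e3.le, ?_⟩
      rw [abs_lt] at e4
      linarith [e4.1]
    · exact ⟨0, fun h => absurd h hz⟩
  choose R hR using hR
  obtain ⟨S, r, hS1, hS2, hS3⟩ := finite_cubes hfin R (fun z hz => (hR z hz).1)
    (fun z hz r hr z' hz' => ((hR z hz).2 z' (Metric.closedBall_subset_ball hr hz')).1)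
    (ρ := ENNReal.ofReal ρ) (by simpa using hρ0)
  -- the perturbations
  have hch : ∀ z : ℝ × ℝ, ∃ ψ : Reg, z ∈ S →
      (ψ.SuppIn (oR (z.1 - r z) (z.1 + r z) (z.2 - r z) (z.2 + r z)) ∧ ψ.Small ε₁ ∧
      ∫⁻ y in Metric.closedBall z (r z), Ff ((φ.add ψ).st y) ≤
        ENNReal.ofReal 340 * (∫⁻ y in Metric.closedBall z (r z), ENNReal.ofReal (Zf (φ.st y))) +
          ENNReal.ofReal (340 * ε₂ + ε₁) * volume (Metric.closedBall z (r z))) := by
    intro z
    by_cases hz : z ∈ S
    · obtain ⟨hzU, hr0, hrR⟩ := hS1 z hz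
      obtain ⟨ψ, h1, h2, h3⟩ := LI_all (hbad z hzU) (z.1 - r z) (z.1 + r z) (z.2 - r z) (z.2 + r z)
        (by linarith) (by linarith) ε₁ hε₁0
      refine ⟨ψ, fun _ => ⟨h1, h2, ?_⟩⟩
      have h4 := h3 φ (by
        rw [← closedBall_eq_cR]
        intro z' hz'
        have := (hR z hzU).2 z' (Metric.closedBall_subset_ball hrR hz')
        exact ⟨this.2.1, this.2.2.1⟩)
      rw [← closedBall_eq_cR] at h4
      refine h4.trans ?_
      have hvB : volume (Metric.closedBall z (r z)) =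
          ENNReal.ofReal ((z.1 + r z - (z.1 - r z)) * (z.2 + r z - (z.2 - r z))) := by
        rw [closedBall_eq_cR, volume_cR (by linarith)]
      have hA0 : 0 ≤ (z.1 + r z - (z.1 - r z)) * (z.2 + r z - (z.2 - r z)) := by
        apply mul_nonneg <;> linarith
      have hZ0 := Zf_nonneg (φ.st z)
      have hlow : ENNReal.ofReal (Zf (φ.st z)) * volume (Metric.closedBall z (r z)) ≤
          (∫⁻ y in Metric.closedBall z (r z), ENNReal.ofReal (Zf (φ.st y))) +
          ENNReal.ofReal ε₂ * volume (Metric.closedBall z (r z)) := by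
        rw [← setLIntegral_const, ← setLIntegral_const, ← lintegral_add_right _ measurable_const]
        apply setLIntegral_mono' Metric.isClosed_closedBall.measurableSet
        intro y hy
        have := ((hR z hzU).2 y (Metric.closedBall_subset_ball hrR hy)).2.2.2
        rw [← ENNReal.ofReal_add (Zf_nonneg _) hε₂0.le]
        exact ENNReal.ofReal_le_ofReal this
      calc ENNReal.ofReal ((340 * Zf (φ.st z) + ε₁) *
            ((z.1 + r z - (z.1 - r z)) * (z.2 + r z - (z.2 - r z))))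
          = ENNReal.ofReal (340 * Zf (φ.st z) + ε₁) * volume (Metric.closedBall z (r z)) := by
            rw [hvB, ENNReal.ofReal_mul (by positivity)]
        _ = ENNReal.ofReal 340 * (ENNReal.ofReal (Zf (φ.st z)) *
              volume (Metric.closedBall z (r z))) +
              ENNReal.ofReal ε₁ * volume (Metric.closedBall z (r z)) := by
            rw [ENNReal.ofReal_add (by positivity) hε₁0.le, ENNReal.ofReal_mul (by norm_num)]
            ring
        _ ≤ ENNReal.ofReal 340 *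
              ((∫⁻ y in Metric.closedBall z (r z), ENNReal.ofReal (Zf (φ.st y))) +
              ENNReal.ofReal ε₂ * volume (Metric.closedBall z (r z))) +
              ENNReal.ofReal ε₁ * volume (Metric.closedBall z (r z)) := by gcongr
        _ = _ := by
            rw [ENNReal.ofReal_add (by positivity) hε₁0.le, ENNReal.ofReal_mul (by norm_num)]
            ring
    · exact ⟨Reg.zero, fun h => absurd h hz⟩
  choose ψ hψ using hch
  have hballU : ∀ z ∈ S, Metric.closedBall z (r z) ⊆ U := by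
    intro z hz y hy
    obtain ⟨hzU, hr0, hrR⟩ := hS1 z hz
    exact ((hR z hzU).2 y (Metric.closedBall_subset_ball hrR hy)).1
  have hoB : ∀ z, oR (z.1 - r z) (z.1 + r z) (z.2 - r z) (z.2 + r z) ⊆
      Metric.closedBall z (r z) := by
    intro z
    rw [closedBall_eq_cR]
    exact oR_subset_cR
  have hsupp : ∀ z ∈ S, (ψ z).SuppIn (Metric.closedBall z (r z)) :=
    fun z hz => (hψ z hz).1.mono (hoB z)
  refine ⟨Reg.sum S ψ, ?_, ?_, ?_⟩
  · exact Reg.SuppIn.sum fun z hz => (hsupp z hz).mono (hballU z hz)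
  · exact (Reg.small_sum hε₁0.le hsupp (fun z hz => (hψ z hz).2.1) hS2).mono
      (by rw [hε₁]; exact min_le_left _ _)
  · set V := ⋃ z ∈ S, Metric.closedBall z (r z) with hV
    have hVm : MeasurableSet V :=
      Finset.measurableSet_biUnion S (fun _ _ => Metric.isClosed_closedBall.measurableSet)
    have hcover : U ⊆ V ∪ (U \ V) := by
      intro z hz
      by_cases h : z ∈ V
      · exact Or.inl h
      · exact Or.inr ⟨hz, h⟩
    have hmain : ∫⁻ y in V, Ff ((φ.add (Reg.sum S ψ)).st y) ≤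
        ENNReal.ofReal 340 * (∫⁻ y in U, ENNReal.ofReal (Zf (φ.st y))) +
          ENNReal.ofReal (340 * ε₂ + ε₁) * ENNReal.ofReal v := by
      have h1 : ∫⁻ y in V, Ff ((φ.add (Reg.sum S ψ)).st y) ≤
          ∑ z ∈ S, (ENNReal.ofReal 340 *
            (∫⁻ y in Metric.closedBall z (r z), ENNReal.ofReal (Zf (φ.st y))) +
            ENNReal.ofReal (340 * ε₂ + ε₁) * volume (Metric.closedBall z (r z))) := by
        rw [hV]
        refine (lintegral_finset_le S _ _).trans ?_
        apply Finset.sum_le_sum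
        intro z hz
        refine le_trans (le_of_eq ?_) (hψ z hz).2.2
        apply setLIntegral_congr_fun Metric.isClosed_closedBall.measurableSet
        intro y hy
        have h1 := Reg.sum_apply_of hsupp hz (z := y) (fun j hj hji hzj =>
          (Set.disjoint_left.mp (hS2 j hj z hz hji)) hzj hy)
        have e : (φ.add (Reg.sum S ψ)).st y = (φ.add (ψ z)).st y := by
          simp only [Reg.st, Reg.add]
          rw [h1.2.1, h1.2.2.2]
        simp only [e]
      refine h1.trans ?_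
      rw [Finset.sum_add_distrib, ← Finset.mul_sum, ← Finset.mul_sum]
      have h2 : ∑ z ∈ S, ∫⁻ y in Metric.closedBall z (r z), ENNReal.ofReal (Zf (φ.st y)) ≤
          ∫⁻ y in U, ENNReal.ofReal (Zf (φ.st y)) := by
        rw [← lintegral_biUnion_finset (fun z hz z' hz' h => hS2 z hz z' hz' h)
          (fun z _ => Metric.isClosed_closedBall.measurableSet)]
        apply lintegral_mono_set
        exact Set.iUnion₂_subset hballU
      have h3 : ∑ z ∈ S, volume (Metric.closedBall z (r z)) ≤ ENNReal.ofReal v := by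
        rw [← hvol, ← measure_biUnion_finset (fun z hz z' hz' h => hS2 z hz z' hz' h)
          (fun z _ => Metric.isClosed_closedBall.measurableSet)]
        exact measure_mono (Set.iUnion₂_subset hballU)
      gcongr
    have hrest : ∫⁻ y in (U \ V), Ff ((φ.add (Reg.sum S ψ)).st y) ≤
        ENNReal.ofReal C * ENNReal.ofReal ρ := by
      have h1 : ∀ y ∈ U \ V, Ff ((φ.add (Reg.sum S ψ)).st y) ≤ ENNReal.ofReal C := by
        intro y hy
        have h2 : (Reg.sum S ψ).SuppIn V := by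
          apply Reg.SuppIn.sum
          intro z hz
          apply (hsupp z hz).mono
          rw [hV]
          exact Set.subset_biUnion_of_mem (u := fun z => Metric.closedBall z (r z)) hz
        have h3 := h2 y hy.2
        have e : (φ.add (Reg.sum S ψ)).st y = φ.st y := by
          simp only [Reg.st, Reg.add]
          rw [h3.2.1, h3.2.2.2, add_zero, add_zero]
        rw [e]
        exact hCU y hy.1
      calc ∫⁻ y in (U \ V), Ff ((φ.add (Reg.sum S ψ)).st y)
          ≤ ∫⁻ y in (U \ V), ENNReal.ofReal C :=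
            setLIntegral_mono' (hU.measurableSet.diff hVm) h1
        _ = ENNReal.ofReal C * volume (U \ V) := setLIntegral_const _ _
        _ ≤ ENNReal.ofReal C * ENNReal.ofReal ρ := by gcongr
    calc ∫⁻ y in U, Ff ((φ.add (Reg.sum S ψ)).st y)
        ≤ ∫⁻ y in V ∪ (U \ V), Ff ((φ.add (Reg.sum S ψ)).st y) := lintegral_mono_set hcover
      _ ≤ _ := lintegral_union_le _ _ _
      _ ≤ _ := add_le_add hmain hrest
      _ ≤ _ := by
          rw [add_assoc]
          gcongr
          rw [← ENNReal.ofReal_mul (by positivity), ← ENNReal.ofReal_mul hC0,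
            ← ENNReal.ofReal_add (by positivity) (by positivity)]
          apply ENNReal.ofReal_le_ofReal
          nlinarith

end Pool.Agent.Lib.MP_784f1f_an
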