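import Pool.Agent.Lib.MP_784f1f_an.Split

set_option autoImplicit false
open MeasureTheory Filter Topology Set

namespace Pool.Agent.Lib.MP_784f1f_an

/-- volume of the part of a rectangle not covered by disjoint subrectangles -/
lemma volume_leftover {ι : Type} (S : Finset ι) {s0 s1 x0 x1 θ ρ : ℝ} (hs : s0 < s1)
    (t0 t1 y0 y1 : ι → ℝ) (ht : ∀ i ∈ S, t0 i < t1 i) (hy : ∀ i ∈ S, y0 i < y1 i)
    (hsub : ∀ i ∈ S, cR (t0 i) (t1 i) (y0 i) (y1 i) ⊆ cR s0 s1 x0 x1)
    (hdisj : ∀ i ∈ S, ∀ j ∈ S, i ≠ j →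
      Disjoint (cR (t0 i) (t1 i) (y0 i) (y1 i)) (cR (t0 j) (t1 j) (y0 j) (y1 j)))
    (hsum : θ = ∑ i ∈ S, (t1 i - t0 i) * (y1 i - y0 i))
    (hρ : (s1 - s0) * (x1 - x0) - θ ≤ ρ) :
    volume (cR s0 s1 x0 x1 \ ⋃ i ∈ S, cR (t0 i) (t1 i) (y0 i) (y1 i)) ≤ ENNReal.ofReal ρ := by
  have hm : ∀ i ∈ S, MeasurableSet (cR (t0 i) (t1 i) (y0 i) (y1 i)) :=
    fun i _ => measurableSet_cR _ _ _ _
  have hV : volume (⋃ i ∈ S, cR (t0 i) (t1 i) (y0 i) (y1 i)) = ENNReal.ofReal θ := by
    rw [measure_biUnion_finset (fun i hi j hj hij => hdisj i hi j hj hij) hm, hsum,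
      ENNReal.ofReal_sum_of_nonneg]
    · apply Finset.sum_congr rfl
      intro i hi
      exact volume_cR (ht i hi).le
    · intro i hi
      apply mul_nonneg
      · linarith [ht i hi]
      · linarith [hy i hi]
  rw [measure_sdiff (Set.iUnion₂_subset hsub)
    (Finset.measurableSet_biUnion S hm).nullMeasurableSet (by rw [hV]; exact ENNReal.ofReal_ne_top),
    hV, volume_cR hs.le, ← ENNReal.ofReal_sub]
  · exact ENNReal.ofReal_le_ofReal hρ
  · rw [hsum]
    apply Finset.sum_nonneg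
    intro i hi
    apply mul_nonneg
    · linarith [ht i hi]
    · linarith [hy i hi]

/-- Layout of weighted pieces in the unit interval. -/
structure Layout (ι : Type) (S : Finset ι) (w pos : ι → ℝ) : Prop where
  wpos : ∀ i ∈ S, 0 < w i
  lo : ∀ i ∈ S, 0 ≤ pos i
  hi : ∀ i ∈ S, pos i + w i ≤ 1
  disj : ∀ i ∈ S, ∀ j ∈ S, i ≠ j → pos i + w i ≤ pos j ∨ pos j + w j ≤ pos i
  sum : ∑ i ∈ S, w i = 1

lemma sum_bound {ι : Type} {S : Finset ι} (d : ι → ℝ) {A : ι → ℝ} {B : ℝ} (h : ∀ i ∈ S, 0 ≤ A i ∧ A i ≤ B) :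
    |∑ i ∈ S, d i * A i| ≤ (∑ i ∈ S, |d i|) * B := by
  refine (Finset.abs_sum_le_sum_abs _ _).trans ?_
  rw [Finset.sum_mul]
  apply Finset.sum_le_sum
  intro i hi
  rw [abs_mul, abs_of_nonneg (h i hi).1]
  exact mul_le_mul_of_nonneg_left (h i hi).2 (abs_nonneg _)

section profiles

variable {ι : Type} {S : Finset ι} {w pos : ι → ℝ} (lay : Layout ι S w pos) {d : ι → ℝ}
  {κ X k : ℝ}

include lay

lemma Layout.w_le {i : ι} (hi : i ∈ S) : w i ≤ 1 := by
  have h1 := lay.lo i hi
  have h2 := lay.hi i hi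
  linarith

/-- second order profile -/
lemma profile2 (hκ : 0 < κ) (hk : 0 < k) (h1 : ∑ i ∈ S, w i * d i = 0)
    (h2 : ∑ i ∈ S, w i * d i * (pos i + w i / 2) = 0) :
    ∃ v v' v'' : ℝ → ℝ, (∀ x, HasDerivAt v (v' x) x) ∧ (∀ x, HasDerivAt v' (v'' x) x) ∧
      Continuous v'' ∧ (∀ x, x ∉ Ioo X (X + k) → v x = 0 ∧ v' x = 0 ∧ v'' x = 0) ∧
      (∀ x, |v x| ≤ (∑ i ∈ S, |d i|) * k ^ 2 ∧ |v' x| ≤ (∑ i ∈ S, |d i|) * k ∧
        |v'' x| ≤ (∑ i ∈ S, |d i|)) ∧
      (∀ i ∈ S, ∀ x, X + pos i * k + κ * (w i * k) ≤ x →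
        x ≤ X + pos i * k + w i * k - κ * (w i * k) → v'' x = d i) := by
  have hwk : ∀ i ∈ S, 0 < w i * k := fun i hi => mul_pos (lay.wpos i hi) hk
  obtain ⟨l, hl⟩ : ∃ l : ι → ℝ, l = fun i => X + pos i * k := ⟨_, rfl⟩
  have hlX : ∀ i ∈ S, X ≤ l i ∧ l i + w i * k ≤ X + k := by
    intro i hi
    rw [hl]
    have := lay.lo i hi
    have := lay.hi i hi
    constructor <;> simp only <;> nlinarith
  refine ⟨fun x => ∑ i ∈ S, d i * blk κ (l i) (w i * k) x,
    fun x => ∑ i ∈ S, d i * blk' κ (l i) (w i * k) x,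
    fun x => ∑ i ∈ S, d i * blk'' κ (l i) (w i * k) x, ?_, ?_, ?_, ?_, ?_, ?_⟩
  · intro x
    exact HasDerivAt.fun_sum fun i hi => (hasDerivAt_blk (hwk i hi) x).const_mul (d i)
  · intro x
    exact HasDerivAt.fun_sum fun i hi => (hasDerivAt_blk' (hwk i hi) x).const_mul (d i)
  · exact continuous_finsetSum _ fun i _ => (continuous_blk'' _ _ _).const_mul (d i)
  · intro x hx
    rcases le_or_gt x X with h | h
    · refine ⟨Finset.sum_eq_zero fun i hi => ?_, Finset.sum_eq_zero fun i hi => ?_,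
        Finset.sum_eq_zero fun i hi => ?_⟩
      · rw [(blk_left hκ (hwk i hi) (h.trans (hlX i hi).1)).1, mul_zero]
      · rw [(blk_left hκ (hwk i hi) (h.trans (hlX i hi).1)).2.1, mul_zero]
      · rw [(blk_left hκ (hwk i hi) (h.trans (hlX i hi).1)).2.2, mul_zero]
    · have h' : X + k ≤ x := by
        by_contra hcon
        exact hx ⟨h, not_le.mp hcon⟩
      refine ⟨?_, ?_, ?_⟩
      · have e : ∑ i ∈ S, d i * blk κ (l i) (w i * k) x =
            Q κ 1 * k * (x - X) * (∑ i ∈ S, w i * d i) -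
            Q κ 1 * k ^ 2 * ∑ i ∈ S, w i * d i * (pos i + w i / 2) := by
          rw [Finset.mul_sum, Finset.mul_sum, ← Finset.sum_sub_distrib]
          apply Finset.sum_congr rfl
          intro i hi
          rw [(blk_right hκ (hwk i hi) ((hlX i hi).2.trans h')).1, hl]
          ring
        beta_reduce; rw [e, h1, h2]; ring
      · have e : ∑ i ∈ S, d i * blk' κ (l i) (w i * k) x = Q κ 1 * k * (∑ i ∈ S, w i * d i) := by
          rw [Finset.mul_sum]
          apply Finset.sum_congr rfl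
          intro i hi
          rw [(blk_right hκ (hwk i hi) ((hlX i hi).2.trans h')).2.1]
          ring
        beta_reduce; rw [e, h1]; ring
      · apply Finset.sum_eq_zero
        intro i hi
        rw [(blk_right hκ (hwk i hi) ((hlX i hi).2.trans h')).2.2, mul_zero]
  · intro x
    have hD0 : 0 ≤ ∑ i ∈ S, |d i| := Finset.sum_nonneg fun i _ => abs_nonneg _
    have hw1 : ∀ i ∈ S, w i * k ≤ k := by
      intro i hi
      have := lay.w_le hi
      nlinarith
    refine ⟨?_, ?_, ?_⟩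
    · by_cases hx : x ≤ X + k
      · apply sum_bound
        intro i hi
        exact blk_bound hκ (hwk i hi) (hw1 i hi) (hlX i hi).1 hx
      · have h' : X + k ≤ x := (not_le.mp hx).le
        have e : ∑ i ∈ S, d i * blk κ (l i) (w i * k) x =
            Q κ 1 * k * (x - X) * (∑ i ∈ S, w i * d i) -
            Q κ 1 * k ^ 2 * ∑ i ∈ S, w i * d i * (pos i + w i / 2) := by
          rw [Finset.mul_sum, Finset.mul_sum, ← Finset.sum_sub_distrib]
          apply Finset.sum_congr rfl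
          intro i hi
          rw [(blk_right hκ (hwk i hi) ((hlX i hi).2.trans h')).1, hl]
          ring
        beta_reduce
        rw [e, h1, h2, mul_zero, mul_zero, sub_zero, abs_zero]
        positivity
    · apply sum_bound
      intro i hi
      have := blk'_bound (l := l i) hκ (hwk i hi) x
      exact ⟨this.1, this.2.trans (hw1 i hi)⟩
    · have := sum_bound (S := S) d (A := fun i => blk'' κ (l i) (w i * k) x) (B := 1)
        (fun i _ => blk''_bound x)
      rwa [mul_one] at this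
  · intro i hi x hx1 hx2
    have hκi : 0 < κ * (w i * k) := mul_pos hκ (hwk i hi)
    beta_reduce
    rw [Finset.sum_eq_single i]
    · rw [blk''_plateau hκ (hwk i hi) (by rw [hl]; linarith) (by rw [hl]; linarith), mul_one]
    · intro j hj hji
      rcases lay.disj i hi j hj (Ne.symm hji) with h | h
      · have e : x ≤ l j := by
          rw [hl]; simp only; nlinarith
        rw [(blk_left hκ (hwk j hj) e).2.2, mul_zero]
      · have e : l j + w j * k ≤ x := by
          rw [hl]; simp only; nlinarith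
        rw [(blk_right hκ (hwk j hj) e).2.2, mul_zero]
    · exact fun h => absurd hi h

/-- first order profile -/
lemma profile1 (hκ : 0 < κ) (hk : 0 < k) (h1 : ∑ i ∈ S, w i * d i = 0) :
    ∃ u u' : ℝ → ℝ, (∀ x, HasDerivAt u (u' x) x) ∧
      Continuous u' ∧ (∀ x, x ∉ Ioo X (X + k) → u x = 0 ∧ u' x = 0) ∧
      (∀ x, |u x| ≤ (∑ i ∈ S, |d i|) * k ∧ |u' x| ≤ (∑ i ∈ S, |d i|)) ∧
      (∀ i ∈ S, ∀ x, X + pos i * k + κ * (w i * k) ≤ x →
        x ≤ X + pos i * k + w i * k - κ * (w i * k) → u' x = d i) := by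
  have hwk : ∀ i ∈ S, 0 < w i * k := fun i hi => mul_pos (lay.wpos i hi) hk
  obtain ⟨l, hl⟩ : ∃ l : ι → ℝ, l = fun i => X + pos i * k := ⟨_, rfl⟩
  have hlX : ∀ i ∈ S, X ≤ l i ∧ l i + w i * k ≤ X + k := by
    intro i hi
    rw [hl]
    have := lay.lo i hi
    have := lay.hi i hi
    constructor <;> simp only <;> nlinarith
  refine ⟨fun x => ∑ i ∈ S, d i * blk' κ (l i) (w i * k) x,
    fun x => ∑ i ∈ S, d i * blk'' κ (l i) (w i * k) x, ?_, ?_, ?_, ?_, ?_⟩
  · intro x
    exact HasDerivAt.fun_sum fun i hi => (hasDerivAt_blk' (hwk i hi) x).const_mul (d i)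
  · exact continuous_finsetSum _ fun i _ => (continuous_blk'' _ _ _).const_mul (d i)
  · intro x hx
    rcases le_or_gt x X with h | h
    · refine ⟨Finset.sum_eq_zero fun i hi => ?_, Finset.sum_eq_zero fun i hi => ?_⟩
      · rw [(blk_left hκ (hwk i hi) (h.trans (hlX i hi).1)).2.1, mul_zero]
      · rw [(blk_left hκ (hwk i hi) (h.trans (hlX i hi).1)).2.2, mul_zero]
    · have h' : X + k ≤ x := by
        by_contra hcon
        exact hx ⟨h, not_le.mp hcon⟩
      refine ⟨?_, ?_⟩
      · have e : ∑ i ∈ S, d i * blk' κ (l i) (w i * k) x = Q κ 1 * k * (∑ i ∈ S, w i * d i) := by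
          rw [Finset.mul_sum]
          apply Finset.sum_congr rfl
          intro i hi
          rw [(blk_right hκ (hwk i hi) ((hlX i hi).2.trans h')).2.1]
          ring
        beta_reduce; rw [e, h1]; ring
      · apply Finset.sum_eq_zero
        intro i hi
        rw [(blk_right hκ (hwk i hi) ((hlX i hi).2.trans h')).2.2, mul_zero]
  · intro x
    have hw1 : ∀ i ∈ S, w i * k ≤ k := by
      intro i hi
      have := lay.w_le hi
      nlinarith
    refine ⟨?_, ?_⟩
    · apply sum_bound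
      intro i hi
      have := blk'_bound (l := l i) hκ (hwk i hi) x
      exact ⟨this.1, this.2.trans (hw1 i hi)⟩
    · have := sum_bound (S := S) d (A := fun i => blk'' κ (l i) (w i * k) x) (B := 1)
        (fun i _ => blk''_bound x)
      rwa [mul_one] at this
  · intro i hi x hx1 hx2
    have hκi : 0 < κ * (w i * k) := mul_pos hκ (hwk i hi)
    beta_reduce
    rw [Finset.sum_eq_single i]
    · rw [blk''_plateau hκ (hwk i hi) (by rw [hl]; linarith) (by rw [hl]; linarith), mul_one]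
    · intro j hj hji
      rcases lay.disj i hi j hj (Ne.symm hji) with h | h
      · have e : x ≤ l j := by
          rw [hl]; simp only; nlinarith
        rw [(blk_left hκ (hwk j hj) e).2.2, mul_zero]
      · have e : l j + w j * k ≤ x := by
          rw [hl]; simp only; nlinarith
        rw [(blk_right hκ (hwk j hj) e).2.2, mul_zero]
    · exact fun h => absurd hi h

end profiles

end Pool.Agent.Lib.MP_784f1f_an
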